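import Pool.Agent.PnMaynard2.Final
import Mathlib.Algebra.Group.ForwardDiff

/-!
# Uniformity in the polynomial `Q`
-/

open Finset Filter Topology Polynomial

namespace Pool.Agent.PnMaynard2

open Pool.Agent.PnPoly Pool.Agent.PnMaynard

/-- Newton coefficients of an integer-valued polynomial. -/
lemma exists_newton (Q : Polynomial ℚ) (Z : ℤ → ℤ) (hZ : ∀ m : ℤ, Q.eval (m : ℚ) = (Z m : ℚ))
    {d : ℕ} (hd : Q.natDegree ≤ d) : ∃ c : ℕ → ℤ,
      (∀ n : ℕ, Z n = ∑ k ∈ range (d + 1), (n.choose k : ℤ) * c k) ∧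
      ∀ B : ℝ, (∀ k : ℕ, k ≤ d → |((Z k : ℤ) : ℝ)| ≤ B) → ∀ k, k ≤ d → |((c k : ℤ) : ℝ)| ≤ 2 ^ d * B := by
  have hcast : ∀ (k : ℕ) (y : ℤ), (((fwdDiff (1:ℤ))^[k] Z y : ℤ) : ℚ) =
      (fwdDiff (1:ℚ))^[k] (fun x => Q.eval x) (y : ℚ) := by
    intro k y
    rw [fwdDiff_iter_eq_sum_shift, fwdDiff_iter_eq_sum_shift]
    push_cast
    refine sum_congr rfl fun i _ => ?_
    have h1 := hZ (y + i • (1:ℤ))
    push_cast at h1
    simp only [zsmul_eq_mul, smul_eq_mul, nsmul_eq_mul, mul_one] at h1 ⊢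
    push_cast at h1 ⊢
    rw [← h1]
  have hzero : ∀ k, d < k → (fwdDiff (1:ℤ))^[k] Z 0 = 0 := by
    intro k hk
    have h1 := hcast k 0
    have h2 := Polynomial.fwdDiff_iter_eq_zero_of_degree_lt (P := Q) (n := k) (by omega)
    rw [h2, Pi.zero_apply] at h1
    exact_mod_cast h1
  refine ⟨fun k => (fwdDiff (1:ℤ))^[k] Z 0, fun n => ?_, fun B hB k hk => ?_⟩
  · have h1 := shift_eq_sum_fwdDiff_iter (1:ℤ) Z n 0
    have h2 : (0:ℤ) + n • (1:ℤ) = n := by simp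
    rw [h2] at h1
    rw [h1]
    have h3 : ∑ k ∈ range (n + 1), n.choose k • (fwdDiff (1:ℤ))^[k] Z 0 =
        ∑ k ∈ range (n + d + 1), (n.choose k : ℤ) * (fwdDiff (1:ℤ))^[k] Z 0 := by
      rw [sum_congr rfl fun k _ => nsmul_eq_mul (n.choose k) _]
      refine sum_subset (range_subset_range.2 (by omega)) fun k _ hk => ?_
      rw [mem_range, not_lt] at hk
      rw [Nat.choose_eq_zero_of_lt (by omega), Nat.cast_zero, zero_mul]
    rw [h3]
    refine (sum_subset (range_subset_range.2 (by omega)) fun k _ hk => ?_).symm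
    rw [mem_range, not_lt] at hk
    rw [hzero k (by omega), mul_zero]
  · simp only
    rw [fwdDiff_iter_eq_sum_shift]
    push_cast
    refine (abs_sum_le_sum_abs _ _).trans ?_
    have hB0 : 0 ≤ B := (abs_nonneg _).trans (hB 0 (Nat.zero_le _))
    calc ∑ i ∈ range (k + 1), |((((-1 : ℤ) ^ (k - i) * k.choose i) • Z (0 + i • (1:ℤ)) : ℤ) : ℝ)|
        ≤ ∑ i ∈ range (k + 1), (k.choose i : ℝ) * B := by
          refine sum_le_sum fun i hi => ?_
          rw [mem_range] at hi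
          have h1 := hB i (by omega)
          have h2 : (0:ℤ) + i • (1:ℤ) = i := by simp
          rw [h2]
          push_cast
          rw [smul_eq_mul]
          push_cast
          rw [abs_mul, abs_mul, abs_pow, abs_neg, abs_one, one_pow, one_mul, Nat.abs_cast]
          exact mul_le_mul_of_nonneg_left h1 (Nat.cast_nonneg _)
      _ = 2 ^ k * B := by
          rw [← sum_mul]
          congr 1
          exact_mod_cast Nat.sum_range_choose k
      _ ≤ 2 ^ d * B := by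
          refine mul_le_mul_of_nonneg_right ?_ hB0
          exact pow_le_pow_right₀ (by norm_num) hk

/-- Uniform compatibility with congruences. -/
lemma IV_uniform {Q : Polynomial ℚ} {Z : ℤ → ℤ} (hZ : ∀ m : ℤ, Q.eval (m : ℚ) = (Z m : ℚ))
    {d n0 : ℕ} (hd : Q.natDegree ≤ d) (hpos : ∀ n : ℕ, n0 ≤ n → 0 ≤ Z n) :
    IV d.factorial n0 (fun n => (Z n).toNat) := by
  obtain ⟨c, hc, -⟩ := exists_newton Q Z hZ hd
  intro T n m hn hm hmod
  rw [← Int.natCast_modEq_iff]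
  rw [Nat.cast_mul, Nat.cast_mul, Int.toNat_of_nonneg (hpos n hn),
    Int.toNat_of_nonneg (hpos m hm), hc, hc, mul_sum, mul_sum]
  have h1 : ∀ k ∈ range (d + 1), (d.factorial : ℤ) * ((n.choose k : ℤ) * c k) ≡
      (d.factorial : ℤ) * ((m.choose k : ℤ) * c k) [ZMOD T] := by
    intro k hk
    rw [mem_range] at hk
    have h2 := choose_modEq (d := d) (j := k) (by omega) hmod
    rw [← Int.natCast_modEq_iff] at h2
    push_cast at h2
    have h3 := h2.mul_right (c k)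
    rwa [mul_assoc, mul_assoc] at h3
  classical
  have h2 : ∀ s : Finset ℕ, s ⊆ range (d + 1) →
      ∑ k ∈ s, (d.factorial : ℤ) * ((n.choose k : ℤ) * c k) ≡
        ∑ k ∈ s, (d.factorial : ℤ) * ((m.choose k : ℤ) * c k) [ZMOD T] := by
    intro s
    induction s using Finset.induction_on with
    | empty => intro _; rfl
    | insert k s hk ih =>
      intro hs
      rw [sum_insert hk, sum_insert hk]
      exact (h1 k (hs (mem_insert_self _ _))).add (ih ((subset_insert _ _).trans hs))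
  exact h2 _ (Subset.refl _)

/-- Uniform growth. -/
lemma growth_uniform {Q : Polynomial ℚ} {Z : ℤ → ℤ} (hZ : ∀ m : ℤ, Q.eval (m : ℚ) = (Z m : ℚ))
    {d : ℕ} (hd : Q.natDegree ≤ d) {B : ℝ} (hB : ∀ k : ℕ, k ≤ d → |((Z k : ℤ) : ℝ)| ≤ B)
    {y : ℝ} (hy : 1 ≤ y) (n : ℕ) (hn : (n:ℝ) ≤ y) :
    |((Z n : ℤ) : ℝ)| ≤ (d + 1) * 2 ^ d * B * y ^ d := by
  obtain ⟨c, hc, hcB⟩ := exists_newton Q Z hZ hd
  have hB0 : 0 ≤ B := (abs_nonneg _).trans (hB 0 (Nat.zero_le _))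
  rw [hc]
  push_cast
  refine (abs_sum_le_sum_abs _ _).trans ?_
  calc ∑ k ∈ range (d + 1), |(n.choose k : ℝ) * ((c k : ℤ) : ℝ)|
      ≤ ∑ _k ∈ range (d + 1), y ^ d * (2 ^ d * B) := by
        refine sum_le_sum fun k hk => ?_
        rw [mem_range] at hk
        rw [abs_mul, Nat.abs_cast]
        have h1 : (n.choose k : ℝ) ≤ (n:ℝ) ^ k := by exact_mod_cast Nat.choose_le_pow n k
        have h2 : (n:ℝ) ^ k ≤ y ^ k := pow_le_pow_left₀ (Nat.cast_nonneg n) hn k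
        have h3 : y ^ k ≤ y ^ d := pow_le_pow_right₀ hy (by omega)
        exact mul_le_mul (h1.trans (h2.trans h3)) (hcB B hB k (by omega)) (abs_nonneg _)
          (by positivity)
    _ = _ := by
        rw [sum_const, card_range, nsmul_eq_mul]
        push_cast
        ring

/-- Almost all perturbations in a fixed direction, uniformly in the polynomial `Q`. -/
theorem almost_all_uniform (d n1 : ℕ) (R : Polynomial ℚ)
    (hR : ∀ m : ℤ, ∃ k : ℤ, R.eval (m : ℚ) = (k : ℚ)) (hlcR : 0 < R.leadingCoeff)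
    (hdeg : 1 ≤ R.natDegree) (A D : ℝ) {δ ε : ℝ} (hδ : 0 < δ) (hε : 0 < ε) :
    ∃ H0 : ℕ, ∀ H : ℕ, H0 ≤ H → ∀ Q : Polynomial ℚ,
      (∀ m : ℤ, ∃ k : ℤ, Q.eval (m : ℚ) = (k : ℚ)) → Q.natDegree ≤ d →
      (∀ n : ℕ, n1 ≤ n → 0 ≤ Q.eval (n : ℚ)) →
      (∀ k : ℕ, k ≤ d → |((Q.eval (k : ℚ) : ℚ) : ℝ)| ≤ H * Real.log H ^ D) →
      (1 - ε) * (H:ℝ) ^ 2 ≤ (({v : ℕ × ℕ | (1 ≤ v.1 ∧ v.1 ≤ H) ∧ (1 ≤ v.2 ∧ v.2 ≤ H) ∧
        Admissible (Q + (Polynomial.C (v.1 : ℚ) * R + Polynomial.C (v.2 : ℚ))) ∧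
        ∀ N : ℕ, Real.log H ^ (1 + δ) ≤ N → (N:ℝ) ≤ Real.log H ^ A →
          ManyPrimes (Q + (Polynomial.C (v.1 : ℚ) * R + Polynomial.C (v.2 : ℚ)))
            N ⌈(N:ℝ) / Real.log H ^ (1 + δ)⌉₊}.ncard : ℕ) : ℝ) := by
  classical
  choose Y hY using hR
  have hYn : ∀ n : ℕ, R.eval (n : ℚ) = ((Y (n : ℤ) : ℤ) : ℚ) := by
    intro n
    have := hY (n : ℤ)
    simpa using this
  obtain ⟨ΔR, n2, z0, e, C0, hΔR, hdir⟩ := exists_dir R Y hY hlcR hdeg
  set n0 := max n1 n2 with hn0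
  have hdir' : Dir (d.factorial * ΔR) n0 z0 e C0 (fun n => (Y n).toNat) :=
    hdir.mono' (le_max_right _ _)
  have hYpos : ∀ n : ℕ, n0 ≤ n → 0 ≤ Y n := by
    intro n hn
    have := hdir'.pos n hn
    omega
  obtain ⟨A2, hA⟩ := main_all hdir' (Nat.mul_pos d.factorial_pos hΔR) A hδ hε
  rw [← eventually_atTop]
  filter_upwards [hA (⌈D⌉₊ + A2 * d + 1), tendsto_log_nat.eventually_ge_atTop
    (((d:ℝ) + 1) * 2 ^ d + 1)] with H hH hLbig Q hQ hQd hQpos hQB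
  choose Z hZ using hQ
  have hZn : ∀ n : ℕ, Q.eval (n : ℚ) = ((Z (n : ℤ) : ℤ) : ℚ) := by
    intro n
    have := hZ (n : ℤ)
    simpa using this
  have hZpos : ∀ n : ℕ, n0 ≤ n → 0 ≤ Z n := by
    intro n hn
    have h1 := hQpos n ((le_max_left _ _).trans hn)
    rw [hZn] at h1
    exact_mod_cast h1
  set L := Real.log H with hL
  have hd0 : (0:ℝ) < ((d:ℝ) + 1) * 2 ^ d := by positivity
  have hL1 : 1 ≤ L := by linarith
  have hL0 : 0 < L := by linarith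
  have hIV' : IV (d.factorial * ΔR) n0 (fun n => (Z n).toNat) := by
    rw [mul_comm]
    exact IV.mono (IV_uniform hZ hQd hZpos) le_rfl
  have hZB : ∀ k : ℕ, k ≤ d → |((Z k : ℤ) : ℝ)| ≤ H * L ^ D := by
    intro k hk
    have h1 := hQB k hk
    rw [hZn] at h1
    simpa using h1
  have hmain := hH (fun n => (Z n).toNat) hIV' (by
    intro n hn
    have h1 := growth_uniform hZ hQd hZB (y := L ^ A2) (one_le_pow₀ hL1) n hn
    have h2 : (((Z n).toNat : ℕ) : ℝ) = max ((Z n : ℤ) : ℝ) 0 := by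
      have : (((Z n).toNat : ℕ) : ℤ) = max (Z n) 0 := Int.toNat_eq_max (Z n)
      exact_mod_cast congrArg (fun z : ℤ => (z : ℝ)) this
    rw [h2]
    refine max_le ((le_abs_self _).trans (h1.trans ?_)) (by positivity)
    have h3 : L ^ D ≤ L ^ ⌈D⌉₊ := by
      rw [← Real.rpow_natCast]
      exact Real.rpow_le_rpow_of_exponent_le hL1 (Nat.le_ceil D)
    calc ((d:ℝ) + 1) * 2 ^ d * (H * L ^ D) * (L ^ A2) ^ d
        ≤ L * (H * L ^ ⌈D⌉₊) * (L ^ A2) ^ d := by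
          have h4 : ((d:ℝ) + 1) * 2 ^ d ≤ L := by linarith
          gcongr
      _ = H * L ^ (⌈D⌉₊ + A2 * d + 1) := by
          rw [pow_add, pow_add, ← pow_mul, pow_one]
          ring)
  set bad := ({v ∈ Ioc 0 H ×ˢ Ioc 0 H | ¬ ∀ N : ℕ, L ^ (1 + δ) ≤ N → (N:ℝ) ≤ L ^ A →
        (N:ℝ) / L ^ (1 + δ) ≤ (((Icc 1 N).filter
          (fun n => n0 ≤ n ∧ (pr n + 2 * ((Z n).toNat + v.1 * (Y n).toNat + v.2)).Prime)).card : ℝ)} :
            Finset (ℕ × ℕ)) with hbad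
  set good := (Ioc 0 H ×ˢ Ioc 0 H) \ bad with hgood
  have hcard : (good.card : ℝ) ≥ (1 - ε) * (H:ℝ) ^ 2 := by
    have h1 : good.card + bad.card = (Ioc 0 H ×ˢ Ioc 0 H).card :=
      card_sdiff_add_card_eq_card (filter_subset _ _)
    have h2 : ((Ioc 0 H ×ˢ Ioc 0 H).card : ℝ) = (H:ℝ) ^ 2 := by
      rw [card_product, Nat.card_Ioc]; simp only [Nat.sub_zero]; push_cast; ring
    have h3 : (good.card : ℝ) + bad.card = (H:ℝ) ^ 2 := by rw [← h2]; exact_mod_cast h1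
    linarith
  have hlcQ : 0 ≤ Q.leadingCoeff := by
    by_contra hneg
    push Not at hneg
    have hfin := finite_neg (Q := -Q) (by rw [leadingCoeff_neg]; linarith)
    by_cases hdQ : 0 < (-Q).degree
    · have h1 := Polynomial.tendsto_atTop_of_leadingCoeff_nonneg (-Q) hdQ
        (by rw [leadingCoeff_neg]; linarith)
      have h2 : Tendsto (fun n : ℕ => (-Q).eval (n : ℚ)) atTop atTop :=
        h1.comp tendsto_natCast_atTop_atTop
      obtain ⟨n, hn1, hn2⟩ := ((h2.eventually_gt_atTop 0).and (eventually_ge_atTop n1)).exists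
      have h3 := hQpos n hn2
      rw [eval_neg] at hn1
      linarith
    · have h1 : -Q = Polynomial.C ((-Q).coeff 0) :=
        Polynomial.eq_C_of_degree_le_zero (not_lt.mp hdQ)
      have h2 : Q = Polynomial.C (Q.coeff 0) := by
        have h3 := congrArg Neg.neg h1
        rw [neg_neg, coeff_neg, C_neg, neg_neg] at h3
        exact h3
      have h3 := hQpos n1 le_rfl
      rw [h2, eval_C] at h3
      rw [h2, leadingCoeff_C] at hneg
      linarith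
  refine hcard.trans ?_
  rw [← Set.ncard_coe_finset]
  have hle := Set.ncard_le_ncard (s := ((good : Finset _) : Set (ℕ × ℕ)))
    (t := {v : ℕ × ℕ | (1 ≤ v.1 ∧ v.1 ≤ H) ∧ (1 ≤ v.2 ∧ v.2 ≤ H) ∧
        Admissible (Q + (Polynomial.C (v.1 : ℚ) * R + Polynomial.C (v.2 : ℚ))) ∧
        ∀ N : ℕ, L ^ (1 + δ) ≤ N → (N:ℝ) ≤ L ^ A →
          ManyPrimes (Q + (Polynomial.C (v.1 : ℚ) * R + Polynomial.C (v.2 : ℚ)))
            N ⌈(N:ℝ) / L ^ (1 + δ)⌉₊}) ?_ ?_
  · exact_mod_cast hle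
  · intro v hv
    rw [mem_coe, hgood, Finset.mem_sdiff, mem_product, mem_Ioc, mem_Ioc] at hv
    obtain ⟨⟨ha, hb⟩, hnb⟩ := hv
    refine ⟨⟨ha.1, ha.2⟩, ⟨hb.1, hb.2⟩, dir_admissible (fun m => ⟨Z m, hZ m⟩)
      (fun m => ⟨Y m, hY m⟩) hlcQ hlcR hdeg ha.1, ?_⟩
    intro N hN1 hN2
    have hnb' : (N:ℝ) / L ^ (1 + δ) ≤ (((Icc 1 N).filter
          (fun n => n0 ≤ n ∧ (pr n + 2 * ((Z n).toNat + v.1 * (Y n).toNat + v.2)).Prime)).card : ℝ) := by
      rw [hbad, mem_filter, mem_product, mem_Ioc, mem_Ioc] at hnb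
      push Not at hnb
      exact hnb ⟨ha, hb⟩ N hN1 hN2
    refine manyPrimes_of' (Nat.cast_nonneg N) (Nat.ceil_le.2 hnb') ?_
    intro n hn
    rw [mem_filter, mem_Icc] at hn
    refine ⟨hn.1.1, by rw [Nat.floor_natCast]; exact hn.1.2, _, hn.2.2, ?_⟩
    have h1 : (((Z n).toNat : ℕ) : ℚ) = Q.eval (n : ℚ) := by
      rw [hZn n]
      have : (((Z n).toNat : ℕ) : ℤ) = Z n := Int.toNat_of_nonneg (hZpos n hn.2.1)
      exact_mod_cast congrArg (fun z : ℤ => (z : ℚ)) this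
    have h2 : (((Y n).toNat : ℕ) : ℚ) = R.eval (n : ℚ) := by
      rw [hYn n]
      have : (((Y n).toNat : ℕ) : ℤ) = Y n := Int.toNat_of_nonneg (hYpos n hn.2.1)
      exact_mod_cast congrArg (fun z : ℤ => (z : ℚ)) this
    push_cast
    rw [h1, h2]
    simp only [eval_add, eval_mul, eval_C]
    unfold pr
    ring
  · refine Set.Finite.subset (Finset.finite_toSet (Icc 1 H ×ˢ Icc 1 H)) fun v hv => ?_
    rw [mem_coe, mem_product, mem_Icc, mem_Icc]
    exact ⟨hv.1, hv.2.1⟩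

end Pool.Agent.PnMaynard2
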