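import Pool.Agent.PnMaynard2.Class
import Pool.Agent.PnMaynard.MainSeq2

/-!
# Almost all pairs `(a, b)`, near-optimal ranges
-/

open Finset Filter Topology

namespace Pool.Agent.PnMaynard2

open Pool.Agent.PnPoly Pool.Agent.PnMaynard

/-- The error terms. -/
lemma err_le2 {g K b : ℕ} {L H Θ lX E N' : ℝ} (hL : 1 ≤ L)
    (hH : 0 < H) (hΘ : 0 ≤ Θ) (hlX0 : 0 ≤ lX) (hlX : lX ≤ 2 * L) (hN0 : 0 ≤ N')
    (hN : N' ≤ L ^ b) (hK : (K:ℝ) ≤ H) (hHL : L ^ (2 * b + 2) ≤ H) (hE : E = H / L ^ (2 * b + 3)) :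
    Θ * (K * (2 * g * K + 2 * E)) +
        (2 * g * N' ^ 2 * K * (2 * E + lX) + 2 * E * (K * (1 + N')) * lX) +
        4 * (2 * g) * E * K ≤
      2 * (g + 1) * Θ * H ^ 2 + (16 * g + 8) * (H ^ 2 / L) := by
  have hL0 : 0 < L := by linarith
  have hK0 : (0:ℝ) ≤ K := Nat.cast_nonneg K
  have hg0 : (0:ℝ) ≤ g := Nat.cast_nonneg g
  have hE1 : E ≤ H := by rw [hE]; exact div_le_self hH.le (one_le_pow₀ hL)
  have hE0 : 0 ≤ E := by rw [hE]; positivity
  have hEL : E * L ^ (2 * b + 3) = H := by rw [hE]; field_simp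
  have hLb : 1 ≤ L ^ b := one_le_pow₀ hL
  have hEb : L ^ (2 * b) * E * L ≤ H := by
    calc L ^ (2 * b) * E * L ≤ L ^ (2 * b) * E * L ^ 3 := by
          refine mul_le_mul_of_nonneg_left ?_ (by positivity)
          calc L = L ^ 1 := (pow_one L).symm
            _ ≤ L ^ 3 := pow_le_pow_right₀ hL (by norm_num)
      _ = E * L ^ (2 * b + 3) := by rw [pow_add]; ring
      _ = H := hEL
  have hEb' : L ^ (2 * b) * E ≤ H / L := by rwa [le_div_iff₀ hL0]
  have t1 : Θ * (K * (2 * g * K + 2 * E)) ≤ 2 * (g + 1) * Θ * H ^ 2 := by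
    calc Θ * (K * (2 * g * K + 2 * E)) ≤ Θ * (H * (2 * g * H + 2 * H)) := by gcongr
      _ = _ := by ring
  have hN2 : N' ^ 2 ≤ L ^ (2 * b) := by
    calc N' ^ 2 ≤ (L ^ b) ^ 2 := pow_le_pow_left₀ hN0 hN 2
      _ = L ^ (2 * b) := by rw [← pow_mul, mul_comm b 2]
  have t2 : 2 * g * N' ^ 2 * K * (2 * E) ≤ 4 * g * (H ^ 2 / L) := by
    calc 2 * g * N' ^ 2 * K * (2 * E) = 4 * g * (N' ^ 2 * E) * K := by ring
      _ ≤ 4 * g * (L ^ (2 * b) * E) * H := by gcongr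
      _ ≤ 4 * g * (H / L) * H := by gcongr
      _ = _ := by ring
  have t3 : 2 * g * N' ^ 2 * K * lX ≤ 4 * g * (H ^ 2 / L) := by
    calc 2 * g * N' ^ 2 * K * lX ≤ 2 * g * L ^ (2 * b) * H * (2 * L) := by gcongr
      _ = 4 * g * (L ^ (2 * b + 2) / L) * H := by
          rw [pow_succ, pow_succ]; field_simp; ring
      _ ≤ 4 * g * (H / L) * H := by gcongr
      _ = _ := by ring
  have t4 : 2 * E * (K * (1 + N')) * lX ≤ 8 * (H ^ 2 / L) := by
    have h1 : 1 + N' ≤ 2 * L ^ b := by linarith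
    have h3 : L ^ b * L * E ≤ H / L := by
      rw [le_div_iff₀ hL0]
      calc L ^ b * L * E * L = E * L ^ (b + 2) := by rw [pow_add]; ring
        _ ≤ E * L ^ (2 * b + 3) := by
            refine mul_le_mul_of_nonneg_left ?_ hE0
            exact pow_le_pow_right₀ hL (by omega)
        _ = H := hEL
    calc 2 * E * (K * (1 + N')) * lX ≤ 2 * E * (H * (2 * L ^ b)) * (2 * L) := by gcongr
      _ = 8 * (L ^ b * L * E) * H := by ring
      _ ≤ 8 * (H / L) * H := by gcongr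
      _ = _ := by ring
  have t5 : 4 * (2 * g) * E * K ≤ 8 * g * (H ^ 2 / L) := by
    have h1 : E ≤ H / L := by
      refine le_trans ?_ hEb'
      exact le_mul_of_one_le_left hE0 (one_le_pow₀ hL)
    calc 4 * (2 * g) * E * K ≤ 4 * (2 * g) * (H / L) * H := by gcongr
      _ = _ := by ring
  have hsum : 2 * g * N' ^ 2 * K * (2 * E + lX) = 2 * g * N' ^ 2 * K * (2 * E) +
      2 * g * N' ^ 2 * K * lX := by ring
  rw [hsum]
  linarith only [t1, t2, t3, t4, t5]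

/-- Almost all pairs, one scale `n ≤ (log H) ^ s`. -/
theorem main_seq2 {Δ n0 z0 d C0 : ℕ} {R : ℕ → ℕ} (hR : Dir Δ n0 z0 d C0 R) (hΔ : 1 ≤ Δ)
    {s δ ε : ℝ} (hs : 1 < s) (hδ : 0 < δ) (hε : 0 < ε) (D0 : ℕ) :
    ∀ᶠ H : ℕ in atTop, ∀ Q : ℕ → ℕ, IV Δ n0 Q →
      (∀ n : ℕ, (n:ℝ) ≤ Real.log H ^ s → (Q n : ℝ) ≤ H * Real.log H ^ D0) →
      (((Ioc 0 H ×ˢ Ioc 0 H).filter (fun v => (((Icc 1 ⌊Real.log H ^ s⌋₊).filter
        (fun n => n0 ≤ n ∧ (pr n + 2 * (Q n + v.1 * R n + v.2)).Prime)).card : ℝ) <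
          Real.log H ^ (s - 1 - δ))).card : ℝ) ≤ ε * (H:ℝ) ^ 2 := by
  classical
  set ρ : ℝ := min (1/2) (min δ (s - 1) / (2 * s)) with hρ
  have hs0 : 0 < s := by linarith
  have hms : 0 < min δ (s - 1) := lt_min hδ (by linarith)
  set γ : ℝ := min δ (s - 1) / 2 with hγ
  have hγ0 : 0 < γ := by positivity
  have hρ0 : 0 < ρ := lt_min (by norm_num) (by positivity)
  have hρ1 : ρ ≤ 1 / 2 := min_le_left _ _
  have hsρ : s * ρ ≤ γ := by
    have h1 : ρ ≤ min δ (s - 1) / (2 * s) := min_le_right _ _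
    have h2 := mul_le_mul_of_nonneg_left h1 hs0.le
    have h3 : s * (min δ (s - 1) / (2 * s)) = γ := by rw [hγ]; field_simp
    linarith
  obtain ⟨g, hg0, hg2, hgz, hgΔ, M, hM, hclu⟩ := cluster_measure2 hΔ z0 d (2 * C0) (ε := ε / 8)
    (ρ := ρ) (by positivity) hρ0
  choose a0 ha0 ha0' using fun c : ℕ => exists_a0 g c hg0
  set sn := ⌈s⌉₊ with hsn
  set b := sn * C0 with hb
  set D1 := D0 + b + sn + 4 with hD1
  have hall : ∀ᶠ N : ℕ in atTop, ∀ c ∈ range g, ∃ ν : ℕ → ℝ, (∀ n, 0 ≤ ν n) ∧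
        (∀ n, ν n ≠ 0 → ((1 ≤ n ∧ n ≤ 3 * N) ∧ pr n ≤ 3 * N) ∧ n0 ≤ n ∧ n ≡ n0 [MOD g * Δ] ∧
          pr n ≡ a0 c [MOD g]) ∧
        ∑ n ∈ Icc 1 (3 * N), ν n = 1 ∧ (∀ n, ν n ≤ M * (N:ℝ) ^ (-1 + ρ : ℝ)) ∧
        ∀ Lf : ℕ → ℕ → Finset ℕ, (∀ m n, ∀ l ∈ Lf m n, l.Prime ∧ ¬ l ∣ g) →
          (∀ m n, ∏ l ∈ Lf m n, l ≤ N ^ (2 * C0)) →
          (∀ m l, l.Prime → ¬ l ∣ g → ∃ S : Finset ℕ, S.card ≤ d ∧
            ∀ n, l ∈ Lf m n → ∃ s ∈ S, pr n ≡ s [MOD l]) →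
          ∑ m ∈ Icc 1 (3 * N), ∑ n ∈ Icc 1 (3 * N), ν m * ν n * (if m = n then 0 else
            ∏ l ∈ Lf m n, ((l:ℝ) / ((l:ℝ) - 1))) ≤ 1 + ε / 8 := by
    rw [Filter.eventually_all_finset]
    intro c _
    exact hclu n0 (a0 c) n0 (ha0 c)
  have hLs : Tendsto (fun H : ℕ => Real.log H ^ s) atTop atTop :=
    (tendsto_rpow_atTop hs0).comp tendsto_log_nat
  have hNt : Tendsto (fun H : ℕ => ⌊Real.log H ^ s / 3⌋₊) atTop atTop := by
    refine tendsto_nat_floor_atTop.comp ?_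
    exact hLs.atTop_div_const (by norm_num)
  have e1 : ∀ᶠ H : ℕ in atTop, Real.log H ^ (2 * b + 2) / Real.sqrt H ≤ 1 :=
    (log_pow_div_tendsto (2 * b + 2)).eventually_le_const (by norm_num)
  have e2 : ∀ᶠ H : ℕ in atTop, Real.log (Real.log H) / Real.log H ≤ 1 / (D1 + 1) :=
    log_log_div_tendsto.eventually_le_const (by positivity)
  have e3 : Tendsto (fun H : ℕ => 12 * M * Real.log H ^ (-γ)) atTop (𝓝 0) := by
    have h1 : Tendsto (fun H : ℕ => Real.log H ^ (-γ)) atTop (𝓝 0) :=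
      (tendsto_rpow_neg_atTop hγ0).comp tendsto_log_nat
    have := h1.const_mul (12 * M)
    rwa [mul_zero] at this
  have e4 : ∀ᶠ H : ℕ in atTop, 12 * M * Real.log H ^ (-γ) < 1 / 2 :=
    e3.eventually_lt_const (by norm_num)
  have e5 : ∀ᶠ H : ℕ in atTop, 12 * M * Real.log H ^ (-γ) ≤ ε / (64 * (g:ℝ) ^ 2 * (g + 1)) :=
    e3.eventually_le_const (by positivity)
  filter_upwards [hNt.eventually hall, e1, e2, sw_uniform D1 (2 * b + 3), e4, e5,
    hLs.eventually_ge_atTop 12, hNt.eventually_ge_atTop 3,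
    tendsto_log_nat.eventually_ge_atTop (9 + 4 * g + 32 * (g:ℝ) ^ 2 * (16 * g + 8) / ε),
    eventually_ge_atTop 2, tendsto_natCast_atTop_atTop.eventually_ge_atTop (16 * (g:ℝ) / ε)]
    with H hN h1 h2 hsw h4 h5 hT12 hN3 hLbig hH2 hHbig Q hIV hQ
  set L := Real.log H with hLdef
  set T := L ^ s with hT
  set N := ⌊T / 3⌋₊ with hNdef
  have hgr : (1:ℝ) ≤ g := by exact_mod_cast hg0
  have hpos1 : 0 ≤ 32 * (g:ℝ) ^ 2 * (16 * g + 8) / ε := by positivity
  have hL9 : 9 + 4 * (g:ℝ) ≤ L := by linarith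
  have hL1 : 1 ≤ L := by linarith
  have hL0 : 0 < L := by linarith
  have hH0 : (0:ℝ) < H := by exact_mod_cast (by omega : 0 < H)
  have hH1 : (1:ℝ) ≤ H := by exact_mod_cast (by omega : 1 ≤ H)
  have hsq1 : 1 ≤ Real.sqrt H := by
    rw [show (1:ℝ) = Real.sqrt 1 by simp]; exact Real.sqrt_le_sqrt hH1
  have hT0 : 0 < T := by linarith
  have hN1 : T / 6 ≤ N := by
    have h3 := Nat.lt_floor_add_one (T / 3)
    have h6 : T / 3 < (N:ℝ) + 1 := h3
    linarith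
  have hN2 : 3 * (N:ℝ) ≤ T := by
    have h3 : (N:ℝ) ≤ T / 3 := Nat.floor_le (by positivity)
    linarith
  have hNpos : 1 ≤ N := by omega
  have hNr0 : (0:ℝ) < N := by exact_mod_cast hNpos
  -- comparison of real and natural exponents
  have hTsn : T ≤ L ^ sn := by
    rw [hT, ← Real.rpow_natCast]
    exact Real.rpow_le_rpow_of_exponent_le hL1 (Nat.le_ceil s)
  set N' := (3 * N) ^ C0 with hN'
  have hN'b : (N':ℝ) ≤ L ^ b := by
    rw [hN', hb, pow_mul]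
    push_cast
    exact pow_le_pow_left₀ (by positivity) (hN2.trans hTsn) C0
  have hHL : L ^ (2 * b + 2) ≤ H := by
    rw [div_le_one (by linarith)] at h1
    refine h1.trans ?_
    have h3 : Real.sqrt H * Real.sqrt H = H := Real.mul_self_sqrt hH0.le
    have h6 := mul_le_mul_of_nonneg_right hsq1 (Real.sqrt_nonneg H)
    linarith only [h3, h6]
  set X := XB D1 H with hX
  have hXH : H ≤ X := le_XB hL1
  have hXle : (X:ℝ) ≤ H * L ^ D1 := XB_le D1 H
  have hX0 : (0:ℝ) < X := lt_of_lt_of_le hH0 (by exact_mod_cast hXH)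
  have hlX : Real.log X ≤ 2 * L := by
    have h3 : Real.log X ≤ Real.log (H * L ^ D1) := Real.log_le_log hX0 hXle
    rw [Real.log_mul hH0.ne' (by positivity), Real.log_pow] at h3
    have h6 : (D1:ℝ) * Real.log L ≤ L := by
      rw [div_le_div_iff₀ hL0 (by positivity)] at h2
      rcases le_total 0 (Real.log L) with h5 | h5
      · linarith only [h2, h5]
      · have : (D1:ℝ) * Real.log L ≤ 0 := mul_nonpos_of_nonneg_of_nonpos (Nat.cast_nonneg _) h5
        linarith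
    linarith
  have hlX0 : 0 ≤ Real.log X := Real.log_natCast_nonneg X
  set K := H / g - 1 with hK
  have hgK : g * K ≤ H := (Nat.mul_le_mul_left g (Nat.sub_le _ _)).trans (Nat.mul_div_le H g)
  have hgKr : (g:ℝ) * K ≤ H := by exact_mod_cast hgK
  have hKH : (K:ℝ) ≤ H := (le_mul_of_one_le_left (Nat.cast_nonneg K) hgr).trans hgKr
  set E := (H:ℝ) / L ^ (2 * b + 3) with hE
  have hE0 : 0 ≤ E := by positivity
  have h3N : 3 * N ≤ ⌊T⌋₊ := by
    refine Nat.le_floor ?_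
    push_cast
    exact hN2
  -- sup norm
  set η := M * (N:ℝ) ^ (-1 + ρ : ℝ) with hη
  have hη0 : 0 ≤ η := by positivity
  have hNη : (N:ℝ) ^ (-1 + ρ : ℝ) ≤ 6 * L ^ (-s + γ) := by
    have h6 : (N:ℝ) ^ (-1 + ρ : ℝ) ≤ (T / 6) ^ (-1 + ρ : ℝ) :=
      Real.rpow_le_rpow_of_nonpos (by positivity) hN1 (by linarith)
    refine h6.trans ?_
    rw [Real.div_rpow hT0.le (by norm_num)]
    have h7 : (6:ℝ) ^ (-1 + ρ : ℝ) = (6 ^ (1 - ρ : ℝ))⁻¹ := by
      rw [← Real.rpow_neg (by norm_num)]; congr 1; ring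
    have h8 : (6:ℝ) ^ (1 - ρ : ℝ) ≤ 6 := by
      calc (6:ℝ) ^ (1 - ρ : ℝ) ≤ (6:ℝ) ^ (1:ℝ) :=
            Real.rpow_le_rpow_of_exponent_le (by norm_num) (by linarith)
        _ = 6 := Real.rpow_one 6
    have h9 : T ^ (-1 + ρ : ℝ) ≤ L ^ (-s + γ) := by
      rw [hT, ← Real.rpow_mul hL0.le]
      exact Real.rpow_le_rpow_of_exponent_le hL1 (by linarith)
    rw [h7, div_inv_eq_mul, mul_comm]
    exact mul_le_mul h8 h9 (by positivity) (by norm_num)
  have hlXη : η * Real.log X ≤ 12 * M * L ^ (-γ) := by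
    have h6 : L ^ (-s + γ) * L = L ^ (1 - s + γ) := by
      nth_rewrite 2 [← Real.rpow_one L]
      rw [← Real.rpow_add hL0]
      congr 1
      ring
    calc η * Real.log X ≤ (M * (6 * L ^ (-s + γ))) * (2 * L) := by rw [hη]; gcongr
      _ = 12 * M * (L ^ (-s + γ) * L) := by ring
      _ = 12 * M * L ^ (1 - s + γ) := by rw [h6]
      _ ≤ 12 * M * L ^ (-γ) := by
          refine mul_le_mul_of_nonneg_left ?_ (by positivity)
          refine Real.rpow_le_rpow_of_exponent_le hL1 ?_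
          have h6 : min δ (s - 1) ≤ s - 1 := min_le_right _ _
          rw [hγ]
          linarith
  have hBd : L ^ (s - 1 - δ) * (η * Real.log X) < 1 / 2 := by
    refine lt_of_le_of_lt ?_ h4
    have h6 : L ^ (s - 1 - δ) * (L ^ (-s + γ) * L) = L ^ (-δ + γ) := by
      nth_rewrite 3 [← Real.rpow_one L]
      rw [← Real.rpow_add hL0, ← Real.rpow_add hL0]
      congr 1
      ring
    calc L ^ (s - 1 - δ) * (η * Real.log X) ≤
          L ^ (s - 1 - δ) * ((M * (6 * L ^ (-s + γ))) * (2 * L)) := by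
          rw [hη]; gcongr
      _ = 12 * M * (L ^ (s - 1 - δ) * (L ^ (-s + γ) * L)) := by ring
      _ = 12 * M * L ^ (-δ + γ) := by rw [h6]
      _ ≤ 12 * M * L ^ (-γ) := by
          refine mul_le_mul_of_nonneg_left ?_ (by positivity)
          refine Real.rpow_le_rpow_of_exponent_le hL1 ?_
          have h6 : min δ (s - 1) ≤ δ := min_le_left _ _
          rw [hγ]
          linarith
  have hSW : SWH X (2 * g * N') E := by
    intro x hx q hq hqY a ha
    refine hsw x ?_ q hq ?_ a ha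
    · exact le_trans (by exact_mod_cast hx) hXle
    · have h3 : (q:ℝ) ≤ 2 * g * N' := by exact_mod_cast hqY
      refine h3.trans ?_
      calc 2 * (g:ℝ) * N' ≤ 2 * g * L ^ b := by gcongr
        _ ≤ L * L ^ b := by gcongr; linarith
        _ = L ^ (b + 1) := by ring
        _ ≤ L ^ D1 := pow_le_pow_right₀ hL1 (by omega)
  -- each class
  have hclass : ∀ α ∈ range g, ∀ β ∈ range g, (((Ioc 0 K ×ˢ Ioc 0 K).filter
      (fun t => (((Icc 1 ⌊T⌋₊).filter
        (fun n => n0 ≤ n ∧ (pr n + 2 * (Q n + (α + g * t.2) * R n + (β + g * t.1))).Prime)).card : ℝ) <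
          L ^ (s - 1 - δ))).card : ℝ) ≤ 4 * (K:ℝ) ^ 2 * (ε / 8) +
          4 * (2 * (g + 1) * (12 * M * L ^ (-γ)) * (H:ℝ) ^ 2 + (16 * g + 8) * ((H:ℝ) ^ 2 / L)) := by
    intro α hα β hβ
    rw [mem_range] at hα hβ
    set c := (Q n0 + β + α * R n0) % g with hc
    obtain ⟨ν, hν0, hνs, hν1, hνM, hνc⟩ := hN c (mem_range.2 (Nat.mod_lt _ hg0))
    have hcop : (a0 c + 2 * (Q n0 + β + α * R n0)).Coprime g := by
      have h3 : a0 c + 2 * (Q n0 + β + α * R n0) ≡ a0 c + 2 * c [MOD g] :=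
        Nat.ModEq.add_left _ ((Nat.mod_modEq _ _).symm.mul_left 2)
      exact (Nat.ModEq.gcd_eq h3).trans (ha0' c)
    have hXX : ∀ n, n0 ≤ n → n ≤ 3 * N → pr n ≤ 3 * N →
        pr n + 2 * (Q n + β + α * R n) + 2 * g * (K + K * R n) ≤ X := by
      intro n hnn0 hn hpn
      rw [hX]
      unfold XB
      refine Nat.le_floor ?_
      have hnr : (n:ℝ) ≤ T := by
        have : (n:ℝ) ≤ 3 * N := by exact_mod_cast hn
        linarith
      have hpr : (pr n:ℝ) ≤ L ^ sn := by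
        have : (pr n:ℝ) ≤ 3 * N := by exact_mod_cast hpn
        linarith
      have hRn : (R n:ℝ) ≤ L ^ b := by
        have h3 : R n ≤ N' := (hR.le n hnn0).trans (Nat.pow_le_pow_left hn C0)
        exact le_trans (by exact_mod_cast h3) hN'b
      have hQn : (Q n : ℝ) ≤ H * L ^ D0 := hQ n hnr
      have hαr : (α:ℝ) ≤ g := by exact_mod_cast hα.le
      have hβr : (β:ℝ) ≤ g := by exact_mod_cast hβ.le
      set m := L ^ (D0 + b + sn) with hm
      have hm1 : 1 ≤ m := one_le_pow₀ hL1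
      have hm2 : L ^ sn ≤ m := pow_le_pow_right₀ hL1 (by omega)
      have hm3 : L ^ D0 ≤ m := pow_le_pow_right₀ hL1 (by omega)
      have hm4 : L ^ b ≤ m := pow_le_pow_right₀ hL1 (by omega)
      have hHm : m ≤ H * m := le_mul_of_one_le_left (by linarith) hH1
      push_cast
      calc (pr n:ℝ) + 2 * (Q n + β + α * R n) + 2 * g * (K + K * R n) =
            pr n + 2 * Q n + 2 * β + 2 * α * R n + 2 * (g * K) * (1 + R n) := by ring
        _ ≤ m + 2 * (H * m) + 2 * g * m + 2 * g * m + 2 * H * (m + m) := by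
            have h4 : (1:ℝ) + R n ≤ m + m := by linarith
            have h5 : (R n:ℝ) ≤ m := by linarith
            have h6 : (Q n : ℝ) ≤ H * m := hQn.trans (by gcongr)
            have h7 : (β:ℝ) ≤ g * m := hβr.trans (le_mul_of_one_le_right (Nat.cast_nonneg g) hm1)
            have h8 : (pr n:ℝ) ≤ m := by linarith
            have h9 : 2 * (α:ℝ) * R n ≤ 2 * g * m := by gcongr
            have h10 : 2 * ((g:ℝ) * K) * (1 + R n) ≤ 2 * H * (m + m) := by gcongr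
            linarith only [h6, h7, h8, h9, h10]
        _ ≤ (7 + 4 * g) * (H * m) := by
            have h4 := mul_le_mul_of_nonneg_left hHm (Nat.cast_nonneg (α := ℝ) g)
            linarith only [h4, hHm]
        _ ≤ L * (H * m) := by gcongr; linarith
        _ = H * L ^ (D0 + b + sn + 1) := by rw [hm]; ring
        _ ≤ H * L ^ D1 := by
            refine mul_le_mul_of_nonneg_left ?_ hH0.le
            exact pow_le_pow_right₀ hL1 (by omega)
    have hN1' : (3 * N) ^ C0 ≤ N ^ (2 * C0) := by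
      rw [pow_mul]
      refine Nat.pow_le_pow_left ?_ C0
      rw [sq]
      exact Nat.mul_le_mul_right N hN3
    have h3 := class_bad2 (α := α) (β := β) (N' := N') hIV hR hΔ hg0 hg2 hgz hgΔ hcop hNpos le_rfl
      hN1' hE0 hη0 hSW hν0 hνs hν1 hνM (ε := ε / 8) (by positivity) hνc hXX hBd
    have h6 := err_le2 (g := g) (K := K) (b := b) (N' := (N':ℝ)) (E := E) hL1 hH0
      (show 0 ≤ η * Real.log X by positivity) hlX0 hlX (Nat.cast_nonneg _) hN'b hKH hHL hE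
    have h7 : (Ioc 0 K ×ˢ Ioc 0 K).filter
      (fun t => (((Icc 1 ⌊T⌋₊).filter
        (fun n => n0 ≤ n ∧ (pr n + 2 * (Q n + (α + g * t.2) * R n + (β + g * t.1))).Prime)).card : ℝ) <
          L ^ (s - 1 - δ)) ⊆ (Ioc 0 K ×ˢ Ioc 0 K).filter (fun t => (((Icc 1 (3 * N)).filter
          (fun n => n0 ≤ n ∧ (pr n + 2 * (Q n + β + α * R n) +
            2 * g * (t.1 + t.2 * R n)).Prime)).card : ℝ) < L ^ (s - 1 - δ)) := by
      intro t ht
      rw [mem_filter] at ht ⊢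
      refine ⟨ht.1, lt_of_le_of_lt ?_ ht.2⟩
      have : (Icc 1 (3 * N)).filter (fun n => n0 ≤ n ∧
          (pr n + 2 * (Q n + β + α * R n) + 2 * g * (t.1 + t.2 * R n)).Prime) ⊆
          (Icc 1 ⌊T⌋₊).filter
        (fun n => n0 ≤ n ∧ (pr n + 2 * (Q n + (α + g * t.2) * R n + (β + g * t.1))).Prime) := by
        intro n hn
        rw [mem_filter, mem_Icc] at hn ⊢
        refine ⟨⟨hn.1.1, hn.1.2.trans h3N⟩, hn.2.1, ?_⟩
        have h6 : pr n + 2 * (Q n + (α + g * t.2) * R n + (β + g * t.1)) =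
            pr n + 2 * (Q n + β + α * R n) + 2 * g * (t.1 + t.2 * R n) := by
          ring
        rw [h6]
        exact hn.2.2
      exact_mod_cast card_le_card this
    have h8 : ((((Ioc 0 K ×ˢ Ioc 0 K).filter
      (fun t => (((Icc 1 ⌊T⌋₊).filter
        (fun n => n0 ≤ n ∧ (pr n + 2 * (Q n + (α + g * t.2) * R n + (β + g * t.1))).Prime)).card : ℝ) <
          L ^ (s - 1 - δ))).card : ℕ) : ℝ) ≤ (((Ioc 0 K ×ˢ Ioc 0 K).filter
          (fun t => (((Icc 1 (3 * N)).filter (fun n => n0 ≤ n ∧ (pr n + 2 * (Q n + β + α * R n) +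
            2 * g * (t.1 + t.2 * R n)).Prime)).card : ℝ) < L ^ (s - 1 - δ))).card : ℝ) := by
      exact_mod_cast card_le_card h7
    refine h8.trans (h3.trans ?_)
    have h9 : 2 * ((g:ℝ) + 1) * (η * Real.log X) * (H:ℝ) ^ 2 ≤
        2 * (g + 1) * (12 * M * L ^ (-γ)) * (H:ℝ) ^ 2 := by gcongr
    linarith
  have hcc := count_classes g H hg0 (fun a b => (((Icc 1 ⌊T⌋₊).filter
        (fun n => n0 ≤ n ∧ (pr n + 2 * (Q n + a * R n + b)).Prime)).card : ℝ) < L ^ (s - 1 - δ))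
  have hcc' : (((Ioc 0 H ×ˢ Ioc 0 H).filter (fun v => (((Icc 1 ⌊T⌋₊).filter
        (fun n => n0 ≤ n ∧ (pr n + 2 * (Q n + v.1 * R n + v.2)).Prime)).card : ℝ) <
          L ^ (s - 1 - δ))).card : ℝ) ≤ ∑ α ∈ range g, ∑ β ∈ range g, (((Ioc 0 K ×ˢ Ioc 0 K).filter
      (fun t => (((Icc 1 ⌊T⌋₊).filter
        (fun n => n0 ≤ n ∧ (pr n + 2 * (Q n + (α + g * t.2) * R n + (β + g * t.1))).Prime)).card : ℝ) <
          L ^ (s - 1 - δ))).card : ℝ) + 4 * g * H := by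
    exact_mod_cast hcc
  refine hcc'.trans ?_
  set Θ := 12 * M * L ^ (-γ) with hΘ
  have hΘ0 : 0 ≤ Θ := by positivity
  calc _ ≤ ∑ _α ∈ range g, ∑ _β ∈ range g,
        (4 * (K:ℝ) ^ 2 * (ε / 8) +
          4 * (2 * (g + 1) * Θ * (H:ℝ) ^ 2 + (16 * g + 8) * ((H:ℝ) ^ 2 / L))) + 4 * (g:ℝ) * H := by
        refine add_le_add (sum_le_sum fun α hα => sum_le_sum fun β hβ => hclass α hα β hβ) le_rfl
    _ = ((g:ℝ) * K) ^ 2 * (ε / 2) + (8 * (g:ℝ) ^ 2 * (g + 1) * Θ) * (H:ℝ) ^ 2 +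
          4 * (g:ℝ) ^ 2 * (16 * g + 8) / L * (H:ℝ) ^ 2 + 4 * (g:ℝ) * H := by
        rw [sum_const, sum_const, card_range]
        simp only [nsmul_eq_mul]
        ring
    _ ≤ (H:ℝ) ^ 2 * (ε / 2) + ε / 8 * (H:ℝ) ^ 2 + ε / 8 * (H:ℝ) ^ 2 + ε / 4 * (H:ℝ) ^ 2 := by
        refine add_le_add (add_le_add (add_le_add ?_ ?_) ?_) ?_
        · have : ((g:ℝ) * K) ^ 2 ≤ (H:ℝ) ^ 2 := pow_le_pow_left₀ (by positivity) hgKr 2
          gcongr
        · refine mul_le_mul_of_nonneg_right ?_ (by positivity)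
          have h3 : 8 * (g:ℝ) ^ 2 * (g + 1) * Θ ≤
              8 * (g:ℝ) ^ 2 * (g + 1) * (ε / (64 * (g:ℝ) ^ 2 * (g + 1))) := by gcongr
          have h6 : 8 * (g:ℝ) ^ 2 * (g + 1) * (ε / (64 * (g:ℝ) ^ 2 * (g + 1))) = ε / 8 := by
            have : (g:ℝ) ≠ 0 := by linarith
            field_simp
            ring
          linarith
        · refine mul_le_mul_of_nonneg_right ?_ (by positivity)
          rw [div_le_iff₀ hL0]
          have h3 : 32 * (g:ℝ) ^ 2 * (16 * g + 8) / ε ≤ L := by linarith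
          rw [div_le_iff₀ hε] at h3
          linarith
        · rw [div_le_iff₀ hε] at hHbig
          have h3 := mul_le_mul_of_nonneg_right hHbig hH0.le
          linarith only [h3]
    _ = ε * (H:ℝ) ^ 2 := by ring

end Pool.Agent.PnMaynard2
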