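import Pool.Agent.PnMaynard2.Measure
import Pool.Agent.PnMaynard.MainSeq

/-!
# The exceptional set in one class, for a general direction `R`
-/

open Finset Filter

namespace Pool.Agent.PnMaynard2

open Pool.Agent.PnPoly Pool.Agent.Maynard Pool.Agent.PnMaynard

/-- Hypotheses on the direction `R`: compatible with congruences up to `Δ`, increasing, of
polynomial growth, and at most `d` to one modulo the primes above `z0`. -/
structure Dir (Δ n0 z0 d C0 : ℕ) (R : ℕ → ℕ) : Prop where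
  iv : IV Δ n0 R
  mono : ∀ m n, n0 ≤ m → m < n → R m < R n
  pos : ∀ n, n0 ≤ n → 1 ≤ R n
  le : ∀ n, n0 ≤ n → R n ≤ n ^ C0
  pre : ∀ l, l.Prime → z0 < l → ∀ v, ∃ S : Finset ℕ, S.card ≤ d ∧
    ∀ n, n0 ≤ n → R n ≡ v [MOD l] → ∃ s ∈ S, n ≡ s [MOD l]

lemma Dir.inj {Δ n0 z0 d C0 : ℕ} {R : ℕ → ℕ} (hR : Dir Δ n0 z0 d C0 R) {m n : ℕ} (hm : n0 ≤ m)
    (hn : n0 ≤ n) (h : R m = R n) : m = n := by
  rcases lt_trichotomy m n with h1 | h1 | h1
  · have := hR.mono m n hm h1; omega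
  · exact h1
  · have := hR.mono n m hn h1; omega

lemma IV.prime {Δ n0 : ℕ} {Q : ℕ → ℕ} (hIV : IV Δ n0 Q) {l : ℕ} (hl : l.Prime) (hlΔ : ¬ l ∣ Δ)
    {n m : ℕ} (hn : n0 ≤ n) (hm : n0 ≤ m) (h : n ≡ m [MOD l]) : Q n ≡ Q m [MOD l] := by
  have h2 := hIV l n m hn hm h
  refine Nat.ModEq.cancel_left_of_coprime ?_ h2
  rw [← Nat.Coprime]
  exact hl.coprime_iff_not_dvd.2 hlΔ

/-- The exceptional set in a class modulo `g`. -/
lemma class_bad2 {Δ n0 z0 d C0 C1 g N N' K X : ℕ} {E η : ℝ} {Q R : ℕ → ℕ} (hIV : IV Δ n0 Q)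
    (hR : Dir Δ n0 z0 d C0 R) (hΔ : 1 ≤ Δ) (hg0 : 1 ≤ g) (hg2 : 2 ∣ g)
    (hgz : ∀ l, l.Prime → l ≤ z0 → l ∣ g) (hgΔ : ∀ l, l.Prime → l ∣ Δ → l ∣ g) {α β a0 : ℕ}
    (ha0' : (a0 + 2 * (Q n0 + β + α * R n0)).Coprime g) (hN : 1 ≤ N) (hN' : (3 * N) ^ C0 ≤ N')
    (hN1 : (3 * N) ^ C0 ≤ N ^ C1) (hE : 0 ≤ E) (hη0 : 0 ≤ η)
    (hSW : SWH X (2 * g * N') E) {ν : ℕ → ℝ} (hν0 : ∀ n, 0 ≤ ν n)
    (hν : ∀ n, ν n ≠ 0 → ((1 ≤ n ∧ n ≤ 3 * N) ∧ pr n ≤ 3 * N) ∧ n0 ≤ n ∧ n ≡ n0 [MOD g * Δ] ∧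
      pr n ≡ a0 [MOD g])
    (hν1 : ∑ n ∈ Icc 1 (3 * N), ν n = 1) (hνM : ∀ n, ν n ≤ η)
    {ε : ℝ} (hε : 0 ≤ ε)
    (hcorr : ∀ Lf : ℕ → ℕ → Finset ℕ, (∀ m n, ∀ l ∈ Lf m n, l.Prime ∧ ¬ l ∣ g) →
          (∀ m n, ∏ l ∈ Lf m n, l ≤ N ^ C1) →
          (∀ m l, l.Prime → ¬ l ∣ g → ∃ S : Finset ℕ, S.card ≤ d ∧
            ∀ n, l ∈ Lf m n → ∃ s ∈ S, pr n ≡ s [MOD l]) →
          ∑ m ∈ Icc 1 (3 * N), ∑ n ∈ Icc 1 (3 * N), ν m * ν n * (if m = n then 0 else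
            ∏ l ∈ Lf m n, ((l:ℝ) / ((l:ℝ) - 1))) ≤ 1 + ε)
    (hX : ∀ n, n0 ≤ n → n ≤ 3 * N → pr n ≤ 3 * N →
      pr n + 2 * (Q n + β + α * R n) + 2 * g * (K + K * R n) ≤ X)
    {Bd : ℝ} (hBd : Bd * (η * Real.log X) < 1 / 2) :
    (((Ioc 0 K ×ˢ Ioc 0 K).filter (fun t => (((Icc 1 (3 * N)).filter (fun n => n0 ≤ n ∧
      (pr n + 2 * (Q n + β + α * R n) + 2 * g * (t.1 + t.2 * R n)).Prime)).card : ℝ) < Bd)).card : ℝ)
      ≤ 4 * (K:ℝ) ^ 2 * ε + 4 *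
      (η * Real.log X * (K * (2 * g * K + 2 * E)) +
        (2 * g * N' ^ 2 * K * (2 * E + Real.log X) + 2 * E * (K * (1 + N')) * Real.log X) +
        4 * (2 * g) * E * K) := by
  classical
  set B : ℕ → ℕ := fun n => pr n + 2 * (Q n + β + α * R n) with hB
  set G := 2 * g with hG
  set I := (Icc 1 (3 * N)).filter (fun n => ν n ≠ 0) with hI
  have hG1 : 1 ≤ G := by omega
  have hGr : (G:ℝ) = 2 * g := by rw [hG]; push_cast; ring
  set κ := (G:ℝ) / G.totient with hκ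
  have htot : (1:ℝ) ≤ G.totient := by exact_mod_cast Nat.totient_pos.2 hG1
  have hG0 : (0:ℝ) < G := by exact_mod_cast hG1
  have hκ1 : 1 ≤ κ := by
    rw [hκ, le_div_iff₀ (by linarith), one_mul]
    exact_mod_cast Nat.totient_le G
  have hκG : κ ≤ G := by
    rw [hκ, div_le_iff₀ (by linarith)]
    nlinarith
  have hlogX : 0 ≤ Real.log X := Real.log_natCast_nonneg X
  have hIn0 : ∀ n ∈ I, n0 ≤ n := fun n hn => (hν n (mem_filter.1 hn).2).2.1
  have hIR : ∀ n ∈ I, 1 ≤ R n ∧ R n ≤ (3 * N) ^ C0 := by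
    intro n hn
    have h1 := hIn0 n hn
    have h2 := hν n (mem_filter.1 hn).2
    exact ⟨hR.pos n h1, (hR.le n h1).trans (Nat.pow_le_pow_left h2.1.1.2 C0)⟩
  have hinj : Set.InjOn R (I : Set ℕ) := fun m hm n hn h =>
    hR.inj (hIn0 m hm) (hIn0 n hn) h
  set φ : ℕ → ℕ := Function.invFunOn R (I : Set ℕ) with hφ
  have hφR : ∀ n ∈ I, φ (R n) = n := fun n hn => hinj.leftInvOn_invFunOn (mem_coe.2 hn)
  set J := I.image R with hJ
  set B' : ℕ → ℕ := fun s => B (φ s) with hB'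
  set ν' : ℕ → ℝ := fun s => ν (φ s) with hν'
  have hvv : ∀ t0 t1 : ℕ, ∀ n ∈ I, vv B' G t0 t1 (R n) = B n + G * (t0 + t1 * R n) := by
    intro t0 t1 n hn
    unfold vv
    simp only [hB']
    rw [hφR n hn]
  have hXJ : ∀ s ∈ J, B' s + G * (K + K * s) ≤ X := by
    intro s hs
    obtain ⟨n, hn, rfl⟩ := mem_image.1 hs
    simp only [hB']
    rw [hφR n hn]
    have h1 := hν n (mem_filter.1 hn).2
    exact hX n (hIn0 n hn) h1.1.1.2 h1.1.2
  have hBJ : ∀ s ∈ J, (B' s).Coprime G := by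
    intro s hs
    obtain ⟨n, hn, rfl⟩ := mem_image.1 hs
    simp only [hB']
    rw [hφR n hn]
    obtain ⟨-, h1, h2, h3⟩ := hν n (mem_filter.1 hn).2
    have hcg : ∀ Q : ℕ → ℕ, IV Δ n0 Q → Q n ≡ Q n0 [MOD g] := by
      intro Q hIV
      have h5 := hIV (g * Δ) n n0 h1 le_rfl h2
      rw [mul_comm g Δ] at h5
      exact Nat.ModEq.mul_left_cancel' (by omega) h5
    have h4 := hcg Q hIV
    have h5 := hcg R hR.iv
    have h6 : B n ≡ a0 + 2 * (Q n0 + β + α * R n0) [MOD g] := by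
      simp only [hB]
      exact h3.add (((h4.add_right β).add (h5.mul_left α)).mul_left 2)
    have h7 : (B n).Coprime g := (Nat.ModEq.gcd_eq h6).trans ha0'
    have h8 : (B n).Coprime 2 := h7.coprime_dvd_right hg2
    exact Nat.Coprime.mul_right h8 h7
  have hIsub : I ⊆ Icc 1 (3 * N) := filter_subset _ _
  have hI1 : ∑ n ∈ I, ν n = 1 := by
    rw [hI, sum_filter_ne_zero]
    exact hν1
  have hJ1 : ∑ s ∈ J, ν' s = 1 := by
    rw [hJ, sum_image hinj, ← hI1]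
    refine sum_congr rfl fun n hn => ?_
    simp only [hν']
    rw [hφR n hn]
  -- the collision primes
  set Lf : ℕ → ℕ → Finset ℕ := fun m n => if m ∈ I ∧ n ∈ I ∧ m ≠ n then
    (dd (R n) (R m)).primeFactors.filter (fun l => ¬ l ∣ g ∧ B n ≡ B m [MOD l]) else ∅ with hLf
  have hLmem : ∀ m n l, l ∈ Lf m n → m ∈ I ∧ n ∈ I ∧ m ≠ n ∧ l.Prime ∧ l ∣ dd (R n) (R m) ∧
      ¬ l ∣ g ∧ B n ≡ B m [MOD l] := by
    intro m n l hl
    simp only [hLf] at hl
    split_ifs at hl with hc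
    · rw [mem_filter] at hl
      exact ⟨hc.1, hc.2.1, hc.2.2, Nat.prime_of_mem_primeFactors hl.1,
        Nat.dvd_of_mem_primeFactors hl.1, hl.2.1, hl.2.2⟩
    · simp at hl
  have hc1 : ∀ m n, ∀ l ∈ Lf m n, l.Prime ∧ ¬ l ∣ g := fun m n l hl =>
    ⟨(hLmem m n l hl).2.2.2.1, (hLmem m n l hl).2.2.2.2.2.1⟩
  have hc2 : ∀ m n, ∏ l ∈ Lf m n, l ≤ N ^ C1 := by
    intro m n
    simp only [hLf]
    split_ifs with hc
    · obtain ⟨hm, hn, hmn⟩ := hc
      have hne : R n ≠ R m := fun h => hmn (hinj hm hn h.symm)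
      calc ∏ l ∈ (dd (R n) (R m)).primeFactors.filter (fun l => ¬ l ∣ g ∧ B n ≡ B m [MOD l]), l
          ≤ ∏ l ∈ (dd (R n) (R m)).primeFactors, l :=
            prod_le_prod_of_subset_of_one_le' (filter_subset _ _) fun l hl _ =>
              (Nat.prime_of_mem_primeFactors hl).one_lt.le
        _ ≤ dd (R n) (R m) := Nat.le_of_dvd (dd_pos hne) (Nat.prod_primeFactors_dvd _)
        _ ≤ (3 * N) ^ C0 := dd_le (hIR n hn).2 (hIR m hm).2
        _ ≤ N ^ C1 := hN1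
    · rw [prod_empty]
      exact Nat.one_le_pow _ _ (by omega)
  have hc3 : ∀ m l, l.Prime → ¬ l ∣ g → ∃ S : Finset ℕ, S.card ≤ d ∧
      ∀ n, l ∈ Lf m n → ∃ s ∈ S, pr n ≡ s [MOD l] := by
    intro m l hl hlg
    have hlz : z0 < l := by
      by_contra hle
      push Not at hle
      exact hlg (hgz l hl hle)
    have hlΔ : ¬ l ∣ Δ := fun h => hlg (hgΔ l hl h)
    obtain ⟨S, hSc, hS⟩ := hR.pre l hl hlz (R m)
    refine ⟨S.image (fun s => B m + (l - 1) * (2 * (Q (s + l * n0) + β + α * R (s + l * n0)))),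
      card_image_le.trans hSc, fun n hn => ?_⟩
    obtain ⟨hmI, hnI, -, -, hd, -, hBB⟩ := hLmem m n l hn
    have hn0 := hIn0 n hnI
    obtain ⟨s, hs, hns⟩ := hS n hn0 (dvd_dd.1 hd)
    refine ⟨_, mem_image_of_mem _ hs, ?_⟩
    set n1 := s + l * n0 with hn1
    have hn1n0 : n0 ≤ n1 := by
      have : 1 * n0 ≤ l * n0 := Nat.mul_le_mul_right n0 hl.one_lt.le
      omega
    have hnn1 : n ≡ n1 [MOD l] := by
      refine hns.trans ?_
      rw [hn1]
      have : l * n0 ≡ 0 [MOD l] := Nat.modEq_zero_iff_dvd.2 (dvd_mul_right _ _)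
      simpa using (this.add_left s).symm
    have hQ := IV.prime hIV hl hlΔ hn0 hn1n0 hnn1
    have hRR := IV.prime hR.iv hl hlΔ hn0 hn1n0 hnn1
    have h1 : 2 * (Q n + β + α * R n) ≡ 2 * (Q n1 + β + α * R n1) [MOD l] :=
      (((hQ.add_right β).add (hRR.mul_left α))).mul_left 2
    have h2 : B n + (l - 1) * (2 * (Q n1 + β + α * R n1)) ≡
        B m + (l - 1) * (2 * (Q n1 + β + α * R n1)) [MOD l] := hBB.add_right _
    refine Nat.ModEq.trans ?_ h2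
    have h3 : B n ≡ pr n + 2 * (Q n1 + β + α * R n1) [MOD l] := h1.add_left (pr n)
    have h4 : B n + (l - 1) * (2 * (Q n1 + β + α * R n1)) ≡
        pr n + 2 * (Q n1 + β + α * R n1) + (l - 1) * (2 * (Q n1 + β + α * R n1)) [MOD l] :=
      h3.add_right _
    refine Nat.ModEq.trans ?_ h4.symm
    have h5 : pr n + 2 * (Q n1 + β + α * R n1) + (l - 1) * (2 * (Q n1 + β + α * R n1)) =
        pr n + l * (2 * (Q n1 + β + α * R n1)) := by
      obtain ⟨l', rfl⟩ : ∃ l', l = l' + 1 := ⟨l - 1, by have := hl.pos; omega⟩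
      simp only [Nat.add_sub_cancel]
      ring
    rw [h5]
    exact (Nat.modEq_iff_dvd' (by omega)).2 ⟨2 * (Q n1 + β + α * R n1), by omega⟩
  have hcorr' := hcorr Lf hc1 hc2 hc3
  have hΓ : ∑ m ∈ J, ∑ n ∈ J, (if m = n then 0 else ν' m * ν' n * gs G B' m n) ≤ 1 + ε := by
    refine le_trans ?_ hcorr'
    have hnn : ∀ m n : ℕ, 0 ≤ ν m * ν n * (if m = n then 0 else
          ∏ l ∈ Lf m n, ((l:ℝ) / ((l:ℝ) - 1))) := by
      intro m n
      refine mul_nonneg (mul_nonneg (hν0 m) (hν0 n)) ?_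
      split_ifs
      · exact le_rfl
      · exact zero_le_one.trans (one_le_prod_ratio fun l hl => (hc1 m n l hl).1)
    rw [hJ, sum_image hinj]
    have h1 : ∀ m ∈ I, ∑ n ∈ I.image R, (if R m = n then 0 else ν' (R m) * ν' n * gs G B' (R m) n) ≤
        ∑ n ∈ I, ν m * ν n * (if m = n then 0 else ∏ l ∈ Lf m n, ((l:ℝ) / ((l:ℝ) - 1))) := by
      intro m hm
      rw [sum_image hinj]
      refine sum_le_sum fun n hn => ?_
      by_cases hmn : m = n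
      · rw [if_pos (by rw [hmn]), if_pos hmn, mul_zero]
      · rw [if_neg (fun h => hmn (hinj hm hn h)), if_neg hmn]
        simp only [hν']
        rw [hφR m hm, hφR n hn]
        refine mul_le_mul_of_nonneg_left ?_ (mul_nonneg (hν0 m) (hν0 n))
        unfold gs
        refine prod_mono_set ?_ fun l hl => ratio_ge_one (hc1 m n l hl).1
        intro l hl
        rw [mem_filter] at hl
        simp only [hLf]
        rw [if_pos ⟨hm, hn, hmn⟩, mem_filter]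
        refine ⟨hl.1, fun h => hl.2.1 (h.mul_left 2), ?_⟩
        have h2 := hl.2.2
        simp only [hB'] at h2
        rwa [hφR m hm, hφR n hn] at h2
    calc _ ≤ ∑ m ∈ I, ∑ n ∈ I, ν m * ν n * (if m = n then 0 else
            ∏ l ∈ Lf m n, ((l:ℝ) / ((l:ℝ) - 1))) := sum_le_sum h1
      _ ≤ ∑ m ∈ I, ∑ n ∈ Icc 1 (3 * N), ν m * ν n * (if m = n then 0 else
            ∏ l ∈ Lf m n, ((l:ℝ) / ((l:ℝ) - 1))) := sum_le_sum fun m _ =>
            sum_le_sum_of_subset_of_nonneg hIsub fun n _ _ => hnn m n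
      _ ≤ _ := sum_le_sum_of_subset_of_nonneg hIsub fun m _ _ => sum_nonneg fun n _ => hnn m n
  have hN'1 : 1 ≤ N' := le_trans (Nat.one_le_pow _ _ (by omega)) hN'
  have hbad := bad_le (K := K) (N := N') (X := X) (G := G) (E := E) (B := B') hE hSW hG1
    hN'1 (I := J) (fun s hs => by
      obtain ⟨n, hn, rfl⟩ := mem_image.1 hs
      exact ⟨(hIR n hn).1, (hIR n hn).2.trans hN'⟩) (ν := ν') (fun n _ => hν0 _) hJ1
    (η := η) (fun n _ => hνM _) hXJ hBJ hΓ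
  rw [← hκ] at hbad
  set bad1 := (Ioc 0 K ×ˢ Ioc 0 K).filter (fun t => FF B' G J ν' t < κ / 2) with hbad1
  set bad2 := (Ioc 0 K ×ˢ Ioc 0 K).filter (fun t => (((Icc 1 (3 * N)).filter (fun n => n0 ≤ n ∧
      (pr n + 2 * (Q n + β + α * R n) + G * (t.1 + t.2 * R n)).Prime)).card : ℝ) < Bd) with hbad2
  have hsub : bad2 ⊆ bad1 := by
    intro t ht
    rw [hbad2, mem_filter] at ht
    rw [hbad1, mem_filter]
    refine ⟨ht.1, ?_⟩
    rw [mem_product, mem_Ioc, mem_Ioc] at ht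
    have h1 := card_of_FF (K := K) (X := X) (G := G) (B := B') (I := J) (ν := ν') (fun n _ => hν0 _)
      (η := η) (fun n _ => hνM _) hXJ (t := t) ⟨ht.1.1.2, ht.1.2.2⟩
    have h2 : ((J.filter (fun s => (vv B' G t.1 t.2 s).Prime)).card : ℝ) ≤
        (((Icc 1 (3 * N)).filter (fun n => n0 ≤ n ∧
          (pr n + 2 * (Q n + β + α * R n) + G * (t.1 + t.2 * R n)).Prime)).card : ℝ) := by
      have : J.filter (fun s => (vv B' G t.1 t.2 s).Prime) ⊆
          ((Icc 1 (3 * N)).filter (fun n => n0 ≤ n ∧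
          (pr n + 2 * (Q n + β + α * R n) + G * (t.1 + t.2 * R n)).Prime)).image R := by
        intro s hs
        rw [mem_filter] at hs
        obtain ⟨n, hn, rfl⟩ := mem_image.1 hs.1
        refine mem_image_of_mem _ ?_
        rw [mem_filter]
        refine ⟨hIsub hn, hIn0 n hn, ?_⟩
        have h3 := hs.2
        rwa [hvv _ _ n hn] at h3
      exact_mod_cast (card_le_card this).trans card_image_le
    have h3 : ((J.filter (fun s => (vv B' G t.1 t.2 s).Prime)).card : ℝ) ≤ Bd := h2.trans ht.2.le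
    have h4 : FF B' G J ν' t ≤ Bd * (η * Real.log X) :=
      h1.trans (mul_le_mul_of_nonneg_right h3 (by positivity))
    linarith
  have hcard : (bad2.card : ℝ) ≤ bad1.card := by exact_mod_cast card_le_card hsub
  refine hcard.trans ?_
  have hκ2 : 1 ≤ κ ^ 2 := one_le_pow₀ hκ1
  have hK0 : (0:ℝ) ≤ K := Nat.cast_nonneg K
  -- bound of the error
  have herr : η * Real.log X * (K * (κ * K + 2 * E)) +
      (G * (N' : ℝ) ^ 2 * K * (2 * E + Real.log X) +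
        2 * E * (K * (1 + (N' : ℝ))) * Real.log X) + 4 * κ * E * K ≤
      η * Real.log X * (K * (2 * g * K + 2 * E)) +
        (2 * g * N' ^ 2 * K * (2 * E + Real.log X) + 2 * E * (K * (1 + N')) * Real.log X) +
        4 * (2 * g) * E * K := by
    rw [← hGr]
    gcongr
  set Err := η * Real.log X * (K * (2 * g * K + 2 * E)) +
        (2 * g * N' ^ 2 * K * (2 * E + Real.log X) + 2 * E * (K * (1 + N')) * Real.log X) +
        4 * (2 * g) * E * K with hErr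
  have hErr0 : 0 ≤ Err := by positivity
  have h1 : κ ^ 2 / 4 * (bad1.card : ℝ) ≤ κ ^ 2 * ((K:ℝ) ^ 2 * ε + Err) := by
    have h2 : Err ≤ κ ^ 2 * Err := le_mul_of_one_le_left hErr0 hκ2
    have h3 : κ ^ 2 * (K:ℝ) ^ 2 * (1 + ε - 1) = κ ^ 2 * ((K:ℝ) ^ 2 * ε) := by ring
    rw [h3] at hbad
    calc _ ≤ _ := hbad
      _ ≤ κ ^ 2 * ((K:ℝ) ^ 2 * ε) + Err := add_le_add le_rfl herr
      _ ≤ _ := by rw [mul_add]; linarith
  have h2 : (bad1.card : ℝ) / 4 ≤ (K:ℝ) ^ 2 * ε + Err := by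
    refine le_of_mul_le_mul_left ?_ (show 0 < κ ^ 2 by linarith)
    linarith
  linarith

end Pool.Agent.PnMaynard2
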