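import Pool.Agent.PnMaynard.Measure

/-!
# Collisions of residues: at most `d` classes modulo each prime
-/

open Finset Filter

namespace Pool.Agent.PnMaynard2

open Pool.Agent.PnPoly Pool.Agent.Maynard Pool.Agent.PnMaynard

lemma tail_eventually2 (C0 : ℕ) {δ : ℝ} (hδ : 0 < δ) : ∀ᶠ N : ℕ in atTop, ∀ d : ℕ, 1 ≤ d →
    d ≤ N ^ C0 → 2 ^ d.primeFactors.card / Real.sqrt ((N:ℝ) ^ (1/4 : ℝ)) ≤ δ := by
  have hC0 : (0:ℝ) < (C0:ℝ) + 1 := by positivity
  obtain ⟨C, hC, hCb⟩ := Pool.Agent.ANT.pow_omega_le (ε := 1/(16 * ((C0:ℝ) + 1))) (by positivity)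
    (c := 2) (by norm_num)
  have h1 : Tendsto (fun N : ℕ => C * (N:ℝ) ^ (-(1/16) : ℝ)) atTop (nhds 0) := by
    have h2 : Tendsto (fun N : ℕ => (N:ℝ) ^ (-(1/16) : ℝ)) atTop (nhds 0) :=
      (tendsto_rpow_neg_atTop (show (0:ℝ) < 1/16 by norm_num)).comp tendsto_natCast_atTop_atTop
    have := h2.const_mul C
    rwa [mul_zero] at this
  filter_upwards [h1.eventually_le_const hδ, eventually_ge_atTop 1] with N hN hN1 d hd1 hd2
  have hN0 : (0:ℝ) < N := by exact_mod_cast hN1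
  have hN1r : (1:ℝ) ≤ N := by exact_mod_cast hN1
  have e1 : Real.sqrt ((N:ℝ) ^ (1/4 : ℝ)) = (N:ℝ) ^ (1/8 : ℝ) := by
    rw [Real.sqrt_eq_rpow, ← Real.rpow_mul hN0.le]
    norm_num
  rw [e1]
  have h3 := hCb d (by omega)
  have h4 : (d:ℝ) ^ (1/(16 * ((C0:ℝ) + 1))) ≤ (N:ℝ) ^ (1/16 : ℝ) := by
    have h5 : (d:ℝ) ≤ (N:ℝ) ^ (C0:ℝ) := by
      rw [Real.rpow_natCast]
      exact_mod_cast hd2
    calc (d:ℝ) ^ (1/(16 * ((C0:ℝ) + 1))) ≤ ((N:ℝ) ^ (C0:ℝ)) ^ (1/(16 * ((C0:ℝ) + 1))) :=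
          Real.rpow_le_rpow (Nat.cast_nonneg d) h5 (by positivity)
      _ = (N:ℝ) ^ ((C0:ℝ) * (1/(16 * ((C0:ℝ) + 1)))) := by rw [← Real.rpow_mul hN0.le]
      _ ≤ (N:ℝ) ^ (1/16 : ℝ) := by
          refine Real.rpow_le_rpow_of_exponent_le hN1r ?_
          rw [mul_one_div, div_le_div_iff₀ (by positivity) (by norm_num)]
          linarith
  rw [div_le_iff₀ (by positivity)]
  calc (2:ℝ) ^ d.primeFactors.card ≤ C * (d:ℝ) ^ (1/(16 * ((C0:ℝ) + 1))) := h3
    _ ≤ C * (N:ℝ) ^ (1/16 : ℝ) := by gcongr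
    _ = C * (N:ℝ) ^ (-(1/16) : ℝ) * (N:ℝ) ^ (1/8 : ℝ) := by
        rw [mul_assoc C, ← Real.rpow_add hN0]
        norm_num
    _ ≤ δ * (N:ℝ) ^ (1/8 : ℝ) := by gcongr

/-- Sum over a set given by at most `d` residues modulo each prime of `P`. -/
lemma sum_classes {X : Finset ℕ} {u : ℕ → ℝ} (hu : ∀ x, 0 ≤ u x) {d : ℕ} {b : ℝ} (hb : 0 ≤ b)
    (S : ℕ → Finset ℕ) (P : Finset ℕ) (hP : ∀ l ∈ P, l.Prime) (hS : ∀ l ∈ P, (S l).card ≤ d) :
    ∀ e : ℕ, (∀ l ∈ P, ¬ l ∣ e) →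
      (∀ c, ∑ x ∈ X.filter (fun x => x ≡ c [MOD e * ∏ l ∈ P, l]), u x ≤ b) →
      ∀ c0, ∑ x ∈ X.filter (fun x => x ≡ c0 [MOD e] ∧ ∀ l ∈ P, ∃ s ∈ S l, x ≡ s [MOD l]), u x ≤
        (d:ℝ) ^ P.card * b := by
  classical
  induction P using Finset.induction_on with
  | empty =>
    intro e _ h c0
    have := h c0
    simp only [prod_empty, mul_one] at this
    simpa using this
  | insert p P hp ih =>
    intro e he h c0
    have hpp := hP p (mem_insert_self _ _)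
    have ih' := ih (fun l hl => hP l (mem_insert_of_mem hl)) (fun l hl => hS l (mem_insert_of_mem hl))
      (e * p) (fun l hl hdvd => by
        rcases ((hP l (mem_insert_of_mem hl)).dvd_mul).1 hdvd with h1 | h1
        · exact he l (mem_insert_of_mem hl) h1
        · rw [(Nat.prime_dvd_prime_iff_eq (hP l (mem_insert_of_mem hl)) hpp).1 h1] at hl
          exact hp hl)
      (fun c => by
        have h1 : e * p * ∏ l ∈ P, l = e * ∏ l ∈ insert p P, l := by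
          rw [prod_insert hp, mul_assoc]
        rw [h1]
        exact h c)
    have hco : e.Coprime p := by
      rw [Nat.coprime_comm, hpp.coprime_iff_not_dvd]
      exact he p (mem_insert_self _ _)
    choose cc hcc1 hcc2 using fun s : ℕ => (⟨(Nat.chineseRemainder hco c0 s).1,
      (Nat.chineseRemainder hco c0 s).2.1, (Nat.chineseRemainder hco c0 s).2.2⟩ :
      ∃ c, c ≡ c0 [MOD e] ∧ c ≡ s [MOD p])
    have hsub : ∑ x ∈ X.filter (fun x => x ≡ c0 [MOD e] ∧ ∀ l ∈ insert p P, ∃ s ∈ S l, x ≡ s [MOD l]),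
        u x ≤ ∑ s ∈ S p, ∑ x ∈ X.filter (fun x => x ≡ cc s [MOD e * p] ∧
          ∀ l ∈ P, ∃ s ∈ S l, x ≡ s [MOD l]), u x := by
      rw [sum_filter]
      simp_rw [sum_filter]
      rw [sum_comm]
      refine sum_le_sum fun x _ => ?_
      have hnn : ∀ s ∈ S p, 0 ≤ (if x ≡ cc s [MOD e * p] ∧ ∀ l ∈ P, ∃ s ∈ S l, x ≡ s [MOD l]
          then u x else 0) := by
        intro s _
        split_ifs
        · exact hu x
        · exact le_rfl
      split_ifs with hx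
      · obtain ⟨s, hs, hxs⟩ := hx.2 p (mem_insert_self _ _)
        have h1 : x ≡ cc s [MOD e * p] := by
          rw [← Nat.modEq_and_modEq_iff_modEq_mul hco]
          exact ⟨hx.1.trans (hcc1 s).symm, hxs.trans (hcc2 s).symm⟩
        calc u x = (if x ≡ cc s [MOD e * p] ∧ ∀ l ∈ P, ∃ s ∈ S l, x ≡ s [MOD l]
            then u x else 0) := by
              rw [if_pos ⟨h1, fun l hl => hx.2 l (mem_insert_of_mem hl)⟩]
          _ ≤ _ := single_le_sum hnn hs
      · exact sum_nonneg hnn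
    refine hsub.trans ?_
    calc ∑ s ∈ S p, ∑ x ∈ X.filter (fun x => x ≡ cc s [MOD e * p] ∧
          ∀ l ∈ P, ∃ s ∈ S l, x ≡ s [MOD l]), u x ≤ ∑ _s ∈ S p, (d:ℝ) ^ P.card * b :=
          sum_le_sum fun s _ => ih' (cc s)
      _ = (S p).card * ((d:ℝ) ^ P.card * b) := by rw [sum_const, nsmul_eq_mul]
      _ ≤ d * ((d:ℝ) ^ P.card * b) := by
          refine mul_le_mul_of_nonneg_right ?_ (by positivity)
          exact_mod_cast hS p (mem_insert_self _ _)
      _ = (d:ℝ) ^ (insert p P).card * b := by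
          rw [card_insert_of_notMem hp, pow_succ]; ring

/-- The average of the factor at large primes, for one fixed index. -/
lemma single_bound {X : Finset ℕ} {u : ℕ → ℝ} (hu : ∀ x, 0 ≤ u x)
    (hu1 : ∑ x ∈ X, u x = 1) {idx : ℕ → ℕ} {W K1 k D d : ℕ} (hW2 : 2 ∣ W) (hd : 1 ≤ d)
    (hidx : ∀ x ∈ X, u x ≠ 0 → ∃ i, i < k ∧ pr (idx x) = x + i * D)
    {Y δ : ℝ} (hY : 1 ≤ Y)
    (happ : ∀ q : ℕ, 0 < q → (q:ℝ) ≤ Y → W.Coprime q → ∀ c : ℕ,
      ∑ x ∈ X.filter (fun x => x ≡ c [MOD q]), u x ≤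
        ((k:ℝ) + 1) ^ (2 * q.primeFactors.card + 1) / q)
    (hK1 : ∀ l, l.Prime → l ≤ K1 → l ∣ W) (hk : ((k + 1) * d) ^ 2 ≤ K1)
    (hδ : 2 * (((k:ℝ) + 1) * d) ^ 4 / K1 ≤ δ)
    (Lf : ℕ → Finset ℕ) (hLp : ∀ n, ∀ l ∈ Lf n, l.Prime) (S : ℕ → Finset ℕ)
    (hS : ∀ l, l.Prime → ¬ l ∣ W → (S l).card ≤ d)
    (hL : ∀ n, ∀ l ∈ Lf n, ¬ l ∣ W → ∃ s ∈ S l, pr n ≡ s [MOD l])
    (htail : ∀ n, 2 ^ (Lf n).card / Real.sqrt Y ≤ δ) :
    ∑ x ∈ X, u x * ∏ l ∈ (Lf (idx x)).filter (fun l => ¬ l ∣ W), ((l:ℝ) / ((l:ℝ) - 1)) ≤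
      1 + 2 * δ := by
  classical
  set Bq := (Icc 1 ⌊Y⌋₊).filter (fun q => Squarefree q ∧ W.Coprime q) with hBq
  have hδ0 : 0 ≤ δ := le_trans (by positivity) hδ
  set dn : ℕ → ℕ := fun n => ∏ l ∈ Lf n, l with hdn
  have hdnp : ∀ n, (dn n).primeFactors = Lf n := fun n => Nat.primeFactors_prod (hLp n)
  -- pointwise
  have hpt : ∀ x ∈ X, u x * ∏ l ∈ (Lf (idx x)).filter (fun l => ¬ l ∣ W), ((l:ℝ) / ((l:ℝ) - 1)) ≤
      u x * δ + ∑ q ∈ Bq, (1 / (q.totient : ℝ)) * (if q ∣ dn (idx x) then u x else 0) := by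
    intro x _
    have h3 := large_factor_le (d := dn (idx x)) hW2 (lt_of_lt_of_le one_pos hY)
    rw [hdnp] at h3
    have h5 : ∑ q ∈ (Icc 1 ⌊Y⌋₊).filter (fun q => (Squarefree q ∧ W.Coprime q) ∧
        q ∣ dn (idx x)), 1 / (q.totient : ℝ) =
        ∑ q ∈ Bq, (1 / (q.totient : ℝ)) * (if q ∣ dn (idx x) then 1 else 0) := by
      rw [hBq, ← filter_filter, sum_filter]
      refine sum_congr rfl fun q _ => ?_
      split_ifs <;> simp
    rw [h5] at h3
    have h6 := mul_le_mul_of_nonneg_left (h3.trans (add_le_add le_rfl (htail (idx x)))) (hu x)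
    refine h6.trans (le_of_eq ?_)
    rw [mul_add, add_comm, mul_sum]
    congr 1
    refine sum_congr rfl fun q _ => ?_
    split_ifs <;> ring
  refine (sum_le_sum hpt).trans ?_
  rw [sum_add_distrib, ← sum_mul, hu1, one_mul, sum_comm]
  simp_rw [← mul_sum]
  -- the inner sums
  have hone : ∀ q, ∑ x ∈ X, (if q ∣ dn (idx x) then u x else 0) ≤ 1 := by
    intro q
    rw [← hu1]
    refine sum_le_sum fun x _ => ?_
    split_ifs
    · exact le_rfl
    · exact hu x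
  obtain ⟨k', hk'⟩ : ∃ k', k' + 1 = (k + 1) * d := ⟨(k + 1) * d - 1, by
    have : 1 ≤ (k + 1) * d := Nat.mul_pos (by omega) hd
    omega⟩
  have hk'r : (k':ℝ) + 1 = ((k:ℝ) + 1) * d := by exact_mod_cast hk'
  have hkk' : k ≤ k' := by
    have h1 : (k + 1) * 1 ≤ (k + 1) * d := Nat.mul_le_mul_left _ hd
    omega
  have hdr : (1:ℝ) ≤ d := by exact_mod_cast hd
  have hin : ∀ q ∈ Bq, 2 ≤ q → ∑ x ∈ X, (if q ∣ dn (idx x) then u x else 0) ≤
      k' * (((k':ℝ) + 1) ^ (2 * q.primeFactors.card + 1) / q) := by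
    intro q hq hq2
    rw [hBq, mem_filter, mem_Icc] at hq
    have hqY : (q:ℝ) ≤ Y := le_trans (by exact_mod_cast hq.1.2) (Nat.floor_le (by linarith))
    have hqprod := Nat.prod_primeFactors_of_squarefree hq.2.1
    have hqW : ∀ l ∈ q.primeFactors, ¬ l ∣ W := by
      intro l hl hlW
      exact Nat.not_coprime_of_dvd_of_dvd (Nat.prime_of_mem_primeFactors hl).one_lt hlW
        (Nat.dvd_of_mem_primeFactors hl) hq.2.2
    set S' : ℕ → ℕ → Finset ℕ := fun i l => (S l).image (fun s => s + (l - 1) * (i * D)) with hS'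
    have h1 : ∀ x ∈ X, (if q ∣ dn (idx x) then u x else 0) ≤
        ∑ i ∈ range k, (if x ≡ 0 [MOD 1] ∧ ∀ l ∈ q.primeFactors, ∃ s ∈ S' i l, x ≡ s [MOD l]
          then u x else 0) := by
      intro x hx
      have hnn : ∀ i ∈ range k, 0 ≤ (if x ≡ 0 [MOD 1] ∧
          ∀ l ∈ q.primeFactors, ∃ s ∈ S' i l, x ≡ s [MOD l] then u x else 0) := by
        intro i _
        split_ifs
        · exact hu x
        · exact le_rfl
      by_cases h0 : u x = 0
      · rw [h0]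
        simp
      · split_ifs with hdvd
        · obtain ⟨i, hi, hpi⟩ := hidx x hx h0
          have h2 : ∀ l ∈ q.primeFactors, ∃ s ∈ S' i l, x ≡ s [MOD l] := by
            intro l hl
            have hlp := Nat.prime_of_mem_primeFactors hl
            have hlL : l ∈ Lf (idx x) := by
              rw [← hdnp, Nat.mem_primeFactors]
              refine ⟨hlp, (Nat.dvd_of_mem_primeFactors hl).trans hdvd, ?_⟩
              exact (prod_pos fun l hl => (hLp (idx x) l hl).pos).ne'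
            obtain ⟨s, hs, hps⟩ := hL _ l hlL (hqW l hl)
            refine ⟨s + (l - 1) * (i * D), mem_image_of_mem _ hs, ?_⟩
            have h3 : x + i * D + (l - 1) * (i * D) ≡ s + (l - 1) * (i * D) [MOD l] := by
              rw [← hpi]
              exact hps.add_right _
            have h4 : x + i * D + (l - 1) * (i * D) = x + l * (i * D) := by
              obtain ⟨l', rfl⟩ : ∃ l', l = l' + 1 := ⟨l - 1, by have := hlp.pos; omega⟩
              simp only [Nat.add_sub_cancel]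
              ring
            rw [h4] at h3
            refine Nat.ModEq.trans ?_ h3
            exact (Nat.modEq_iff_dvd' (by omega)).2 ⟨i * D, by omega⟩
          calc u x = (if x ≡ 0 [MOD 1] ∧ ∀ l ∈ q.primeFactors, ∃ s ∈ S' i l, x ≡ s [MOD l]
              then u x else 0) := by
                rw [if_pos ⟨Nat.modEq_one, h2⟩]
            _ ≤ _ := single_le_sum hnn (mem_range.2 hi)
        · exact sum_nonneg hnn
    refine (sum_le_sum h1).trans ?_
    rw [sum_comm]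
    have h2 : ∀ i ∈ range k, ∑ x ∈ X, (if x ≡ 0 [MOD 1] ∧
        ∀ l ∈ q.primeFactors, ∃ s ∈ S' i l, x ≡ s [MOD l] then u x else 0) ≤
        (d:ℝ) ^ q.primeFactors.card * (((k:ℝ) + 1) ^ (2 * q.primeFactors.card + 1) / q) := by
      intro i _
      rw [← sum_filter]
      refine sum_classes hu (by positivity) (S' i) q.primeFactors
        (fun l hl => Nat.prime_of_mem_primeFactors hl)
        (fun l hl => card_image_le.trans (hS l (Nat.prime_of_mem_primeFactors hl) (hqW l hl))) 1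
        (fun l hl h => (Nat.prime_of_mem_primeFactors hl).one_lt.ne' (Nat.dvd_one.1 h)) ?_ 0
      intro c
      rw [one_mul, hqprod]
      exact happ q (by omega) hqY hq.2.2 c
    refine (sum_le_sum h2).trans ?_
    rw [sum_const, card_range, nsmul_eq_mul]
    have hq0 : (0:ℝ) < q := by exact_mod_cast (by omega : 0 < q)
    have h3 : (d:ℝ) ^ q.primeFactors.card * ((k:ℝ) + 1) ^ (2 * q.primeFactors.card + 1) ≤
        ((k':ℝ) + 1) ^ (2 * q.primeFactors.card + 1) := by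
      rw [hk'r, mul_pow, mul_comm]
      refine mul_le_mul_of_nonneg_left ?_ (by positivity)
      exact pow_le_pow_right₀ hdr (by omega)
    have h4 : (k:ℝ) ≤ k' := by exact_mod_cast hkk'
    calc (k:ℝ) * ((d:ℝ) ^ q.primeFactors.card *
          (((k:ℝ) + 1) ^ (2 * q.primeFactors.card + 1) / q)) =
          k * (((d:ℝ) ^ q.primeFactors.card * ((k:ℝ) + 1) ^ (2 * q.primeFactors.card + 1)) / q) := by
          ring
      _ ≤ k' * (((k':ℝ) + 1) ^ (2 * q.primeFactors.card + 1) / q) := by gcongr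
  have hBsplit : ∑ q ∈ Bq, (1 / (q.totient : ℝ)) * ∑ x ∈ X, (if q ∣ dn (idx x) then u x else 0) ≤
      1 + ∑ q ∈ (Icc 2 ⌊Y⌋₊).filter (fun q => Squarefree q ∧ W.Coprime q),
        (1 / (q.totient : ℝ)) * (k' * (((k':ℝ) + 1) ^ (2 * q.primeFactors.card + 1) / q)) := by
    have hB2 : Bq ⊆ insert 1 ((Icc 2 ⌊Y⌋₊).filter (fun q => Squarefree q ∧ W.Coprime q)) := by
      intro q hq
      rw [hBq, mem_filter, mem_Icc] at hq
      rw [mem_insert, mem_filter, mem_Icc]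
      by_cases h : q = 1
      · exact Or.inl h
      · exact Or.inr ⟨⟨by omega, hq.1.2⟩, hq.2⟩
    have hnn : ∀ q, 0 ≤ (1 / (q.totient : ℝ)) * ∑ x ∈ X, (if q ∣ dn (idx x) then u x else 0) := by
      intro q
      refine mul_nonneg (by positivity) (sum_nonneg fun x _ => ?_)
      split_ifs
      · exact hu x
      · exact le_rfl
    refine (sum_le_sum_of_subset_of_nonneg hB2 fun q _ _ => hnn q).trans ?_
    rw [sum_insert (by simp)]
    refine add_le_add ?_ ?_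
    · rw [Nat.totient_one, Nat.cast_one, div_one, one_mul]
      exact hone 1
    · refine sum_le_sum fun q hq => ?_
      rw [mem_filter, mem_Icc] at hq
      refine mul_le_mul_of_nonneg_left ?_ (by positivity)
      have hqB : q ∈ Bq := by
        rw [hBq, mem_filter, mem_Icc]
        exact ⟨⟨by omega, hq.1.2⟩, hq.2⟩
      exact hin q hqB hq.1.1
  have hls := large_sum_le (k := k') hK1 (by rw [hk']; exact hk) ⌊Y⌋₊
  have hls2 : 2 * (k':ℝ) * ((k':ℝ) + 1) ^ 3 / K1 ≤ δ := by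
    refine le_trans ?_ hδ
    rw [← hk'r]
    refine div_le_div_of_nonneg_right ?_ (Nat.cast_nonneg _)
    have h1 : (0:ℝ) ≤ k' := Nat.cast_nonneg _
    have h2 : (k':ℝ) * ((k':ℝ) + 1) ^ 3 ≤ ((k':ℝ) + 1) * ((k':ℝ) + 1) ^ 3 := by gcongr; linarith
    have h3 : ((k':ℝ) + 1) ^ 4 = ((k':ℝ) + 1) * ((k':ℝ) + 1) ^ 3 := by ring
    rw [h3]
    linarith
  linarith

/-- Average over the units of a factor with at most `d` residues modulo each prime. -/
lemma unit_sum {S : Finset ℕ} (hS : ∀ l ∈ S, l.Prime) {d : ℕ} (A : ℕ → Finset ℕ)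
    (hA : ∀ l ∈ S, (A l).card ≤ d) :
    ∑ c' ∈ (range (∏ l ∈ S, l)).filter (fun c' => c'.Coprime (∏ l ∈ S, l)),
        ∏ l ∈ S.filter (fun l => ∃ s ∈ A l, c' ≡ s [MOD l]), ((l:ℝ) / ((l:ℝ) - 1)) ≤
      ((∏ l ∈ S, l).totient : ℝ) * ∏ l ∈ S, (1 + d * (1 / ((l:ℝ) - 1)) ^ 2) := by
  classical
  set Dp := ∏ l ∈ S, l with hDp
  set U := (range Dp).filter (fun c' => c'.Coprime Dp) with hU
  have hf0 : ∀ B ⊆ S, 0 ≤ ∏ l ∈ B, (1 / ((l:ℝ) - 1)) := fun B hB => prod_nonneg fun l hl => by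
    have h2 : (2:ℝ) ≤ l := by exact_mod_cast (hS l (hB hl)).two_le
    have : 0 < (l:ℝ) - 1 := by linarith
    positivity
  have h2 : ∀ c' ∈ U, ∏ l ∈ S.filter (fun l => ∃ s ∈ A l, c' ≡ s [MOD l]),
      ((l:ℝ) / ((l:ℝ) - 1)) = ∑ B ∈ S.powerset, if ∀ l ∈ B, ∃ s ∈ A l, c' ≡ s [MOD l]
        then ∏ l ∈ B, (1 / ((l:ℝ) - 1)) else 0 := by
    intro c' _
    rw [prod_ratio_eq_sum _ fun l hl => hS l (mem_filter.1 hl).1, ← sum_filter]
    refine sum_congr ?_ fun _ _ => rfl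
    ext B
    simp only [mem_powerset, mem_filter, subset_iff]
    constructor
    · intro h
      exact ⟨fun l hl => (h hl).1, fun l hl => (h hl).2⟩
    · rintro ⟨h1, h2⟩ l hl
      exact ⟨h1 hl, h2 l hl⟩
  rw [sum_congr rfl h2, sum_comm]
  have h3 : ∀ B ∈ S.powerset,
      ∑ c' ∈ U, (if ∀ l ∈ B, ∃ s ∈ A l, c' ≡ s [MOD l] then ∏ l ∈ B, (1 / ((l:ℝ) - 1)) else 0) ≤
      (Dp.totient : ℝ) * ∏ l ∈ B, (d * (1 / ((l:ℝ) - 1)) ^ 2) := by
    intro B hB
    rw [mem_powerset] at hB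
    rw [← sum_filter, sum_const, nsmul_eq_mul]
    have h4 := sum_classes (X := U) (u := fun _ => (1:ℝ)) (fun _ => zero_le_one) (d := d)
      (b := ((∏ l ∈ S \ B, l).totient : ℝ)) (Nat.cast_nonneg _) A B (fun l hl => hS l (hB hl))
      (fun l hl => hA l (hB hl)) 1
      (fun l hl h => (hS l (hB hl)).one_lt.ne' (Nat.dvd_one.1 h))
      (fun c => by
        rw [one_mul, sum_const, nsmul_eq_mul, mul_one]
        have h5 := card_unit_class hS hB c
        have h6 : (U.filter (fun x => x ≡ c [MOD ∏ l ∈ B, l])).card ≤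
            (U.filter (fun c' => ∀ l ∈ B, c ≡ c' [MOD l])).card := by
          refine card_le_card ?_
          intro x hx
          rw [mem_filter] at hx ⊢
          exact ⟨hx.1, fun l hl => (hx.2.of_dvd (dvd_prod_of_mem _ hl)).symm⟩
        exact_mod_cast h6.trans h5) 0
    rw [sum_const, nsmul_eq_mul, mul_one] at h4
    have h5 : (U.filter (fun c' => ∀ l ∈ B, ∃ s ∈ A l, c' ≡ s [MOD l])).card ≤
        (U.filter (fun x => x ≡ 0 [MOD 1] ∧ ∀ l ∈ B, ∃ s ∈ A l, x ≡ s [MOD l])).card := by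
      refine card_le_card ?_
      intro x hx
      rw [mem_filter] at hx ⊢
      exact ⟨hx.1, Nat.modEq_one, hx.2⟩
    have h5' : ((U.filter (fun c' => ∀ l ∈ B, ∃ s ∈ A l, c' ≡ s [MOD l])).card : ℝ) ≤
        (d:ℝ) ^ B.card * ((∏ l ∈ S \ B, l).totient : ℝ) := le_trans (by exact_mod_cast h5) h4
    have h6 : (Dp.totient : ℝ) = (∏ l ∈ B, ((l:ℝ) - 1)) * ((∏ l ∈ S \ B, l).totient : ℝ) := by
      rw [hDp, totient_prod_real hS, totient_prod_real fun l hl => hS l (mem_sdiff.1 hl).1,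
        mul_comm, prod_sdiff hB]
    refine (mul_le_mul_of_nonneg_right h5' (hf0 B hB)).trans (le_of_eq ?_)
    rw [h6, prod_mul_distrib, prod_const, prod_pow]
    have h7 : (∏ l ∈ B, ((l:ℝ) - 1)) * ∏ l ∈ B, (1 / ((l:ℝ) - 1)) = 1 := by
      rw [← prod_mul_distrib]
      refine prod_eq_one fun l hl => ?_
      have h2 : (2:ℝ) ≤ l := by exact_mod_cast (hS l (hB hl)).two_le
      have : (l:ℝ) - 1 ≠ 0 := by linarith
      field_simp
    calc (d:ℝ) ^ B.card * ((∏ l ∈ S \ B, l).totient : ℝ) * ∏ l ∈ B, (1 / ((l:ℝ) - 1)) =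
          ((∏ l ∈ B, ((l:ℝ) - 1)) * ∏ l ∈ B, (1 / ((l:ℝ) - 1))) *
          ((d:ℝ) ^ B.card * ((∏ l ∈ S \ B, l).totient : ℝ) * ∏ l ∈ B, (1 / ((l:ℝ) - 1))) := by
          rw [h7, one_mul]
      _ = _ := by ring
  refine (sum_le_sum h3).trans (le_of_eq ?_)
  rw [← mul_sum, prod_one_add]

lemma prod_d_le_exp {S : Finset ℕ} {z d : ℕ} (hz : 2 ≤ z) (hS : ∀ l ∈ S, z < l) :
    ∏ l ∈ S, (1 + d * (1 / ((l:ℝ) - 1)) ^ 2) ≤ Real.exp (d / ((z:ℝ) - 1)) := by
  have h1 : ∏ l ∈ S, (1 + d * (1 / ((l:ℝ) - 1)) ^ 2) ≤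
      ∏ l ∈ S, (1 + (1 / ((l:ℝ) - 1)) ^ 2) ^ d := by
    refine prod_le_prod (fun l _ => by positivity) fun l _ => ?_
    exact one_add_mul_le_pow (by have := sq_nonneg (1 / ((l:ℝ) - 1)); linarith) d
  rw [prod_pow] at h1
  refine h1.trans ((pow_le_pow_left₀ (prod_nonneg fun l _ => by positivity)
    (prod_sq_le_exp hz hS) d).trans (le_of_eq ?_))
  rw [← Real.exp_nat_mul]
  congr 1
  ring

end Pool.Agent.PnMaynard2
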