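import Pool.Agent.PnMaynard2.Class
import Pool.Agent.PnMaynard.Final

/-!
# The hypotheses on the direction for integer-valued polynomials
-/

open Finset Filter Topology Polynomial

namespace Pool.Agent.PnMaynard2

open Pool.Agent.PnPoly Pool.Agent.PnMaynard

lemma IV.mono {Δ n0 Δ' n0' : ℕ} {Q : ℕ → ℕ} (h : IV Δ n0 Q) (hn : n0 ≤ n0') :
    IV (Δ' * Δ) n0' Q := by
  intro T n m hn' hm' hmod
  have h1 := (h T n m (hn.trans hn') (hn.trans hm') hmod).mul_left Δ'
  rw [← mul_assoc, ← mul_assoc] at h1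
  exact h1

lemma Dir.mono' {Δ n0 z0 d C0 Δ' n0' : ℕ} {R : ℕ → ℕ} (h : Dir Δ n0 z0 d C0 R)
    (hn : n0 ≤ n0') : Dir (Δ' * Δ) n0' z0 d C0 R :=
  { iv := IV.mono h.iv hn
    mono := fun m n hm hmn => h.mono m n (hn.trans hm) hmn
    pos := fun n hn' => h.pos n (hn.trans hn')
    le := fun n hn' => h.le n (hn.trans hn')
    pre := fun l hl hlz v => by
      obtain ⟨S, hS, h1⟩ := h.pre l hl hlz v
      exact ⟨S, hS, fun n hn' hv => h1 n (hn.trans hn') hv⟩ }

/-- The direction `x`. -/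
lemma dir_id {Δ : ℕ} : Dir Δ 1 0 1 1 (fun n => n) :=
  { iv := fun _ _ _ _ _ h => h.mul_left Δ
    mono := fun _ _ _ h => h
    pos := fun _ h => h
    le := fun n _ => by rw [pow_one]
    pre := fun l _ _ v => ⟨{v}, by simp, fun n _ h => ⟨v, by simp, h⟩⟩ }

lemma ev_pos_eval {p : Polynomial ℝ} (h : 0 < p.leadingCoeff) : ∀ᶠ x : ℝ in atTop, 0 < p.eval x := by
  by_cases hdeg : 0 < p.degree
  · exact (Polynomial.tendsto_atTop_of_leadingCoeff_nonneg p hdeg h.le).eventually_gt_atTop 0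
  · have h1 : p = Polynomial.C (p.coeff 0) := Polynomial.eq_C_of_degree_le_zero (not_lt.mp hdeg)
    have h2 : 0 < p.coeff 0 := by
      rw [h1, leadingCoeff_C] at h
      exact h
    filter_upwards with x
    rw [h1, eval_C]
    exact h2

/-- Eventually increasing. -/
lemma ev_strictMono {R : Polynomial ℚ} (hlc : 0 < R.leadingCoeff) (hdeg : 1 ≤ R.natDegree) :
    ∃ n0 : ℕ, ∀ m n : ℕ, n0 ≤ m → m < n → R.eval (m : ℚ) < R.eval (n : ℚ) := by
  set S : Polynomial ℝ := R.map (algebraMap ℚ ℝ) with hS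
  have hSeval : ∀ n : ℕ, S.eval (n : ℝ) = ((R.eval (n : ℚ) : ℚ) : ℝ) := by
    intro n
    rw [hS, eval_map, ← Polynomial.aeval_def]
    have := Polynomial.aeval_algebraMap_apply ℝ (n : ℚ) R
    simpa using this
  have hnat : S.natDegree = R.natDegree := natDegree_map _
  have hderiv : 0 < S.derivative.leadingCoeff := by
    have h1 : S.derivative.coeff (R.natDegree - 1) = S.coeff R.natDegree * R.natDegree := by
      rw [coeff_derivative]
      have : R.natDegree - 1 + 1 = R.natDegree := by omega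
      rw [this]
      congr 1
      rw [Nat.cast_sub hdeg]
      push_cast
      ring
    have h2 : S.coeff R.natDegree = ((R.leadingCoeff : ℚ) : ℝ) := by
      rw [hS, coeff_map]; rfl
    have h3 : 0 < S.derivative.coeff (R.natDegree - 1) := by
      rw [h1, h2]
      have h4 : (0:ℝ) < ((R.leadingCoeff : ℚ) : ℝ) := by exact_mod_cast hlc
      have h5 : (0:ℝ) < R.natDegree := by exact_mod_cast hdeg
      positivity
    have h4 : S.derivative.natDegree = R.natDegree - 1 := by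
      refine le_antisymm ?_ (le_natDegree_of_ne_zero h3.ne')
      rw [← hnat]
      exact natDegree_derivative_le S
    rw [leadingCoeff, h4]
    exact h3
  obtain ⟨x0, hx0⟩ := eventually_atTop.1 (ev_pos_eval hderiv)
  refine ⟨⌈x0⌉₊, fun m n hm hmn => ?_⟩
  have hmono : StrictMonoOn (fun x : ℝ => S.eval x) (Set.Ici x0) := by
    refine strictMonoOn_of_deriv_pos (convex_Ici x0) S.continuous.continuousOn ?_
    intro x hx
    rw [interior_Ici] at hx
    rw [Polynomial.deriv]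
    exact hx0 x (le_of_lt hx)
  have h1 : x0 ≤ (m:ℝ) := (Nat.le_ceil x0).trans (by exact_mod_cast hm)
  have h2 : (m:ℝ) < n := by exact_mod_cast hmn
  have h3 := hmono (Set.mem_Ici.2 h1) (Set.mem_Ici.2 (h1.trans h2.le)) h2
  simp only at h3
  rw [hSeval, hSeval] at h3
  exact_mod_cast h3

/-- Polynomial growth. -/
lemma ev_le_pow (R : Polynomial ℚ) : ∃ n0 : ℕ, ∀ n : ℕ, n0 ≤ n →
    ((R.eval (n : ℚ) : ℚ) : ℝ) ≤ (n:ℝ) ^ (R.natDegree + 1) := by
  set k := R.natDegree with hk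
  set M : ℝ := ∑ i ∈ range (k + 1), |((R.coeff i : ℚ) : ℝ)| with hM
  refine ⟨⌈M⌉₊ + 1, fun n hn => ?_⟩
  have hn1 : (1:ℝ) ≤ n := by exact_mod_cast (by omega : 1 ≤ n)
  have hMn : M ≤ n := (Nat.le_ceil M).trans (by exact_mod_cast (by omega : ⌈M⌉₊ ≤ n))
  rw [eval_eq_sum_range]
  push_cast
  calc ∑ i ∈ range (k + 1), ((R.coeff i : ℚ) : ℝ) * (n:ℝ) ^ i
      ≤ ∑ i ∈ range (k + 1), |((R.coeff i : ℚ) : ℝ)| * (n:ℝ) ^ k := by
        refine sum_le_sum fun i hi => ?_
        rw [mem_range] at hi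
        have h1 : (n:ℝ) ^ i ≤ (n:ℝ) ^ k := pow_le_pow_right₀ hn1 (by omega)
        have h2 : (0:ℝ) ≤ (n:ℝ) ^ i := by positivity
        exact (mul_le_mul_of_nonneg_right (le_abs_self _) h2).trans
          (mul_le_mul_of_nonneg_left h1 (abs_nonneg _))
    _ = M * (n:ℝ) ^ k := by rw [← sum_mul]
    _ ≤ n * (n:ℝ) ^ k := by gcongr
    _ = (n:ℝ) ^ (k + 1) := by ring

/-- At most `deg R` residues modulo `l` give a prescribed value. -/
lemma exists_pre (R : Polynomial ℚ) (Z : ℤ → ℤ) (hZ : ∀ m : ℤ, R.eval (m : ℚ) = (Z m : ℚ))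
    (hdeg : 1 ≤ R.natDegree) {n0 : ℕ} (hn0 : ∀ n : ℕ, n0 ≤ n → 0 ≤ Z n) :
    ∃ z0 : ℕ, ∀ l, l.Prime → z0 < l → ∀ v : ℕ, ∃ S : Finset ℕ, S.card ≤ R.natDegree ∧
      ∀ n, n0 ≤ n → (Z n).toNat ≡ v [MOD l] → ∃ s ∈ S, n ≡ s [MOD l] := by
  classical
  obtain ⟨b, hbm, hb⟩ := IsLocalization.integerNormalization_spec (nonZeroDivisors ℤ) R
  set P := IsLocalization.integerNormalization (nonZeroDivisors ℤ) R with hP
  have hb0 : (b : ℤ) ≠ 0 := nonZeroDivisors.ne_zero hbm
  have heval : ∀ n : ℕ, P.eval (n : ℤ) = (b : ℤ) * Z n := by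
    intro n
    have h1 := congrArg (fun R : Polynomial ℚ => R.eval (n : ℚ)) hb
    have h2 : (P.map (algebraMap ℤ ℚ)).eval (n : ℚ) = ((P.eval (n : ℤ) : ℤ) : ℚ) := by
      have := Polynomial.eval_intCast_map (algebraMap ℤ ℚ) P (n : ℤ)
      simpa using this
    rw [h2] at h1
    have h3 : ((b : ℤ) • R).eval (n : ℚ) = (b : ℤ) * (Z n : ℚ) := by
      rw [Polynomial.eval_smul]
      have := hZ (n : ℤ)
      push_cast at this
      rw [this]
      simp
    have h4 : ((P.eval (n : ℤ) : ℤ) : ℚ) = (((b : ℤ) * Z n : ℤ) : ℚ) := by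
      rw [h1]
      push_cast
      exact h3
    exact_mod_cast h4
  have hPdeg : P.natDegree = R.natDegree := by
    have h1 := congrArg Polynomial.natDegree hb
    rw [natDegree_map_eq_of_injective (algebraMap ℤ ℚ).injective_int] at h1
    rw [h1]
    have h2 : ((b : ℤ) • R) = Polynomial.C (b : ℚ) * R := by
      ext i
      rw [coeff_smul, coeff_C_mul]
      simp
    rw [h2, natDegree_C_mul (by exact_mod_cast hb0)]
  have hP0 : P.leadingCoeff ≠ 0 := by
    rw [leadingCoeff_ne_zero]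
    rintro h
    rw [h, natDegree_zero] at hPdeg
    omega
  refine ⟨P.leadingCoeff.natAbs, fun l hl hlz v => ?_⟩
  haveI : Fact l.Prime := ⟨hl⟩
  have hlc : ((P.leadingCoeff : ℤ) : ZMod l) ≠ 0 := by
    intro h
    rw [ZMod.intCast_zmod_eq_zero_iff_dvd] at h
    have h1 := Int.le_of_dvd (abs_pos.2 hP0) ((dvd_abs _ _).2 h)
    have h2 : |P.leadingCoeff| = (P.leadingCoeff.natAbs : ℤ) := Int.abs_eq_natAbs _
    omega
  set Pl : Polynomial (ZMod l) := P.map (Int.castRingHom (ZMod l)) with hPl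
  set F : Polynomial (ZMod l) := Pl - Polynomial.C (((b : ℤ) * (v : ℤ) : ℤ) : ZMod l) with hF
  have hPldeg : Pl.natDegree = R.natDegree := by
    rw [hPl, ← hPdeg]
    exact natDegree_map_of_leadingCoeff_ne_zero _ (by simpa using hlc)
  have hFdeg : F.natDegree ≤ R.natDegree := by
    rw [hF, ← hPldeg]
    exact natDegree_sub_C.le
  have hF0 : F ≠ 0 := by
    intro h
    have h1 : F.natDegree = Pl.natDegree := by rw [hF]; exact natDegree_sub_C
    rw [h, natDegree_zero] at h1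
    omega
  refine ⟨F.roots.toFinset.image ZMod.val, ?_, ?_⟩
  · refine card_image_le.trans ((Multiset.toFinset_card_le _).trans ?_)
    exact (card_roots' F).trans hFdeg
  · intro n hn hmod
    refine ⟨((n : ℕ) : ZMod l).val, ?_, ?_⟩
    · refine mem_image_of_mem _ ?_
      rw [Multiset.mem_toFinset, mem_roots hF0, IsRoot, hF, eval_sub, eval_C, hPl]
      have h1 : (P.map (Int.castRingHom (ZMod l))).eval ((n : ℕ) : ZMod l) =
          ((P.eval (n : ℤ) : ℤ) : ZMod l) := by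
        have := Polynomial.eval_intCast_map (Int.castRingHom (ZMod l)) P (n : ℤ)
        simpa using this
      rw [h1, heval]
      have h2 : ((Z n : ℤ) : ZMod l) = ((v : ℤ) : ZMod l) := by
        have h3 : (((Z n).toNat : ℕ) : ZMod l) = (v : ZMod l) :=
          (ZMod.natCast_eq_natCast_iff _ _ _).2 hmod
        have h4 : (((Z n).toNat : ℕ) : ℤ) = Z n := Int.toNat_of_nonneg (hn0 n hn)
        calc ((Z n : ℤ) : ZMod l) = ((((Z n).toNat : ℕ) : ℤ) : ZMod l) := by rw [h4]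
          _ = (((Z n).toNat : ℕ) : ZMod l) := Int.cast_natCast _
          _ = (v : ZMod l) := h3
          _ = _ := (Int.cast_natCast _).symm
      push_cast
      push_cast at h2
      rw [h2, sub_self]
    · rw [← ZMod.natCast_eq_natCast_iff, ZMod.natCast_val, ZMod.cast_id]

/-- The direction given by an integer-valued polynomial. -/
theorem exists_dir (R : Polynomial ℚ) (Z : ℤ → ℤ) (hZ : ∀ m : ℤ, R.eval (m : ℚ) = (Z m : ℚ))
    (hlc : 0 < R.leadingCoeff) (hdeg : 1 ≤ R.natDegree) :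
    ∃ Δ n0 z0 d C0 : ℕ, 1 ≤ Δ ∧ Dir Δ n0 z0 d C0 (fun n => (Z n).toNat) := by
  have hZn : ∀ n : ℕ, R.eval (n : ℚ) = ((Z (n : ℤ) : ℤ) : ℚ) := by
    intro n
    have := hZ (n : ℤ)
    simpa using this
  obtain ⟨n1, hn1⟩ := ev_strictMono hlc hdeg
  obtain ⟨n2, hn2⟩ := ev_le_pow R
  obtain ⟨n3, hn3⟩ := (finite_neg hlc.le).bddAbove
  set n0 := max n1 (max n2 (n3 + 1)) + 1 with hn0
  have hpos : ∀ n : ℕ, n3 + 1 ≤ n → 0 ≤ Z n := by
    intro n hn
    by_contra hneg
    push Not at hneg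
    have h1 : n ∈ {n : ℕ | R.eval (n : ℚ) < 0} := by
      change R.eval (n : ℚ) < 0
      rw [hZn]
      exact_mod_cast hneg
    have := hn3 h1
    omega
  have hpos1 : ∀ n : ℕ, n0 ≤ n → 1 ≤ Z n := by
    intro n hn
    have h1 := hn1 (n - 1) n (by omega) (by omega)
    have h2 := hpos (n - 1) (by omega)
    rw [hZn, hZn] at h1
    have h3 : Z ((n - 1 : ℕ) : ℤ) < Z n := by exact_mod_cast h1
    omega
  obtain ⟨Δ, hΔ, hIV⟩ := exists_IV R Z hZ hpos
  obtain ⟨z0, hz0⟩ := exists_pre R Z hZ hdeg (n0 := n0) (fun n hn => by have := hpos1 n hn; omega)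
  refine ⟨1 * Δ, n0, z0, R.natDegree, R.natDegree + 1, by omega, ?_⟩
  refine ⟨IV.mono hIV (by omega), ?_, ?_, ?_, hz0⟩
  · intro m n hm hmn
    have h1 := hn1 m n (by omega) hmn
    rw [hZn, hZn] at h1
    have h2 : Z m < Z n := by exact_mod_cast h1
    have h3 := hpos1 m hm
    omega
  · intro n hn
    have := hpos1 n hn
    omega
  · intro n hn
    have h1 := hn2 n (by omega)
    rw [hZn] at h1
    have h2 : (((Z n).toNat : ℕ) : ℤ) = Z n := Int.toNat_of_nonneg (by have := hpos1 n hn; omega)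
    have h3 : (((Z n).toNat : ℕ) : ℝ) ≤ (n:ℝ) ^ (R.natDegree + 1) := by
      have h4 : (((Z n).toNat : ℕ) : ℝ) = ((Z n : ℤ) : ℝ) := by exact_mod_cast congrArg (fun z : ℤ => (z : ℝ)) h2
      rw [h4]
      simpa using h1
    exact_mod_cast h3

end Pool.Agent.PnMaynard2
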