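import Pool.Agent.PnMaynard2.Seq
import Pool.Agent.PnMaynard2.DirPoly

/-!
# Almost all polynomials `Q + a R + b`, all ranges `(log H)^(1+δ) ≤ N ≤ (log H)^A`
-/

open Finset Filter Topology Polynomial

namespace Pool.Agent.PnMaynard2

open Pool.Agent.PnPoly Pool.Agent.PnMaynard

open scoped Classical in
/-- Almost all pairs, all scales. -/
theorem main_all {Δ n0 z0 d C0 : ℕ} {R : ℕ → ℕ} (hR : Dir Δ n0 z0 d C0 R) (hΔ : 1 ≤ Δ)
    (A : ℝ) {δ ε : ℝ} (hδ : 0 < δ) (hε : 0 < ε) :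
    ∃ A2 : ℕ, ∀ D0 : ℕ, ∀ᶠ H : ℕ in atTop, ∀ Q : ℕ → ℕ, IV Δ n0 Q →
      (∀ n : ℕ, (n:ℝ) ≤ Real.log H ^ A2 → (Q n : ℝ) ≤ H * Real.log H ^ D0) →
      (({v ∈ Ioc 0 H ×ˢ Ioc 0 H | ¬ ∀ N : ℕ, Real.log H ^ (1 + δ) ≤ N → (N:ℝ) ≤ Real.log H ^ A →
        (N:ℝ) / Real.log H ^ (1 + δ) ≤ (((Icc 1 N).filter
          (fun n => n0 ≤ n ∧ (pr n + 2 * (Q n + v.1 * R n + v.2)).Prime)).card : ℝ)} :
            Finset (ℕ × ℕ)).card : ℝ) ≤ ε * (H:ℝ) ^ 2 := by
  classical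
  set J := ⌈4 * A / δ⌉₊ with hJ
  set sj : ℕ → ℝ := fun j => 1 + δ / 2 + j * (δ / 4) with hsj
  have hsj1 : ∀ j, 1 < sj j := by
    intro j
    have : (0:ℝ) ≤ j * (δ / 4) := by positivity
    simp only [hsj]
    linarith
  refine ⟨⌈sj J⌉₊, fun D0 => ?_⟩
  have hJ0 : (0:ℝ) < J + 1 := by positivity
  have hall : ∀ᶠ H : ℕ in atTop, ∀ j ∈ range (J + 1), ∀ Q : ℕ → ℕ, IV Δ n0 Q →
      (∀ n : ℕ, (n:ℝ) ≤ Real.log H ^ (sj j) → (Q n : ℝ) ≤ H * Real.log H ^ D0) →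
      (((Ioc 0 H ×ˢ Ioc 0 H).filter (fun v => (((Icc 1 ⌊Real.log H ^ (sj j)⌋₊).filter
        (fun n => n0 ≤ n ∧ (pr n + 2 * (Q n + v.1 * R n + v.2)).Prime)).card : ℝ) <
          Real.log H ^ (sj j - 1 - δ / 4))).card : ℝ) ≤ (ε / (J + 1)) * (H:ℝ) ^ 2 := by
    rw [Filter.eventually_all_finset]
    intro j _
    exact main_seq2 hR hΔ (hsj1 j) (by positivity) (by positivity) D0
  filter_upwards [hall, tendsto_log_nat.eventually_ge_atTop 2] with H hH hL2 Q hIV hQ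
  set L := Real.log H with hLdef
  have hL1 : 1 ≤ L := by linarith
  have hL0 : 0 < L := by linarith
  have hlogL : 0 < Real.log L := Real.log_pos (by linarith)
  set bad : ℕ → Finset (ℕ × ℕ) := fun j => (Ioc 0 H ×ˢ Ioc 0 H).filter
      (fun v => (((Icc 1 ⌊L ^ (sj j)⌋₊).filter
        (fun n => n0 ≤ n ∧ (pr n + 2 * (Q n + v.1 * R n + v.2)).Prime)).card : ℝ) <
          L ^ (sj j - 1 - δ / 4)) with hbad
  have hbadc : ∀ j ∈ range (J + 1), ((bad j).card : ℝ) ≤ (ε / (J + 1)) * (H:ℝ) ^ 2 := by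
    intro j hj
    refine hH j hj Q hIV fun n hn => hQ n (hn.trans ?_)
    have h1 : sj j ≤ (⌈sj J⌉₊ : ℝ) := by
      refine le_trans ?_ (Nat.le_ceil _)
      simp only [hsj]
      have h2 : (j:ℝ) ≤ J := by
        rw [mem_range] at hj
        exact_mod_cast (by omega : j ≤ J)
      gcongr
    rw [← Real.rpow_natCast]
    exact Real.rpow_le_rpow_of_exponent_le hL1 h1
  have hsub : ({v ∈ Ioc 0 H ×ˢ Ioc 0 H | ¬ ∀ N : ℕ, L ^ (1 + δ) ≤ N → (N:ℝ) ≤ L ^ A →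
        (N:ℝ) / L ^ (1 + δ) ≤ (((Icc 1 N).filter
          (fun n => n0 ≤ n ∧ (pr n + 2 * (Q n + v.1 * R n + v.2)).Prime)).card : ℝ)} :
            Finset (ℕ × ℕ)) ⊆ (range (J + 1)).biUnion bad := by
    intro v hv
    rw [mem_filter] at hv
    obtain ⟨hv, hN⟩ := hv
    push Not at hN
    obtain ⟨N, hN1, hN2, hN3⟩ := hN
    have hNr : (0:ℝ) < N := lt_of_lt_of_le (by positivity) hN1
    set y := Real.log N / Real.log L with hy
    have hLy : L ^ y = N := by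
      rw [Real.rpow_def_of_pos hL0, hy, mul_div_cancel₀ _ hlogL.ne', Real.exp_log hNr]
    have hy1 : 1 + δ ≤ y := by
      rw [← hLy] at hN1
      exact (Real.rpow_le_rpow_left_iff (by linarith)).1 hN1
    have hy2 : y ≤ A := by
      rw [← hLy] at hN2
      exact (Real.rpow_le_rpow_left_iff (by linarith)).1 hN2
    set j := ⌊(y - 1 - δ / 2) / (δ / 4)⌋₊ with hj
    have hq0 : 0 ≤ (y - 1 - δ / 2) / (δ / 4) := by
      apply div_nonneg <;> linarith
    have hj1 : sj j ≤ y := by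
      have h1 : (j:ℝ) ≤ (y - 1 - δ / 2) / (δ / 4) := Nat.floor_le hq0
      rw [le_div_iff₀ (by positivity)] at h1
      simp only [hsj]
      linarith
    have hj2 : y < sj j + δ / 4 := by
      have h1 : (y - 1 - δ / 2) / (δ / 4) < j + 1 := Nat.lt_floor_add_one _
      rw [div_lt_iff₀ (by positivity)] at h1
      simp only [hsj]
      linarith
    have hjJ : j ∈ range (J + 1) := by
      rw [mem_range]
      have h1 : (j:ℝ) ≤ J := by
        refine (Nat.floor_le hq0).trans (le_trans ?_ (Nat.le_ceil _))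
        rw [div_le_div_iff₀ (by positivity) hδ]
        nlinarith
      have : j ≤ J := by exact_mod_cast h1
      omega
    rw [mem_biUnion]
    refine ⟨j, hjJ, ?_⟩
    simp only [hbad]
    rw [mem_filter]
    refine ⟨hv, ?_⟩
    have hfl : ⌊L ^ (sj j)⌋₊ ≤ N := by
      have h1 : L ^ (sj j) ≤ N := by
        rw [← hLy]
        exact Real.rpow_le_rpow_of_exponent_le hL1 hj1
      exact Nat.floor_le_of_le h1
    have h1 : ((((Icc 1 ⌊L ^ (sj j)⌋₊).filter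
        (fun n => n0 ≤ n ∧ (pr n + 2 * (Q n + v.1 * R n + v.2)).Prime)).card : ℕ) : ℝ) ≤
        (((Icc 1 N).filter
          (fun n => n0 ≤ n ∧ (pr n + 2 * (Q n + v.1 * R n + v.2)).Prime)).card : ℝ) := by
      exact_mod_cast card_le_card (filter_subset_filter _ (Icc_subset_Icc le_rfl hfl))
    have h2 : (N:ℝ) / L ^ (1 + δ) ≤ L ^ (sj j - 1 - δ / 4) := by
      rw [← hLy, ← Real.rpow_sub hL0]
      exact Real.rpow_le_rpow_of_exponent_le hL1 (by linarith)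
    exact lt_of_le_of_lt h1 (lt_of_lt_of_le hN3 h2)
  calc _ ≤ (((range (J + 1)).biUnion bad).card : ℝ) := by exact_mod_cast card_le_card hsub
    _ ≤ ∑ j ∈ range (J + 1), ((bad j).card : ℝ) := by exact_mod_cast card_biUnion_le
    _ ≤ ∑ _j ∈ range (J + 1), (ε / (J + 1)) * (H:ℝ) ^ 2 := sum_le_sum hbadc
    _ = ε * (H:ℝ) ^ 2 := by
        rw [sum_const, card_range, nsmul_eq_mul]
        push_cast
        field_simp

/-- The polynomials `Q + a R + b` are admissible. -/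
lemma dir_admissible {Q R : Polynomial ℚ} (hQ : ∀ m : ℤ, ∃ k : ℤ, Q.eval (m : ℚ) = (k : ℚ))
    (hR : ∀ m : ℤ, ∃ k : ℤ, R.eval (m : ℚ) = (k : ℚ))
    (hlcQ : 0 ≤ Q.leadingCoeff) (hlcR : 0 < R.leadingCoeff) (hdeg : 1 ≤ R.natDegree)
    {a b : ℕ} (ha : 1 ≤ a) :
    Admissible (Q + (Polynomial.C (a : ℚ) * R + Polynomial.C (b : ℚ))) := by
  constructor
  · intro m
    obtain ⟨k, hk⟩ := hQ m
    obtain ⟨k', hk'⟩ := hR m
    refine ⟨k + (a * k' + b), ?_⟩
    simp [hk, hk']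
  · have hane : (a : ℚ) ≠ 0 := by exact_mod_cast (by omega : a ≠ 0)
    have hapos : (0:ℚ) < a := by exact_mod_cast ha
    set S := Polynomial.C (a : ℚ) * R + Polynomial.C (b : ℚ) with hS
    have hR0 : R ≠ 0 := by
      rintro rfl
      simp at hlcR
    have hCR : (Polynomial.C (a : ℚ) * R).degree = R.degree := degree_C_mul hane
    have hRdeg : 0 < R.degree := by
      rw [degree_eq_natDegree hR0]
      exact_mod_cast hdeg
    have hCdeg : (Polynomial.C (b : ℚ)).degree < (Polynomial.C (a : ℚ) * R).degree := by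
      rw [hCR]
      exact lt_of_le_of_lt degree_C_le hRdeg
    have hSlc : S.leadingCoeff = a * R.leadingCoeff := by
      rw [hS, leadingCoeff_add_of_degree_lt' hCdeg, leadingCoeff_mul, leadingCoeff_C]
    have hSpos : 0 < S.leadingCoeff := by rw [hSlc]; positivity
    rcases lt_trichotomy Q.degree S.degree with h | h | h
    · rw [leadingCoeff_add_of_degree_lt h]
      exact hSpos
    · have hne : Q.leadingCoeff + S.leadingCoeff ≠ 0 := by positivity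
      rw [leadingCoeff_add_of_degree_eq h hne]
      positivity
    · rw [leadingCoeff_add_of_degree_lt' h]
      have : Q ≠ 0 := by
        rintro rfl
        simp at h
      exact lt_of_le_of_ne hlcQ (Ne.symm (leadingCoeff_ne_zero.mpr this))

/-- Almost all perturbations of a fixed integer-valued polynomial in a fixed direction. -/
theorem almost_all_dir (Q R : Polynomial ℚ) (hQ : ∀ m : ℤ, ∃ k : ℤ, Q.eval (m : ℚ) = (k : ℚ))
    (hR : ∀ m : ℤ, ∃ k : ℤ, R.eval (m : ℚ) = (k : ℚ))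
    (hlcQ : 0 ≤ Q.leadingCoeff) (hlcR : 0 < R.leadingCoeff) (hdeg : 1 ≤ R.natDegree)
    (A : ℝ) {δ ε : ℝ} (hδ : 0 < δ) (hε : 0 < ε) :
    ∃ H0 : ℕ, ∀ H : ℕ, H0 ≤ H →
      (1 - ε) * (H:ℝ) ^ 2 ≤ (({v : ℕ × ℕ | (1 ≤ v.1 ∧ v.1 ≤ H) ∧ (1 ≤ v.2 ∧ v.2 ≤ H) ∧
        Admissible (Q + (Polynomial.C (v.1 : ℚ) * R + Polynomial.C (v.2 : ℚ))) ∧
        ∀ N : ℕ, Real.log H ^ (1 + δ) ≤ N → (N:ℝ) ≤ Real.log H ^ A →
          ManyPrimes (Q + (Polynomial.C (v.1 : ℚ) * R + Polynomial.C (v.2 : ℚ)))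
            N ⌈(N:ℝ) / Real.log H ^ (1 + δ)⌉₊}.ncard : ℕ) : ℝ) := by
  classical
  choose Z hZ using hQ
  choose Y hY using hR
  have hfin := finite_neg hlcQ
  obtain ⟨n1, hn1⟩ := hfin.bddAbove
  have hZn : ∀ n : ℕ, Q.eval (n : ℚ) = ((Z (n : ℤ) : ℤ) : ℚ) := by
    intro n
    have := hZ (n : ℤ)
    simpa using this
  have hYn : ∀ n : ℕ, R.eval (n : ℚ) = ((Y (n : ℤ) : ℤ) : ℚ) := by
    intro n
    have := hY (n : ℤ)
    simpa using this
  have hpos : ∀ n : ℕ, n1 + 1 ≤ n → 0 ≤ Z n := by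
    intro n hn
    by_contra hneg
    push Not at hneg
    have h1 : n ∈ {n : ℕ | Q.eval (n : ℚ) < 0} := by
      change Q.eval (n : ℚ) < 0
      rw [hZn]
      exact_mod_cast hneg
    have := hn1 h1
    omega
  obtain ⟨ΔQ, hΔQ, hIVQ⟩ := exists_IV Q Z hZ hpos
  obtain ⟨ΔR, n2, z0, d, C0, hΔR, hdir⟩ := exists_dir R Y hY hlcR hdeg
  set n0 := max (n1 + 1) n2 with hn0
  have hdir' : Dir (ΔQ * ΔR) n0 z0 d C0 (fun n => (Y n).toNat) := hdir.mono' (le_max_right _ _)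
  have hIV' : IV (ΔQ * ΔR) n0 (fun n => (Z n).toNat) := by
    rw [mul_comm]
    exact IV.mono hIVQ (le_max_left _ _)
  have hYpos : ∀ n : ℕ, n0 ≤ n → 0 ≤ Y n := by
    intro n hn
    have := hdir'.pos n hn
    omega
  obtain ⟨A2, hA⟩ := main_all hdir' (Nat.mul_pos hΔQ hΔR) A hδ hε
  rw [← eventually_atTop]
  filter_upwards [hA 0, poly_log_eventually Q A2] with H hH hpoly
  have hmain := hH (fun n => (Z n).toNat) hIV' (by
    intro n hn
    rw [pow_zero, mul_one]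
    have h1 := hpoly n hn
    rw [hZn] at h1
    have h2 : (((Z n).toNat : ℕ) : ℝ) = max ((Z n : ℤ) : ℝ) 0 := by
      have : (((Z n).toNat : ℕ) : ℤ) = max (Z n) 0 := Int.toNat_eq_max (Z n)
      exact_mod_cast congrArg (fun z : ℤ => (z : ℝ)) this
    rw [h2]
    refine max_le ?_ (Nat.cast_nonneg H)
    simpa using h1)
  set L := Real.log H with hL
  have hL0 : 0 ≤ L := Real.log_natCast_nonneg H
  set bad := ({v ∈ Ioc 0 H ×ˢ Ioc 0 H | ¬ ∀ N : ℕ, L ^ (1 + δ) ≤ N → (N:ℝ) ≤ L ^ A →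
        (N:ℝ) / L ^ (1 + δ) ≤ (((Icc 1 N).filter
          (fun n => n0 ≤ n ∧ (pr n + 2 * ((Z n).toNat + v.1 * (Y n).toNat + v.2)).Prime)).card : ℝ)} :
            Finset (ℕ × ℕ)) with hbad
  set good := (Ioc 0 H ×ˢ Ioc 0 H) \ bad with hgood
  have hcard : (good.card : ℝ) ≥ (1 - ε) * (H:ℝ) ^ 2 := by
    have h1 : good.card + bad.card = (Ioc 0 H ×ˢ Ioc 0 H).card :=
      card_sdiff_add_card_eq_card (filter_subset _ _)
    have h2 : ((Ioc 0 H ×ˢ Ioc 0 H).card : ℝ) = (H:ℝ) ^ 2 := by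
      rw [card_product, Nat.card_Ioc]; simp only [Nat.sub_zero]; push_cast; ring
    have h3 : (good.card : ℝ) + bad.card = (H:ℝ) ^ 2 := by rw [← h2]; exact_mod_cast h1
    linarith
  refine hcard.trans ?_
  rw [← Set.ncard_coe_finset]
  have hle := Set.ncard_le_ncard (s := ((good : Finset _) : Set (ℕ × ℕ)))
    (t := {v : ℕ × ℕ | (1 ≤ v.1 ∧ v.1 ≤ H) ∧ (1 ≤ v.2 ∧ v.2 ≤ H) ∧
        Admissible (Q + (Polynomial.C (v.1 : ℚ) * R + Polynomial.C (v.2 : ℚ))) ∧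
        ∀ N : ℕ, L ^ (1 + δ) ≤ N → (N:ℝ) ≤ L ^ A →
          ManyPrimes (Q + (Polynomial.C (v.1 : ℚ) * R + Polynomial.C (v.2 : ℚ)))
            N ⌈(N:ℝ) / L ^ (1 + δ)⌉₊}) ?_ ?_
  · exact_mod_cast hle
  · intro v hv
    rw [mem_coe, hgood, Finset.mem_sdiff, mem_product, mem_Ioc, mem_Ioc] at hv
    obtain ⟨⟨ha, hb⟩, hnb⟩ := hv
    refine ⟨⟨ha.1, ha.2⟩, ⟨hb.1, hb.2⟩, dir_admissible (fun m => ⟨Z m, hZ m⟩)
      (fun m => ⟨Y m, hY m⟩) hlcQ hlcR hdeg ha.1, ?_⟩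
    intro N hN1 hN2
    have hnb' : (N:ℝ) / L ^ (1 + δ) ≤ (((Icc 1 N).filter
          (fun n => n0 ≤ n ∧ (pr n + 2 * ((Z n).toNat + v.1 * (Y n).toNat + v.2)).Prime)).card : ℝ) := by
      rw [hbad, mem_filter, mem_product, mem_Ioc, mem_Ioc] at hnb
      push Not at hnb
      exact hnb ⟨ha, hb⟩ N hN1 hN2
    refine manyPrimes_of' (Nat.cast_nonneg N) (Nat.ceil_le.2 hnb') ?_
    intro n hn
    rw [mem_filter, mem_Icc] at hn
    refine ⟨hn.1.1, by rw [Nat.floor_natCast]; exact hn.1.2, _, hn.2.2, ?_⟩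
    have h1 : (((Z n).toNat : ℕ) : ℚ) = Q.eval (n : ℚ) := by
      rw [hZn n]
      have : (((Z n).toNat : ℕ) : ℤ) = Z n :=
        Int.toNat_of_nonneg (hpos n ((le_max_left _ _).trans hn.2.1))
      exact_mod_cast congrArg (fun z : ℤ => (z : ℚ)) this
    have h2 : (((Y n).toNat : ℕ) : ℚ) = R.eval (n : ℚ) := by
      rw [hYn n]
      have : (((Y n).toNat : ℕ) : ℤ) = Y n := Int.toNat_of_nonneg (hYpos n hn.2.1)
      exact_mod_cast congrArg (fun z : ℤ => (z : ℚ)) this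
    push_cast
    rw [h1, h2]
    simp only [eval_add, eval_mul, eval_C]
    unfold pr
    ring
  · refine Set.Finite.subset (Finset.finite_toSet (Icc 1 H ×ˢ Icc 1 H)) fun v hv => ?_
    rw [mem_coe, mem_product, mem_Icc, mem_Icc]
    exact ⟨hv.1, hv.2.1⟩

/-- Almost all coefficient vectors. -/
theorem almost_all_box2 (e : ℕ) (A : ℝ) {δ ε : ℝ} (hδ : 0 < δ) (hε : 0 < ε) :
    ∃ H0 : ℕ, ∀ H : ℕ, H0 ≤ H →
      (1 - ε) * (H:ℝ) ^ (e + 1 + 1) ≤ (({c : Fin (e + 1 + 1) → ℕ | (∀ k, 1 ≤ c k ∧ c k ≤ H) ∧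
        Admissible (polyOf c) ∧ (polyOf c).natDegree = e + 1 ∧
        ∀ N : ℕ, Real.log H ^ (1 + δ) ≤ N → (N:ℝ) ≤ Real.log H ^ A →
          ManyPrimes (polyOf c) N ⌈(N:ℝ) / Real.log H ^ (1 + δ)⌉₊}.ncard : ℕ) : ℝ) := by
  classical
  obtain ⟨A2, hA⟩ := main_all (dir_id (Δ := (e + 1).factorial)) (Nat.factorial_pos _) A hδ hε
  rw [← eventually_atTop]
  filter_upwards [hA (A2 * (e + 1) + 1), tendsto_log_nat.eventually_ge_atTop ((e:ℝ) + 1)]
    with H hH hLe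
  set L := Real.log H with hL
  have hL1 : 1 ≤ L := by
    have : (0:ℝ) ≤ e := Nat.cast_nonneg e
    linarith
  have hL0 : 0 < L := by linarith
  -- the bad set
  set P : ((Fin e → ℕ) × ℕ × ℕ) → Prop := fun t => ¬ ∀ N : ℕ, L ^ (1 + δ) ≤ N → (N:ℝ) ≤ L ^ A →
        (N:ℝ) / L ^ (1 + δ) ≤ (((Icc 1 N).filter
          (fun n => 1 ≤ n ∧ (pr n + 2 * (Qv t.1 n + t.2.1 * n + t.2.2)).Prime)).card : ℝ) with hP
  have hbadq : ∀ q ∈ PnPoly.box e H, (((Ioc 0 H ×ˢ Ioc 0 H).filter (fun v => P (q, v))).card : ℝ) ≤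
      ε * (H:ℝ) ^ 2 := by
    intro q hq
    have hIV : IV (e + 1).factorial 1 (Qv q) := by
      have := IV.mono (Δ' := 1) (n0' := 1) (IV_Qv q) (Nat.zero_le 1)
      rwa [one_mul] at this
    refine hH (Qv q) hIV ?_
    intro n hn
    have hQ : (Qv q n : ℝ) ≤ e * (H * (L ^ A2) ^ (e + 1)) := by
      unfold Qv
      push_cast
      calc ∑ i : Fin e, (q i : ℝ) * (n.choose (i + 2) : ℝ) ≤
            ∑ _i : Fin e, (H:ℝ) * (L ^ A2) ^ (e + 1) := by
            refine sum_le_sum fun i _ => ?_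
            unfold PnPoly.box at hq
            rw [Fintype.mem_piFinset] at hq
            have h2 := mem_Icc.mp (hq i)
            have h3 : (q i : ℝ) ≤ H := by exact_mod_cast h2.2
            have h4 : (n.choose (i + 2) : ℝ) ≤ (n:ℝ) ^ ((i:ℕ) + 2) := by
              exact_mod_cast Nat.choose_le_pow n (i + 2)
            have h5 : (n:ℝ) ^ ((i:ℕ) + 2) ≤ (L ^ A2) ^ ((i:ℕ) + 2) :=
              pow_le_pow_left₀ (Nat.cast_nonneg n) hn _
            have h6 : (L ^ A2) ^ ((i:ℕ) + 2) ≤ (L ^ A2) ^ (e + 1) :=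
              pow_le_pow_right₀ (one_le_pow₀ hL1) (by have := i.2; omega)
            exact mul_le_mul h3 (h4.trans (h5.trans h6)) (Nat.cast_nonneg _) (Nat.cast_nonneg _)
        _ = e * (H * (L ^ A2) ^ (e + 1)) := by
            rw [sum_const, card_univ, Fintype.card_fin, nsmul_eq_mul]
    refine hQ.trans ?_
    rw [← pow_mul, pow_succ]
    have h7 : 0 ≤ (H:ℝ) * L ^ (A2 * (e + 1)) := by positivity
    nlinarith
  set Tt := PnPoly.box e H ×ˢ (Ioc 0 H ×ˢ Ioc 0 H) with hTt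
  have hTcard : (Tt.card : ℝ) = (H:ℝ) ^ (e + 1 + 1) := by
    rw [hTt, card_product, card_product, card_box, Nat.card_Ioc]
    simp only [Nat.sub_zero]
    push_cast
    ring
  set bad := Tt.filter P with hbad
  have hbadcard : (bad.card : ℝ) ≤ ε * (H:ℝ) ^ (e + 1 + 1) := by
    have h1 : bad.card = ∑ q ∈ PnPoly.box e H, ((Ioc 0 H ×ˢ Ioc 0 H).filter (fun v => P (q, v))).card := by
      rw [hbad, hTt, card_filter, sum_product]
      refine sum_congr rfl fun q _ => ?_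
      rw [card_filter]
    rw [h1]
    push_cast
    calc ∑ q ∈ PnPoly.box e H, (((Ioc 0 H ×ˢ Ioc 0 H).filter (fun v => P (q, v))).card : ℝ) ≤
          ∑ _q ∈ PnPoly.box e H, ε * (H:ℝ) ^ 2 := sum_le_sum hbadq
      _ = ε * (H:ℝ) ^ (e + 1 + 1) := by
          rw [sum_const, card_box, nsmul_eq_mul]
          push_cast
          ring
  set good := Tt \ bad with hgood
  have hcard : (good.card : ℝ) ≥ (1 - ε) * (H:ℝ) ^ (e + 1 + 1) := by
    have h1 : good.card + bad.card = Tt.card :=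
      card_sdiff_add_card_eq_card (filter_subset _ _)
    have h3 : (good.card : ℝ) + bad.card = (H:ℝ) ^ (e + 1 + 1) := by
      rw [← hTcard]; exact_mod_cast h1
    linarith
  refine hcard.trans ?_
  have hcard2 : good.card = (good.image vec).card := (card_image_of_injective _ vec_injective).symm
  rw [hcard2, ← Set.ncard_coe_finset]
  have hle := Set.ncard_le_ncard (s := (((good.image vec : Finset _)) :
      Set (Fin (e + 1 + 1) → ℕ))) (t := {c : Fin (e + 1 + 1) → ℕ | (∀ k, 1 ≤ c k ∧ c k ≤ H) ∧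
        Admissible (polyOf c) ∧ (polyOf c).natDegree = e + 1 ∧
        ∀ N : ℕ, L ^ (1 + δ) ≤ N → (N:ℝ) ≤ L ^ A →
          ManyPrimes (polyOf c) N ⌈(N:ℝ) / L ^ (1 + δ)⌉₊}) ?_ ?_
  · exact_mod_cast hle
  · intro c hc
    rw [mem_coe, mem_image] at hc
    obtain ⟨t, ht, rfl⟩ := hc
    rw [hgood, Finset.mem_sdiff, hTt, mem_product, mem_product, mem_Ioc, mem_Ioc] at ht
    obtain ⟨⟨hq, h1, h0⟩, hnb⟩ := ht
    have hnb' : ∀ N : ℕ, L ^ (1 + δ) ≤ N → (N:ℝ) ≤ L ^ A →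
        (N:ℝ) / L ^ (1 + δ) ≤ (((Icc 1 N).filter
          (fun n => 1 ≤ n ∧ (pr n + 2 * (Qv t.1 n + t.2.1 * n + t.2.2)).Prime)).card : ℝ) := by
      rw [hbad, mem_filter, hTt, mem_product, mem_product, mem_Ioc, mem_Ioc] at hnb
      by_contra hcon
      exact hnb ⟨⟨hq, h1, h0⟩, hcon⟩
    unfold PnPoly.box at hq
    rw [Fintype.mem_piFinset] at hq
    have hrange : ∀ k, 1 ≤ vec t k ∧ vec t k ≤ H := by
      intro k
      unfold vec
      refine Fin.cases ?_ (fun k => ?_) k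
      · simp only [Fin.cons_zero]; exact ⟨h0.1, h0.2⟩
      · simp only [Fin.cons_succ]
        refine Fin.cases ?_ (fun k => ?_) k
        · simp only [Fin.cons_zero]; exact ⟨h1.1, h1.2⟩
        · simp only [Fin.cons_succ]
          have := mem_Icc.mp (hq k)
          exact this
    have hadm := polyOf_admissible (vec t) (fun k => (hrange k).1)
    refine ⟨hrange, hadm.1, hadm.2, fun N hN1 hN2 =>
      manyPrimes_of' (Nat.cast_nonneg N) (Nat.ceil_le.2 (hnb' N hN1 hN2)) ?_⟩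
    intro n hn
    rw [mem_filter, mem_Icc] at hn
    refine ⟨hn.1.1, by rw [Nat.floor_natCast]; exact hn.1.2, _, hn.2.2, ?_⟩
    have h2 : pr n + 2 * (Qv t.1 n + t.2.1 * n + t.2.2) =
        pr n + 2 * (∑ k : Fin (e + 1 + 1), vec t k * n.choose k) := by
      rw [vec_sum]
      unfold uu al
      ring
    rw [h2, polyOf_eval_nat]
    push_cast
    rfl
  · refine Set.Finite.subset (Finset.finite_toSet (Fintype.piFinset fun _ => Icc 1 H))
      fun c hc => ?_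
    rw [mem_coe, Fintype.mem_piFinset]
    intro k
    exact mem_Icc.mpr (hc.1 k)

end Pool.Agent.PnMaynard2
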