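import Pool.Agent.Lib.Maynard.Output

/-!
# Clusters of primes with control in arithmetic progressions, measure with small sup norm

`maynard_sharp`: the measure of `Pool.Agent.Maynard.maynard` with `u(n) ≤ N^(-1+ρ)` for an arbitrary
`ρ > 0` (the level of the sieve weights is `N^(ρ/8)`, the number `k` of shifts depends on `ρ`).
-/

open Finset Filter

namespace Pool.Agent.Maynard

theorem maynard_sharp {θ : ℝ} (hθ : 0 < θ) (hθ2 : θ ≤ 1 / 2) (hBV : BVHyp θ) (m : ℕ) {ρ : ℝ}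
    (hρ : 0 < ρ) :
    ∃ k K0 : ℕ, 1 ≤ k ∧ ∀ W : ℕ, 0 < W → (∀ p, p.Prime → p < K0 → p ∣ W) → ∀ h : Fin k → ℕ,
      (∀ p, p.Prime → ¬ p ∣ W → ∀ i j, i ≠ j → ¬ (h i ≡ h j [MOD p])) →
      ∀ᶠ N : ℕ in atTop, ∀ a : ℕ, (∀ i, (a + h i).Coprime W) →
        ∃ u : ℕ → ℝ, (∀ n, 0 ≤ u n) ∧
          (∀ n, u n ≠ 0 → N < n ∧ n ≤ 2 * N ∧ n ≡ a [MOD W] ∧ m ≤ npr h n) ∧
          ∑ n ∈ Finset.Ioc N (2 * N), u n = 1 ∧
          (∀ n, u n ≤ (N:ℝ) ^ (-1 + ρ : ℝ)) ∧
          ∀ q : ℕ, 0 < q → (q:ℝ) ≤ (N:ℝ) ^ (1/4 : ℝ) → W.Coprime q → ∀ c : ℕ,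
            ∑ n ∈ (Finset.Ioc N (2 * N)).filter (fun n => n ≡ c [MOD q]), u n ≤
              ((k:ℝ) + 1) ^ (2 * q.primeFactors.card + 1) / q := by
  classical
  set δ : ℝ := min (θ / 4) (ρ / 8) with hδ
  have hδ0 : 0 < δ := lt_min (by positivity) (by positivity)
  have hδθ : δ ≤ θ / 4 := min_le_left _ _
  have hδρ : δ ≤ ρ / 8 := min_le_right _ _
  obtain ⟨T, hT2, hTge⟩ := exists_hT_ge (864 * (m + 1) / δ)
  set k := T with hk
  have hh1 := hT_ge_one (T := T) (by omega)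
  have hk' : (2:ℝ) ≤ k := by exact_mod_cast hT2
  set M : ℕ := ⌈8 * (k:ℝ) * hT T⌉₊ with hM
  have hMge : 8 * (k:ℝ) * hT T ≤ M := Nat.le_ceil _
  have hMle : (M:ℝ) ≤ 9 * k * hT T := by
    have h1 := Nat.ceil_lt_add_one (a := 8 * (k:ℝ) * hT T) (by positivity)
    have h2 : 1 ≤ (k:ℝ) * hT T := by nlinarith
    have h3 : (M:ℝ) < 8 * (k:ℝ) * hT T + 1 := h1
    linarith
  have hkh : 0 < (k:ℝ) * hT T := by positivity
  have hM0 : 0 < M := by
    have : (0:ℝ) < M := lt_of_lt_of_le (by positivity) hMge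
    exact_mod_cast this
  have hTM : T ≤ M := by
    have : (T:ℝ) ≤ M := by
      refine le_trans ?_ hMge
      have h1 := mul_le_mul_of_nonneg_left hh1 (show (0:ℝ) ≤ k by linarith)
      linarith
    exact_mod_cast this
  refine ⟨k, 2 ^ (k + 10) * k, by omega, fun W hW hWp h hsep => ?_⟩
  have herrs : ∀ᶠ N : ℕ in atTop, ∀ i : Fin k, ∀ (P : Finset ℕ) (K0 R : ℕ), Setting P W K0 R →
      R ≤ N → W * (R * R) ≤ N → W * (R * R) ≤ ⌊((3 * N : ℕ):ℝ) ^ θ⌋₊ →
      L0 P k ^ 2 * ∑ B : P → Bool, FB P N (h i) W (R * R) B *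
        pm (fun _ => (2 * (k:ℝ) + 1) ^ 2) B ≤ N / (Real.log N) ^ 2 :=
    eventually_all.2 fun i => ev_err hBV k W hW (h i)
  have hshift : ∀ᶠ N : ℕ in atTop, ∀ i : Fin k, h i ≤ N :=
    eventually_all.2 fun i => eventually_ge_atTop (h i)
  have hWpos : (0:ℝ) < W := by exact_mod_cast hW
  filter_upwards [ev_ZZ hδ0 hM0, herrs, hshift,
    ev_log_ge (64 * (k:ℝ) * KV W / (cW W * (δ / (2 * M)))), ev_log_ge (8 * W),
    ev_log_ge (2 * M / δ), ev_log_ge 2,
    ev_rpow_ge (s := θ / 2) (by positivity) W, ev_rpow_ge (s := 1 / 4) (by norm_num) (k * W),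
    ev_rpow_ge (s := ρ / 2) (by positivity) (k * W),
    ev_LL_pow_le (s := δ) hδ0 (4 * k), eventually_ge_atTop 3]
    with N hZZ herr hsh hlogK hlogW hlogM hlog2 hWθ hkW hkWρ hLLk hN3 a ha
  obtain ⟨hZ2, hlogZ⟩ := hZZ
  set Z := ZZ δ M N with hZ
  set R := Z ^ M with hR
  set x := Real.log N with hx
  have hx0 : 0 < x := by linarith
  have hN0 : (0:ℝ) < N := by exact_mod_cast (show 0 < N by omega)
  have hN1 : (1:ℝ) ≤ N := by exact_mod_cast (show 1 ≤ N by omega)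
  set P : Finset ℕ := (Finset.range (R + 1)).filter (fun p => p.Prime ∧ ¬ p ∣ W) with hP
  have hS : Setting P W (2 ^ (k + 10) * k) R :=
    { prime := fun p hp => (Finset.mem_filter.1 hp).2.1
      ndvd := fun p hp => (Finset.mem_filter.1 hp).2.2
      ge := fun p hp => by
        by_contra hcon
        push Not at hcon
        exact (Finset.mem_filter.1 hp).2.2 (hWp p (Finset.mem_filter.1 hp).2.1 hcon)
      le := fun p hp => by
        have := Finset.mem_range.1 (Finset.mem_filter.1 hp).1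
        omega
      mem := fun p h1 h2 h3 => Finset.mem_filter.2 ⟨Finset.mem_range.2 (by omega), h1, h2⟩ }
  have hsepP : Sep P h := fun p hp i j hij => hsep p (hS.prime p hp) (hS.ndvd p hp) i j hij
  have hkP : ∀ p ∈ P, k ≤ p := by
    intro p hp
    have h1 := hS.ge p hp
    have h2 : 1 * k ≤ 2 ^ (k + 10) * k := Nat.mul_le_mul_right k Nat.one_le_two_pow
    omega
  -- sizes
  have hRN : ((R : ℕ) : ℝ) ≤ (N:ℝ) ^ δ := ZZ_pow_le hM0 (by omega)
  have hδ8 : δ ≤ 1 / 8 := by linarith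
  have hRRN : ((R * R : ℕ) : ℝ) ≤ (N:ℝ) ^ (θ / 2) := by
    push_cast
    calc (R:ℝ) * R ≤ (N:ℝ) ^ δ * (N:ℝ) ^ δ := by gcongr
      _ = (N:ℝ) ^ (δ + δ) := by rw [← Real.rpow_add hN0]
      _ ≤ (N:ℝ) ^ (θ / 2) := Real.rpow_le_rpow_of_exponent_le hN1 (by linarith)
  have hWRR : ((W * (R * R) : ℕ) : ℝ) ≤ (N:ℝ) ^ θ := by
    push_cast at hRRN ⊢
    calc (W:ℝ) * (R * R) ≤ (N:ℝ) ^ (θ / 2) * (N:ℝ) ^ (θ / 2) := by gcongr
      _ = (N:ℝ) ^ θ := by
          rw [← Real.rpow_add hN0]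
          congr 1
          ring
  have hWRRN : W * (R * R) ≤ N := by
    have h1 : (N:ℝ) ^ θ ≤ (N:ℝ) ^ (1:ℝ) := Real.rpow_le_rpow_of_exponent_le hN1 (by linarith)
    rw [Real.rpow_one] at h1
    exact_mod_cast hWRR.trans h1
  have hWRRθ : W * (R * R) ≤ ⌊((3 * N : ℕ):ℝ) ^ θ⌋₊ := by
    refine Nat.le_floor (hWRR.trans ?_)
    push_cast
    exact Real.rpow_le_rpow hN0.le (by linarith) hθ.le
  have hR1 : 1 ≤ R := Nat.one_le_pow _ _ (by omega)
  have hRleN : R ≤ N := by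
    have h1 : R * 1 ≤ R * R := Nat.mul_le_mul_left R hR1
    have h2 : 1 * (R * R) ≤ W * (R * R) := Nat.mul_le_mul_right _ hW
    omega
  have hR1r : (1:ℝ) ≤ R := by exact_mod_cast hR1
  -- the sup norm bound
  have hLLR : LL R ^ (4 * k) ≤ (N:ℝ) ^ δ :=
    (pow_le_pow_left₀ (by have := LL_ge_one R; linarith) (LL_mono hRleN) _).trans hLLk
  have hsup : ((Z:ℝ) ^ M * LL R ^ (4 * k)) ^ 2 ≤ (N:ℝ) ^ (4 * δ) := by
    have h1 : (Z:ℝ) ^ M ≤ (N:ℝ) ^ δ := by
      have h2 : ((R : ℕ) : ℝ) = (Z:ℝ) ^ M := by rw [hR]; push_cast; rfl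
      rw [← h2]
      exact hRN
    have h3 : (Z:ℝ) ^ M * LL R ^ (4 * k) ≤ (N:ℝ) ^ δ * (N:ℝ) ^ δ := by
      have := LL_ge_one R
      gcongr
    have h4 : 0 ≤ (Z:ℝ) ^ M * LL R ^ (4 * k) := by
      have := LL_ge_one R
      positivity
    refine (pow_le_pow_left₀ h4 h3 2).trans (le_of_eq ?_)
    rw [← Real.rpow_add hN0, ← Real.rpow_natCast, ← Real.rpow_mul hN0.le]
    congr 1
    push_cast
    ring
  -- model
  have hcWpos := cW_pos hW
  have hKVpos := KV_pos hW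
  have hM' : (0:ℝ) < M := by exact_mod_cast hM0
  have hZK : 64 * (k:ℝ) * KV W ≤ cW W * Real.log Z := by
    have h1 : cW W * (δ / (2 * M)) * (64 * (k:ℝ) * KV W / (cW W * (δ / (2 * M)))) ≤
        cW W * (δ / (2 * M)) * x := mul_le_mul_of_nonneg_left hlogK (by positivity)
    have h2 : cW W * (δ / (2 * M)) * (64 * (k:ℝ) * KV W / (cW W * (δ / (2 * M)))) =
        64 * (k:ℝ) * KV W := by
      field_simp
    have h3 : cW W * (δ / (2 * M) * x) ≤ cW W * Real.log Z :=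
      mul_le_mul_of_nonneg_left hlogZ hcWpos.le
    linarith
  obtain ⟨hmod1, hmod2⟩ := model_bounds (P := P) (M := M) (T := T) (k := k) hS hW hT2 (by omega)
    le_rfl hMge le_rfl hZ2 (Nat.pow_le_pow_right (by omega) hTM) hZK
  set D := cW W * Real.log Z with hD
  have hG1 := gT2_ge_one (T := T) (by omega)
  have hG2 := gT2_le_two T
  have hKV1 : 1 ≤ KV W := by
    unfold KV
    have := KW_pos hW
    linarith
  have hD1 : 1 ≤ D := by
    refine le_trans ?_ hZK
    have h1 := mul_le_mul (show (1:ℝ) ≤ 64 * k by linarith) hKV1 zero_le_one (by positivity)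
    rwa [one_mul] at h1
  set Sk := SS k W Z T with hSk
  have hSk1 : 1 ≤ Sk := by
    rw [hSk]; unfold SS
    rw [← hD]
    refine one_le_pow₀ ?_
    exact one_le_mul_of_one_le_of_one_le hD1 hG1
  have hSk0 : 0 < Sk := by linarith
  have hSksplit : Sk = SS (k - 1) W Z T * (D * gT2 T) := by
    rw [hSk]; unfold SS
    rw [← hD, ← pow_succ]
    congr 1
    omega
  set X : ℝ := (N:ℝ) / W with hX
  have hX0 : 0 < X := by positivity
  set g : ℕ → ℝ := fun n => GG (cc Z T M) (JJ (P := P) h n) ^ 2 with hg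
  have hg0 : ∀ n, 0 ≤ g n := fun n => sq_nonneg _
  have hgsup : ∀ n, g n ≤ (N:ℝ) ^ (4 * δ) := by
    intro n
    refine le_trans ?_ hsup
    simp only [hg]
    rw [← sq_abs]
    exact pow_le_pow_left₀ (abs_nonneg _) (abs_GG_le hS.prime hS.le hZ2 _) 2
  -- S1
  have hS1 : ∀ q : ℕ, 0 < q → (q:ℝ) ≤ (N:ℝ) ^ (1/4 : ℝ) → ∀ a' : ℕ,
      ∑ n ∈ (Finset.Ioc N (2 * N)).filter (fun n => n ≡ a' [MOD (W * q)]), g n ≤
        ((k:ℝ) + 1) ^ (2 * (P.filter (· ∣ q)).card) * (3 * (X / q) * Sk) := by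
    intro q hq hqN a'
    have h1 := sum_GG_le hS hZ2 hsepP hW hq N a' (hmod1 q)
    refine h1.trans ?_
    have hq' : (0:ℝ) < q := by exact_mod_cast hq
    have h2 : ((Z:ℝ) ^ M * LL R ^ (4 * k)) ^ 2 ≤ X / q := by
      refine hsup.trans ((Real.rpow_le_rpow_of_exponent_le hN1
        (show 4 * δ ≤ 1 / 2 by linarith)).trans ?_)
      rw [hX, div_div, le_div_iff₀ (by positivity)]
      have h3 : (W:ℝ) ≤ (N:ℝ) ^ (1/4 : ℝ) := by
        refine le_trans ?_ hkW
        exact le_mul_of_one_le_left hWpos.le (by linarith)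
      calc (N:ℝ) ^ (1 / 2 : ℝ) * (W * q) ≤ (N:ℝ) ^ (1 / 2 : ℝ) *
            ((N:ℝ) ^ (1/4 : ℝ) * (N:ℝ) ^ (1/4 : ℝ)) := by gcongr
        _ = N := by
            rw [← Real.rpow_add hN0, ← Real.rpow_add hN0]
            norm_num
    have h4 : (1:ℝ) ≤ ((k:ℝ) + 1) ^ (2 * (P.filter (· ∣ q)).card) :=
      one_le_pow₀ (by linarith)
    have h5 : (N:ℝ) / (W * q : ℕ) = X / q := by
      rw [hX]; push_cast; rw [div_div]
    rw [h5]
    have h6 : X / q ≤ ((k:ℝ) + 1) ^ (2 * (P.filter (· ∣ q)).card) * ((X / q) * Sk) := by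
      have : 0 < X / q := by positivity
      calc X / q = 1 * ((X / q) * 1) := by ring
        _ ≤ _ := by gcongr
    calc X / q * (((k:ℝ) + 1) ^ (2 * (P.filter (· ∣ q)).card) * (2 * Sk)) +
          ((Z:ℝ) ^ M * LL R ^ (4 * k)) ^ 2
        ≤ X / q * (((k:ℝ) + 1) ^ (2 * (P.filter (· ∣ q)).card) * (2 * Sk)) +
          ((k:ℝ) + 1) ^ (2 * (P.filter (· ∣ q)).card) * ((X / q) * Sk) :=
          add_le_add le_rfl (h2.trans h6)
      _ = _ := by ring
  set A := (Finset.Ioc N (2 * N)).filter (fun n => n ≡ a [MOD W]) with hA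
  -- S2
  have hlogZ1 : 1 ≤ Real.log Z := by
    refine le_trans ?_ hlogZ
    have h1 : δ / (2 * M) * (2 * M / δ) ≤ δ / (2 * M) * x :=
      mul_le_mul_of_nonneg_left hlogM (by positivity)
    have h2 : δ / (2 * M) * (2 * M / δ) = 1 := by field_simp
    linarith
  have hS2 : ∀ i : Fin k, X * (1 / 8) * Real.log Z * hT T ^ 2 * Sk ≤
      ∑ n ∈ A, tht (n + h i) * g n := by
    intro i
    have h1 := sum_theta_ge (T := T) hS hZ2 hsepP hRleN i (ha i)
    have h2 := herr i P (2 ^ (k + 10) * k) R hS hRleN hWRRN hWRRθ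
    have h3 := hmod2 i
    have htot : (0:ℝ) < Nat.totient W := by exact_mod_cast Nat.totient_pos.2 hW
    have h4 : (N:ℝ) / Nat.totient W * (1 / 2 * D ^ 2 * hT T ^ 2 * SS (k - 1) W Z T) ≤
        (N:ℝ) / Nat.totient W * EG (fun p : P => w2 i (p:ℕ)) (cc Z T M) :=
      mul_le_mul_of_nonneg_left h3 (by positivity)
    have hSk10 : 0 ≤ SS (k - 1) W Z T := by unfold SS; rw [← hD]; positivity
    have h5 : X * (1 / 4) * Real.log Z * hT T ^ 2 * Sk ≤
        (N:ℝ) / Nat.totient W * (1 / 2 * D ^ 2 * hT T ^ 2 * SS (k - 1) W Z T) := by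
      have e1 : (N:ℝ) / Nat.totient W * D = X * Real.log Z := by
        rw [hD, hX]; unfold cW
        field_simp
      have e2 : (N:ℝ) / Nat.totient W * (1 / 2 * D ^ 2 * hT T ^ 2 * SS (k - 1) W Z T) =
          (X * Real.log Z) * (1 / 2) * hT T ^ 2 * (SS (k - 1) W Z T * D) := by
        rw [← e1]; ring
      rw [e2, hSksplit]
      have e3 : SS (k - 1) W Z T * (D * gT2 T) ≤ 2 * (SS (k - 1) W Z T * D) := by
        have : 0 ≤ SS (k - 1) W Z T * D := by positivity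
        have h6 := mul_le_mul_of_nonneg_left hG2 this
        linarith only [h6]
      have e4 : 0 ≤ X * (1 / 4) * Real.log Z * hT T ^ 2 := by positivity
      calc X * (1 / 4) * Real.log Z * hT T ^ 2 * (SS (k - 1) W Z T * (D * gT2 T))
          ≤ X * (1 / 4) * Real.log Z * hT T ^ 2 * (2 * (SS (k - 1) W Z T * D)) :=
            mul_le_mul_of_nonneg_left e3 e4
        _ = _ := by ring
    have h6 : (N:ℝ) / x ^ 2 ≤ X * (1 / 8) * Real.log Z * hT T ^ 2 * Sk := by
      have e1 : (N:ℝ) / x ^ 2 ≤ X * (1 / 8) := by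
        rw [hX, div_mul_eq_mul_div, div_le_div_iff₀ (by positivity) hWpos]
        have e5 : 8 * (W:ℝ) ≤ x ^ 2 := hlogW.trans (le_self_pow₀ (by linarith) two_ne_zero)
        have e6 := mul_le_mul_of_nonneg_left e5 hN0.le
        linarith only [e6]
      have e2 : 1 ≤ Real.log Z * hT T ^ 2 * Sk := by
        have : 1 ≤ hT T ^ 2 := one_le_pow₀ hh1
        have : 1 ≤ Real.log Z * hT T ^ 2 := one_le_mul_of_one_le_of_one_le hlogZ1 this
        exact one_le_mul_of_one_le_of_one_le this hSk1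
      calc (N:ℝ) / x ^ 2 ≤ X * (1 / 8) := e1
        _ = X * (1 / 8) * 1 := by ring
        _ ≤ X * (1 / 8) * (Real.log Z * hT T ^ 2 * Sk) := by gcongr
        _ = _ := by ring
    have h7 : X * (1 / 4) * Real.log Z * hT T ^ 2 * Sk =
        2 * (X * (1 / 8) * Real.log Z * hT T ^ 2 * Sk) := by ring
    have h8 := h1
    simp only [hg]
    linarith
  -- combination
  set ℓ := Real.log (3 * N : ℕ) with hℓ
  have hℓ2 : ℓ ≤ 2 * x := by
    rw [hℓ]; push_cast
    rw [Real.log_mul (by norm_num) hN0.ne']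
    have : Real.log 3 ≤ x := Real.log_le_log (by norm_num) (by exact_mod_cast hN3)
    linarith
  have hℓ0 : 0 < ℓ := by
    rw [hℓ]
    refine Real.log_pos ?_
    exact_mod_cast (show 1 < 3 * N by omega)
  have hcomb : ∑ i : Fin k, ∑ n ∈ A, tht (n + h i) * g n ≤ ℓ * ∑ n ∈ A, (npr h n : ℝ) * g n := by
    rw [Finset.sum_comm, Finset.mul_sum]
    refine Finset.sum_le_sum fun n hn => ?_
    have hn' := Finset.mem_filter.1 hn
    have hn2 := Finset.mem_Ioc.1 hn'.1
    rw [← Finset.sum_mul]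
    have h1 : ∑ i : Fin k, tht (n + h i) ≤ ℓ * (npr h n : ℝ) := by
      unfold npr
      rw [mul_comm, ← nsmul_eq_mul, ← Finset.sum_const, Finset.sum_filter]
      refine Finset.sum_le_sum fun i _ => ?_
      unfold tht
      split_ifs with hp
      · refine Real.log_le_log ?_ ?_
        · exact_mod_cast hp.pos
        · have := hsh i
          exact_mod_cast (show n + h i ≤ 3 * N by omega)
      · exact le_rfl
    calc (∑ i : Fin k, tht (n + h i)) * g n ≤ (ℓ * (npr h n : ℝ)) * g n :=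
          mul_le_mul_of_nonneg_right h1 (hg0 n)
      _ = _ := by ring
  have hmain : 3 * ((m:ℝ) + 1) * (X * Sk) ≤ ∑ n ∈ A, (npr h n : ℝ) * g n := by
    have h1 : (k:ℝ) * (X * (1 / 8) * Real.log Z * hT T ^ 2 * Sk) ≤
        ∑ i : Fin k, ∑ n ∈ A, tht (n + h i) * g n := by
      calc (k:ℝ) * (X * (1 / 8) * Real.log Z * hT T ^ 2 * Sk) =
            ∑ _i : Fin k, (X * (1 / 8) * Real.log Z * hT T ^ 2 * Sk) := by
            rw [Finset.sum_const, Finset.card_univ, Fintype.card_fin, nsmul_eq_mul]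
        _ ≤ _ := Finset.sum_le_sum fun i _ => hS2 i
    have h2 := h1.trans hcomb
    have h3 : δ * x / (18 * k * hT T) ≤ Real.log Z := by
      refine le_trans ?_ hlogZ
      have hdm : δ / (2 * M) * x = δ * x / (2 * M) := div_mul_eq_mul_div _ _ _
      rw [hdm]
      have hM2 : 2 * (M:ℝ) ≤ 18 * k * hT T := by linarith
      have hM3 : (0:ℝ) < 2 * (M:ℝ) := by positivity
      have hδx : 0 ≤ δ * x := by positivity
      exact div_le_div_of_nonneg_left hδx hM3 hM2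
    have h4 : 3 * ((m:ℝ) + 1) * (X * Sk) * ℓ ≤
        (k:ℝ) * (X * (1 / 8) * Real.log Z * hT T ^ 2 * Sk) := by
      have e1 : 864 * ((m:ℝ) + 1) ≤ hT T * δ := by
        rw [div_le_iff₀ hδ0] at hTge
        exact hTge
      have e2 : (k:ℝ) * (X * (1 / 8) * (δ * x / (18 * k * hT T)) * hT T ^ 2 * Sk) =
          X * Sk * x * (hT T * δ) / 144 := by
        field_simp
        ring
      have e3 : (k:ℝ) * (X * (1 / 8) * (δ * x / (18 * k * hT T)) * hT T ^ 2 * Sk) ≤
          (k:ℝ) * (X * (1 / 8) * Real.log Z * hT T ^ 2 * Sk) := by gcongr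
      have e4 : 3 * ((m:ℝ) + 1) * (X * Sk) * ℓ ≤ 3 * ((m:ℝ) + 1) * (X * Sk) * (2 * x) := by gcongr
      have e5 : X * Sk * x * (864 * ((m:ℝ) + 1)) ≤ X * Sk * x * (hT T * δ) := by gcongr
      rw [e2] at e3
      linarith
    have h5 : ℓ * (3 * ((m:ℝ) + 1) * (X * Sk)) ≤ ℓ * ∑ n ∈ A, (npr h n : ℝ) * g n := by linarith
    exact le_of_mul_le_mul_left h5 hℓ0
  have hone : ∑ n ∈ A, g n ≤ 3 * X * Sk := by
    have h1 := hS1 1 one_pos (by
      push_cast
      exact Real.one_le_rpow hN1 (by norm_num)) a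
    rw [mul_one] at h1
    have h2 : (P.filter (· ∣ 1)).card = 0 := by
      rw [Finset.card_eq_zero, Finset.filter_eq_empty_iff]
      intro p hp h3
      rw [Nat.dvd_one] at h3
      exact (hS.prime p hp).one_lt.ne' h3
    rw [h2] at h1
    simp only [mul_zero, pow_zero, one_mul, Nat.cast_one, div_one] at h1
    exact h1
  set U := ∑ n ∈ A, (if m ≤ npr h n then g n else 0) with hU
  have hUk : 3 * X * Sk ≤ k * U := by
    have h1 : ∑ n ∈ A, (npr h n : ℝ) * g n ≤ k * U + m * ∑ n ∈ A, g n := by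
      rw [hU, Finset.mul_sum, Finset.mul_sum, ← Finset.sum_add_distrib]
      refine Finset.sum_le_sum fun n _ => ?_
      have hgn := hg0 n
      split_ifs with hc
      · have : (npr h n : ℝ) ≤ k := by exact_mod_cast npr_le h n
        have h2 : (npr h n : ℝ) * g n ≤ k * g n := mul_le_mul_of_nonneg_right this hgn
        have h3 : 0 ≤ (m:ℝ) * g n := by positivity
        linarith
      · have : (npr h n : ℝ) ≤ m := by exact_mod_cast (by omega : npr h n ≤ m)
        have h2 : (npr h n : ℝ) * g n ≤ m * g n := mul_le_mul_of_nonneg_right this hgn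
        linarith
    have h2 : (m:ℝ) * ∑ n ∈ A, g n ≤ m * (3 * X * Sk) :=
      mul_le_mul_of_nonneg_left hone (Nat.cast_nonneg m)
    linarith
  have hkpos : (0:ℝ) < k := by linarith
  have hUpos : 0 < U := by
    have : 0 < (k:ℝ) * U := lt_of_lt_of_le (by positivity) hUk
    exact (pos_iff_pos_of_mul_pos this).1 hkpos
  refine ⟨fun n => if n ∈ A ∧ m ≤ npr h n then g n / U else 0, fun n => ?_, fun n hn => ?_, ?_,
    fun n => ?_, fun q hq hqN hWq c => ?_⟩
  · dsimp only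
    split_ifs
    · exact div_nonneg (hg0 n) hUpos.le
    · exact le_rfl
  · dsimp only at hn
    split_ifs at hn with hc
    · obtain ⟨h1, h2⟩ := hc
      have h3 := Finset.mem_filter.1 h1
      have h4 := Finset.mem_Ioc.1 h3.1
      exact ⟨h4.1, h4.2, h3.2, h2⟩
    · exact absurd rfl hn
  · have h1 : ∑ n ∈ Finset.Ioc N (2 * N), (if n ∈ A ∧ m ≤ npr h n then g n / U else 0) =
        ∑ n ∈ A, (if m ≤ npr h n then g n else 0) / U := by
      rw [hA, Finset.sum_filter]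
      refine Finset.sum_congr rfl fun n hn => ?_
      simp only [Finset.mem_filter, hn, true_and]
      by_cases h2 : n ≡ a [MOD W]
      · by_cases h3 : m ≤ npr h n
        · simp [h2, h3]
        · simp [h3]
      · simp [h2]
    rw [h1, ← Finset.sum_div, ← hU, div_self hUpos.ne']
  · have h1 : (N:ℝ) ^ (4 * δ) / U ≤ (N:ℝ) ^ (-1 + ρ : ℝ) := by
      rw [div_le_iff₀ hUpos]
      have h2 : 3 * X ≤ k * U := by
        refine le_trans ?_ hUk
        exact le_mul_of_one_le_right (by positivity) hSk1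
      have h3 : 3 * (N:ℝ) ≤ k * W * U := by
        rw [hX] at h2
        have h4 : 3 * ((N:ℝ) / W) * W ≤ k * U * W := mul_le_mul_of_nonneg_right h2 hWpos.le
        have h5 : 3 * ((N:ℝ) / W) * W = 3 * N := by field_simp
        linarith
      have h4 : (N:ℝ) ≤ (N:ℝ) ^ (ρ / 2) * U := by
        have h5 : (k:ℝ) * W * U ≤ (N:ℝ) ^ (ρ / 2) * U :=
          mul_le_mul_of_nonneg_right hkWρ hUpos.le
        linarith
      have h5 : (N:ℝ) ^ (4 * δ) ≤ (N:ℝ) ^ (-1 + ρ / 2) * N := by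
        nth_rewrite 3 [← Real.rpow_one (N:ℝ)]
        rw [← Real.rpow_add hN0]
        exact Real.rpow_le_rpow_of_exponent_le hN1 (by linarith)
      refine h5.trans ?_
      calc (N:ℝ) ^ (-1 + ρ / 2) * N ≤ (N:ℝ) ^ (-1 + ρ / 2) * ((N:ℝ) ^ (ρ / 2) * U) := by gcongr
        _ = (N:ℝ) ^ (-1 + ρ : ℝ) * U := by
            rw [← mul_assoc, ← Real.rpow_add hN0]
            congr 2
            ring
    dsimp only
    split_ifs
    · exact (div_le_div_of_nonneg_right (hgsup n) hUpos.le).trans h1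
    · positivity
  · obtain ⟨a', ha1, ha2⟩ := Nat.chineseRemainder hWq a c
    have h1 := hS1 q hq hqN a'
    have hq' : (0:ℝ) < q := by exact_mod_cast hq
    have h2 : ∑ n ∈ (Finset.Ioc N (2 * N)).filter (fun n => n ≡ c [MOD q]),
        (if n ∈ A ∧ m ≤ npr h n then g n / U else 0) ≤
        (∑ n ∈ (Finset.Ioc N (2 * N)).filter (fun n => n ≡ a' [MOD (W * q)]), g n) / U := by
      rw [Finset.sum_div, Finset.sum_filter, Finset.sum_filter]
      refine Finset.sum_le_sum fun n hn => ?_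
      have hgU : 0 ≤ g n / U := div_nonneg (hg0 n) hUpos.le
      split_ifs with h3 h4 h5
      · exact le_rfl
      · exfalso
        apply h5
        rw [← Nat.modEq_and_modEq_iff_modEq_mul hWq]
        exact ⟨(Finset.mem_filter.1 h4.1).2.trans ha1.symm, h3.trans ha2.symm⟩
      · exact hgU
      · exact le_rfl
      · exact hgU
      · exact le_rfl
    refine h2.trans ?_
    have h3 : (P.filter (· ∣ q)).card ≤ q.primeFactors.card := by
      refine Finset.card_le_card fun p hp => ?_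
      obtain ⟨h4, h5⟩ := Finset.mem_filter.1 hp
      exact Nat.mem_primeFactors.2 ⟨hS.prime p h4, h5, hq.ne'⟩
    have h4 : ((k:ℝ) + 1) ^ (2 * (P.filter (· ∣ q)).card) ≤
        ((k:ℝ) + 1) ^ (2 * q.primeFactors.card) :=
      pow_le_pow_right₀ (by linarith) (by omega)
    calc (∑ n ∈ (Finset.Ioc N (2 * N)).filter (fun n => n ≡ a' [MOD (W * q)]), g n) / U
        ≤ (((k:ℝ) + 1) ^ (2 * (P.filter (· ∣ q)).card) * (3 * (X / q) * Sk)) / U :=
          div_le_div_of_nonneg_right h1 hUpos.le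
      _ ≤ (((k:ℝ) + 1) ^ (2 * q.primeFactors.card) * (3 * (X / q) * Sk)) / U :=
          div_le_div_of_nonneg_right (mul_le_mul_of_nonneg_right h4
            (mul_nonneg (mul_nonneg (by norm_num) (div_nonneg hX0.le hq'.le)) hSk0.le)) hUpos.le
      _ = ((k:ℝ) + 1) ^ (2 * q.primeFactors.card) / q * ((3 * X * Sk) / U) := by
          field_simp
      _ ≤ ((k:ℝ) + 1) ^ (2 * q.primeFactors.card) / q * (k:ℝ) := by
          have : (3 * X * Sk) / U ≤ k := by
            rw [div_le_iff₀ hUpos]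
            exact hUk
          gcongr
      _ ≤ ((k:ℝ) + 1) ^ (2 * q.primeFactors.card) / q * ((k:ℝ) + 1) := by
          gcongr
          linarith
      _ = _ := by rw [pow_succ]; ring

end Pool.Agent.Maynard
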