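import Pool.Agent.PnMaynard2.Collide
import Pool.Agent.PnMaynard2.Sharp

/-!
# A measure on indices `n` with small sup norm and controlled collisions
-/

open Finset Filter

namespace Pool.Agent.PnMaynard2

open Pool.Agent.PnPoly Pool.Agent.Maynard Pool.Agent.PnMaynard

/-- The measure: for every family `Lf m n` of primes at which the residue of `p_n` lies in at most
`d` classes (given `m`), the average of the factor is at most `1 + ε`. -/
theorem cluster_measure2 {Δ : ℕ} (hΔ : 1 ≤ Δ) (z0 d C0 : ℕ) {ε ρ : ℝ} (hε : 0 < ε) (hρ : 0 < ρ) :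
    ∃ g : ℕ, 1 ≤ g ∧ 2 ∣ g ∧ (∀ l, l.Prime → l ≤ z0 → l ∣ g) ∧ (∀ l, l.Prime → l ∣ Δ → l ∣ g) ∧
      ∃ M : ℝ, 1 ≤ M ∧
      ∀ n0 a0 r : ℕ, a0.Coprime g → ∀ᶠ N : ℕ in atTop, ∃ ν : ℕ → ℝ, (∀ n, 0 ≤ ν n) ∧
        (∀ n, ν n ≠ 0 → ((1 ≤ n ∧ n ≤ 3 * N) ∧ pr n ≤ 3 * N) ∧ n0 ≤ n ∧ n ≡ r [MOD g * Δ] ∧
          pr n ≡ a0 [MOD g]) ∧
        ∑ n ∈ Icc 1 (3 * N), ν n = 1 ∧ (∀ n, ν n ≤ M * (N:ℝ) ^ (-1 + ρ : ℝ)) ∧
        ∀ Lf : ℕ → ℕ → Finset ℕ, (∀ m n, ∀ l ∈ Lf m n, l.Prime ∧ ¬ l ∣ g) →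
          (∀ m n, ∏ l ∈ Lf m n, l ≤ N ^ C0) →
          (∀ m l, l.Prime → ¬ l ∣ g → ∃ S : Finset ℕ, S.card ≤ d ∧
            ∀ n, l ∈ Lf m n → ∃ s ∈ S, pr n ≡ s [MOD l]) →
          ∑ m ∈ Icc 1 (3 * N), ∑ n ∈ Icc 1 (3 * N), ν m * ν n * (if m = n then 0 else
            ∏ l ∈ Lf m n, ((l:ℝ) / ((l:ℝ) - 1))) ≤ 1 + ε := by
  classical
  set δ : ℝ := min (1/8) (ε/8) with hδ
  have hδ0 : 0 < δ := lt_min (by norm_num) (by positivity)
  have hδ1 : δ ≤ 1/8 := min_le_left _ _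
  have hδ2 : δ ≤ ε/8 := min_le_right _ _
  set d1 := d + 1 with hd1
  have hd1p : 1 ≤ d1 := by omega
  have hd1r : (1:ℝ) ≤ d1 := by exact_mod_cast hd1p
  set z3 := max (max Δ z0) (⌈(d1:ℝ)/δ⌉₊ + 2) with hz3
  have hz3Δ : Δ ≤ z3 := (le_max_left _ _).trans (le_max_left _ _)
  have hz30 : z0 ≤ z3 := (le_max_right _ _).trans (le_max_left _ _)
  have hz3δ : ⌈(d1:ℝ)/δ⌉₊ + 2 ≤ z3 := le_max_right _ _
  have hz32 : 2 ≤ z3 := by omega
  set g := PP z3 with hg
  have hg0 : 1 ≤ g := PP_pos z3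
  have hgd : ∀ l, l.Prime → (l ∣ g ↔ l ≤ z3) := fun l hl => dvd_PP hl
  have hg2 : 2 ∣ g := (hgd 2 Nat.prime_two).2 hz32
  obtain ⟨k, K0, hk1, hmay⟩ := maynard_sharp (θ := 1/4) (by norm_num) (by norm_num)
    (bvHyp (by norm_num)) (g * Δ) hρ
  set K1 := max (max K0 z3) (max (((k+1) * d1)^2) ⌈2 * (((k:ℝ)+1) * d1)^4 / δ⌉₊) with hK1
  have hK1a : K0 ≤ K1 := (le_max_left _ _).trans (le_max_left _ _)
  have hK1b : z3 ≤ K1 := (le_max_right _ _).trans (le_max_left _ _)
  have hK1c : ((k+1) * d1)^2 ≤ K1 := (le_max_left _ _).trans (le_max_right _ _)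
  have hK1d : ⌈2 * (((k:ℝ)+1) * d1)^4 / δ⌉₊ ≤ K1 := (le_max_right _ _).trans (le_max_right _ _)
  have hK1pos : 1 ≤ K1 := by omega
  have hK1r : (0:ℝ) < K1 := by exact_mod_cast hK1pos
  have hδK : 2 * (((k:ℝ) + 1) * d1) ^ 4 / K1 ≤ δ := by
    have h1 : 2 * (((k:ℝ)+1) * d1)^4 / δ ≤ K1 := (Nat.le_ceil _).trans (by exact_mod_cast hK1d)
    rw [div_le_iff₀ hδ0] at h1
    rw [div_le_iff₀ hK1r]
    linarith
  set S := (Ioc z3 K1).filter Nat.Prime with hS
  have hSp : ∀ l ∈ S, l.Prime := fun l hl => (mem_filter.1 hl).2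
  set D' := ∏ l ∈ S, l with hD'
  have hD'0 : 0 < D' := prod_pos fun l hl => (hSp l hl).pos
  have hD'd : ∀ l, l.Prime → (l ∣ D' ↔ l ∈ S) := by
    intro l hl
    constructor
    · intro h
      obtain ⟨l', hl', h3⟩ := (hl.prime.dvd_finsetProd_iff _).1 h
      rwa [(Nat.prime_dvd_prime_iff_eq hl (hSp l' hl')).1 h3]
    · intro h
      exact dvd_prod_of_mem _ h
  have hgD' : D'.Coprime g := by
    refine Nat.Coprime.prod_left fun l hl => ?_
    rw [(hSp l hl).coprime_iff_not_dvd, hgd l (hSp l hl)]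
    rw [hS, mem_filter, mem_Ioc] at hl
    omega
  set D := g * D' with hD
  have hD0 : 1 ≤ D := Nat.mul_pos hg0 hD'0
  have hDd : ∀ l, l.Prime → (l ∣ D ↔ l ≤ K1) := by
    intro l hl
    rw [hD, hl.dvd_mul, hgd l hl, hD'd l hl, hS, mem_filter, mem_Ioc]
    constructor
    · rintro (h | h)
      · omega
      · omega
    · intro h
      by_cases h2 : l ≤ z3
      · exact Or.inl h2
      · exact Or.inr ⟨⟨by omega, h⟩, hl⟩
  set T := (range ((k-1)*D+1)).filter (fun t => ¬ D ∣ t) with hT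
  set M0 := k*D + K1 + ⌈(T.card:ℝ)/δ⌉₊ + 1 with hM0
  set ℓ : ℕ → ℕ := fun t => Nat.nth Nat.Prime (M0 + t) with hℓ
  have hℓp : ∀ t, (ℓ t).Prime := fun t => Nat.prime_nth_prime _
  have hℓgt : ∀ t, M0 < ℓ t := fun t => nth_prime_gt M0 t
  have hℓinj : Set.InjOn ℓ T := by
    intro a _ b _ hab
    have := (Nat.nth_strictMono Nat.infinite_setOfPred_prime).injective hab
    omega
  have hℓD : ∀ t ∈ T, ¬ ℓ t ∣ D := by
    intro t _ h
    rw [hDd _ (hℓp t)] at h
    have := hℓgt t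
    omega
  set W := D * ∏ t ∈ T, ℓ t with hW
  have hW0 : 0 < W := Nat.mul_pos hD0 (prod_pos fun t _ => (hℓp t).pos)
  have hDW : D ∣ W := dvd_mul_right _ _
  have hgD : g ∣ D := dvd_mul_right _ _
  have hD'D : D' ∣ D := dvd_mul_left _ _
  have hWK1 : ∀ l, l.Prime → l ≤ K1 → l ∣ W := fun l hl h => ((hDd l hl).2 h).trans hDW
  have hℓW : ∀ t ∈ T, ℓ t ∣ W := fun t ht => (dvd_prod_of_mem _ ht).mul_left _
  have hWprimes : ∀ l, l.Prime → l ∣ W → l ∣ D ∨ ∃ t ∈ T, l = ℓ t := by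
    intro l hl h
    rw [hW, hl.dvd_mul] at h
    rcases h with h | h
    · exact Or.inl h
    · obtain ⟨t, ht, h3⟩ := (hl.prime.dvd_finsetProd_iff _).1 h
      exact Or.inr ⟨t, ht, (Nat.prime_dvd_prime_iff_eq hl (hℓp t)).1 h3⟩
  have hW2 : 2 ∣ W := hWK1 2 Nat.prime_two (by omega)
  have hTprod : ∏ l ∈ T.image ℓ, ((l:ℝ) / ((l:ℝ) - 1)) ≤ Real.exp δ := by
    rw [prod_image hℓinj]
    have h1 : ∏ t ∈ T, (((ℓ t : ℕ):ℝ) / (((ℓ t : ℕ):ℝ) - 1)) ≤ Real.exp (∑ t ∈ T, 1 / (((ℓ t : ℕ):ℝ) - 1)) := by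
      rw [Real.exp_sum]
      refine prod_le_prod (fun t _ => by have := ratio_ge_one (hℓp t); linarith) fun t _ => ?_
      rw [ratio_eq (hℓp t), add_comm]
      exact Real.add_one_le_exp _
    refine h1.trans (Real.exp_le_exp.2 ?_)
    have hM0r : (T.card:ℝ)/δ ≤ M0 := by
      refine (Nat.le_ceil _).trans ?_
      exact_mod_cast (by omega : ⌈(T.card:ℝ)/δ⌉₊ ≤ M0)
    have hM0pos : (0:ℝ) < M0 := by exact_mod_cast (by omega : 0 < M0)
    calc ∑ t ∈ T, 1 / (((ℓ t : ℕ):ℝ) - 1) ≤ ∑ _t ∈ T, 1 / (M0:ℝ) := by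
          refine sum_le_sum fun t _ => ?_
          have h2 : (M0:ℝ) + 1 ≤ (ℓ t : ℕ) := by exact_mod_cast hℓgt t
          exact one_div_le_one_div_of_le hM0pos (by linarith)
      _ = T.card / M0 := by rw [sum_const, nsmul_eq_mul]; ring
      _ ≤ δ := by
          rw [div_le_iff₀ hδ0] at hM0r
          rw [div_le_iff₀ hM0pos]
          linarith
  have hSprod : ∏ l ∈ S, (1 + d1 * (1 / ((l:ℝ) - 1)) ^ 2) ≤ Real.exp δ := by
    refine (prod_d_le_exp hz32 fun l hl => (mem_Ioc.1 (mem_filter.1 hl).1).1).trans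
      (Real.exp_le_exp.2 ?_)
    have h1 : d1/δ + 2 ≤ (z3:ℝ) := by
      have h2 : ((⌈(d1:ℝ)/δ⌉₊ + 2 : ℕ) : ℝ) ≤ z3 := by exact_mod_cast hz3δ
      push_cast at h2
      linarith [Nat.le_ceil ((d1:ℝ)/δ)]
    have h3 : (0:ℝ) < d1/δ := by positivity
    have h4 : d1/δ ≤ (z3:ℝ) - 1 := by linarith
    rw [div_le_iff₀ (by linarith)]
    rw [div_le_iff₀ hδ0] at h4
    linarith
  set U := (range D').filter (fun c' => c'.Coprime D') with hU
  have hUcard : U.card = D'.totient := by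
    rw [Nat.totient_eq_card_coprime, hU]
    congr 1
    refine filter_congr fun x _ => ?_
    rw [Nat.coprime_comm]
  have hUpos : (0:ℝ) < U.card := by
    rw [hUcard]
    exact_mod_cast Nat.totient_pos.2 hD'0
  have hUi : 0 ≤ 1 / (U.card : ℝ) := one_div_nonneg.2 hUpos.le
  refine ⟨g, hg0, hg2, fun l hl h => (hgd l hl).2 (h.trans hz30),
    fun l hl h => (hgd l hl).2 ((Nat.le_of_dvd hΔ h).trans hz3Δ), (k:ℝ),
    by exact_mod_cast hk1, fun n0 a0 r ha0 => ?_⟩
  -- residues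
  have hv : ∀ c : ℕ, ∃ v, v ≡ c [MOD D'] ∧ v ≡ a0 [MOD g] ∧ ∀ t ∈ T, ℓ t ∣ v + t := by
    intro c
    obtain ⟨c1, h1, h2⟩ := Nat.chineseRemainder hgD' c a0
    obtain ⟨v, hv1, hv2⟩ := exists_v (D := D) (c1 := c1) T ℓ (fun t _ => hℓp t) hℓinj hℓD
    exact ⟨v, (hv1.of_dvd hD'D).trans h1, (hv1.of_dvd hgD).trans h2, hv2⟩
  choose v hvc hva hvT using hv
  set h : Fin k → ℕ := fun i => (i:ℕ) * D with hh
  have hcop : ∀ c ∈ U, ∀ i : Fin k, (v c + h i).Coprime W := by
    intro c hc i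
    rw [hU, mem_filter] at hc
    rw [hW]
    refine Nat.Coprime.mul_right ?_ ?_
    · have h1 : (v c).Coprime D := by
        rw [hD]
        refine Nat.Coprime.mul_right ?_ ?_
        · exact (Nat.ModEq.gcd_eq (hva c)).trans ha0
        · exact (Nat.ModEq.gcd_eq (hvc c)).trans hc.2
      simp only [hh]
      exact (Nat.coprime_add_mul_right_left _ _ _).2 h1
    · refine Nat.Coprime.prod_right fun t ht => ?_
      rw [Nat.coprime_comm, (hℓp t).coprime_iff_not_dvd]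
      intro hdvd
      have h1 := hvT c t ht
      have h2 : v c + t ≡ v c + h i [MOD ℓ t] :=
        (Nat.modEq_zero_iff_dvd.2 h1).trans (Nat.modEq_zero_iff_dvd.2 hdvd).symm
      have h3 : t ≡ h i [MOD ℓ t] := Nat.ModEq.add_left_cancel' _ h2
      rw [hT, mem_filter, mem_range] at ht
      have h4 : (k - 1) * D ≤ k * D := Nat.mul_le_mul_right D (by omega)
      have h5 : h i ≤ k * D := Nat.mul_le_mul_right D i.2.le
      have h6 := hℓgt t
      have h7 : t = h i := Nat.ModEq.eq_of_lt_of_lt h3 (by omega) (by omega)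
      exact ht.2 (h7 ▸ dvd_mul_left _ _)
  have hmay' := hmay W hW0 (fun p hp hlt => hWK1 p hp (by omega)) h (by
    intro p hp hpW i j hij hmod
    have hpD : ¬ p ∣ D := fun h => hpW (h.trans hDW)
    have hpK : K1 < p := by
      by_contra hle
      push Not at hle
      exact hpD ((hDd p hp).2 hle)
    simp only [hh] at hmod
    have h1 : (i:ℕ) ≡ j [MOD p] := by
      refine Nat.ModEq.cancel_right_of_coprime ?_ hmod
      exact hp.coprime_iff_not_dvd.2 hpD
    have h2 : (k:ℕ) ≤ K1 := (Nat.le_succ k).trans ((Nat.le_mul_of_pos_right (k + 1) hd1p).trans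
      ((Nat.le_self_pow two_ne_zero ((k + 1) * d1)).trans hK1c))
    have h3 := Nat.ModEq.eq_of_lt_of_lt h1 (by have := i.2; omega) (by have := j.2; omega)
    exact hij (Fin.ext h3))
  filter_upwards [hmay', eventually_ge_atTop (W + pr n0 + k * D + 1), tail_eventually2 C0 hδ0]
    with N hN hNW htail
  have hN1 : 1 ≤ N := by omega
  have hN0 : (0:ℝ) < N := by exact_mod_cast hN1
  have hN1r : (1:ℝ) ≤ N := by exact_mod_cast hN1
  set η := (N:ℝ) ^ (-1 + ρ : ℝ) with hη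
  have hη0 : 0 ≤ η := by positivity
  have hu : ∀ c : ℕ, ∃ u : ℕ → ℝ, c ∈ U → (∀ n, 0 ≤ u n) ∧
          (∀ n, u n ≠ 0 → N < n ∧ n ≤ 2 * N ∧ n ≡ v c [MOD W] ∧ g * Δ ≤ npr h n) ∧
          ∑ n ∈ Finset.Ioc N (2 * N), u n = 1 ∧
          (∀ n, u n ≤ (N:ℝ) ^ (-1 + ρ : ℝ)) ∧
          ∀ q : ℕ, 0 < q → (q:ℝ) ≤ (N:ℝ) ^ (1/4 : ℝ) → W.Coprime q → ∀ c : ℕ,
            ∑ n ∈ (Finset.Ioc N (2 * N)).filter (fun n => n ≡ c [MOD q]), u n ≤
              ((k:ℝ) + 1) ^ (2 * q.primeFactors.card + 1) / q := by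
    intro c
    by_cases hc : c ∈ U
    · obtain ⟨u, hu⟩ := hN (v c) (hcop c hc)
      exact ⟨u, fun _ => hu⟩
    · exact ⟨fun _ => 0, fun h => absurd h hc⟩
  choose u hu using hu
  set X := Ioc N (2 * N) with hX
  -- the index
  have hex : ∀ x, (∃ c ∈ U, u c x ≠ 0) → ∃ n, (1 ≤ n ∧ n ≡ r [MOD g * Δ]) ∧ ∃ i, i < k ∧
      pr n = x + i * D := by
    rintro x ⟨c, hc, hx⟩
    obtain ⟨h1, h2, h3, h4⟩ := (hu c hc).2.1 x hx
    obtain ⟨n, h5, h6, h7⟩ := exists_index (r := r) (x := x) (Nat.mul_pos hg0 hΔ) hD0 (by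
      intro s hs hDs hprime
      have hsT : s ∈ T := by
        rw [hT, mem_filter, mem_range]
        exact ⟨by omega, hDs⟩
      have h8 : ℓ s ∣ x + s := by
        have h9 : x + s ≡ v c + s [MOD ℓ s] := (h3.of_dvd (hℓW s hsT)).add_right _
        exact (Nat.ModEq.dvd_iff h9 dvd_rfl).2 (hvT c s hsT)
      have h10 : ℓ s ≤ W := Nat.le_of_dvd hW0 (hℓW s hsT)
      have h11 := (Nat.prime_dvd_prime_iff_eq (hℓp s) hprime).1 h8
      omega) h4
    exact ⟨n, ⟨h5, h6⟩, h7⟩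
  choose! idx hidx using hex
  have hXidx : ∀ c ∈ U, ∀ x ∈ X, u c x ≠ 0 → (1 ≤ idx x ∧ pr (idx x) ≤ 3 * N) ∧
      ∃ i, i < k ∧ pr (idx x) = x + i * D := by
    intro c hc x hx h0
    obtain ⟨⟨h1, -⟩, i, hi, h3⟩ := hidx x ⟨c, hc, h0⟩
    refine ⟨⟨h1, ?_⟩, i, hi, h3⟩
    rw [hX, mem_Ioc] at hx
    have : i * D ≤ k * D := Nat.mul_le_mul_right D hi.le
    omega
  -- the measure
  set μ : ℕ → ℝ := fun x => (1 / (U.card : ℝ)) * ∑ c ∈ U, u c x with hμ
  have hμ0 : ∀ x, 0 ≤ μ x := fun x => mul_nonneg hUi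
    (sum_nonneg fun c hc => (hu c hc).1 x)
  have hμle : ∀ x, μ x ≤ η := by
    intro x
    have h1 : ∑ c ∈ U, u c x ≤ ∑ _c ∈ U, η := sum_le_sum fun c hc => (hu c hc).2.2.2.1 x
    rw [sum_const, nsmul_eq_mul] at h1
    calc μ x ≤ (1 / (U.card : ℝ)) * (U.card * η) := mul_le_mul_of_nonneg_left h1 hUi
      _ = η := by rw [one_div, inv_mul_cancel_left₀ hUpos.ne']
  have hμ1 : ∑ x ∈ X, μ x = 1 := by
    simp only [hμ]
    rw [← mul_sum, sum_comm, sum_congr rfl fun c hc => (hu c hc).2.2.1, sum_const, nsmul_eq_mul,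
      mul_one, one_div, inv_mul_cancel₀ hUpos.ne']
  have hμsupp : ∀ x, μ x ≠ 0 → ∃ c ∈ U, u c x ≠ 0 := by
    intro x hx
    by_contra hcon
    push Not at hcon
    apply hx
    simp only [hμ]
    rw [sum_eq_zero hcon, mul_zero]
  have hgood : ∀ x ∈ X, μ x ≠ 0 → ((1 ≤ idx x ∧ idx x ≤ 3 * N) ∧ pr (idx x) ≤ 3 * N) ∧ n0 ≤ idx x ∧
      idx x ≡ r [MOD g * Δ] ∧ pr (idx x) ≡ a0 [MOD g] := by
    intro x hx h0
    obtain ⟨c, hc, hcx⟩ := hμsupp x h0
    obtain ⟨⟨h1, h2⟩, i, hi, h3⟩ := hXidx c hc x hx hcx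
    obtain ⟨⟨-, h4⟩, -⟩ := hidx x ⟨c, hc, hcx⟩
    obtain ⟨h5, h6, h7, h8⟩ := (hu c hc).2.1 x hcx
    have h9 : idx x ≤ pr (idx x) := by
      unfold pr
      have := Nat.add_two_le_nth_prime (idx x - 1)
      omega
    refine ⟨⟨⟨h1, h9.trans h2⟩, h2⟩, ?_, h4, ?_⟩
    · by_contra hlt
      push Not at hlt
      have := pr_mono hlt.le
      omega
    · rw [h3]
      have h10 : x + i * D ≡ x [MOD g] := by
        have : i * D ≡ 0 [MOD g] := Nat.modEq_zero_iff_dvd.2 (hgD.mul_left i)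
        simpa using this.add_left x
      exact h10.trans ((h7.of_dvd (hgD.trans hDW)).trans (hva c))
  set ν : ℕ → ℝ := fun n => ∑ x ∈ X, if idx x = n then μ x else 0 with hν
  refine ⟨ν, fun n => sum_nonneg fun x _ => ?_, ?_, ?_, ?_, ?_⟩
  · split_ifs
    · exact hμ0 x
    · exact le_rfl
  · intro n hn
    have : ∃ x ∈ X, idx x = n ∧ μ x ≠ 0 := by
      by_contra hcon
      push Not at hcon
      apply hn
      simp only [hν]
      refine sum_eq_zero fun x hx => ?_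
      split_ifs with h1
      · exact hcon x hx h1
      · rfl
    obtain ⟨x, hx, rfl, h0⟩ := this
    exact hgood x hx h0
  · simp only [hν]
    rw [sum_comm, ← hμ1]
    refine sum_congr rfl fun x hx => ?_
    rw [sum_ite_eq]
    split_ifs with h1
    · rfl
    · by_contra h2
      obtain ⟨h3, -⟩ := hgood x hx (Ne.symm h2)
      exact h1 (mem_Icc.2 h3.1)
  · intro n
    simp only [hν]
    rw [← sum_filter]
    have h1 : ∑ x ∈ X.filter (fun x => idx x = n), μ x ≤
        ∑ x ∈ (range k).image (fun i => pr n - i * D), μ x := by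
      have h2 : ∑ x ∈ X.filter (fun x => idx x = n), μ x =
          ∑ x ∈ (X.filter (fun x => idx x = n)).filter (fun x => μ x ≠ 0), μ x := by
        rw [sum_filter_ne_zero]
      rw [h2]
      refine sum_le_sum_of_subset_of_nonneg ?_ fun x _ _ => hμ0 x
      intro x hx
      rw [mem_filter, mem_filter] at hx
      obtain ⟨c, hc, hcx⟩ := hμsupp x hx.2
      obtain ⟨-, i, hi, h3⟩ := hXidx c hc x hx.1.1 hcx
      rw [mem_image]
      refine ⟨i, mem_range.2 hi, ?_⟩
      rw [← hx.1.2, h3]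
      omega
    refine h1.trans ?_
    calc ∑ x ∈ (range k).image (fun i => pr n - i * D), μ x ≤
          ∑ _x ∈ (range k).image (fun i => pr n - i * D), η := sum_le_sum fun x _ => hμle x
      _ = ((range k).image (fun i => pr n - i * D)).card * η := by rw [sum_const, nsmul_eq_mul]
      _ ≤ k * η := by
          refine mul_le_mul_of_nonneg_right ?_ hη0
          exact_mod_cast card_image_le.trans (card_range k).le
  · -- correlations
    intro Lf hLp hLprod hLS
    have hFnn : ∀ m n : ℕ, 0 ≤ (if m = n then 0 else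
          ∏ l ∈ Lf m n, ((l:ℝ) / ((l:ℝ) - 1))) := by
      intro m n
      split_ifs
      · exact le_rfl
      · exact zero_le_one.trans (one_le_prod_ratio fun l hl => (hLp m n l hl).1)
    refine (push_double (I := Icc 1 (3 * N)) (X := X) hμ0 idx hFnn).trans ?_
    set F : ℕ → ℕ → ℝ := fun m n => (if m = n then 0 else
          ∏ l ∈ Lf m n, ((l:ℝ) / ((l:ℝ) - 1))) with hF
    change ∑ x ∈ X, ∑ x' ∈ X, μ x * μ x' * F (idx x) (idx x') ≤ 1 + ε
    choose! SS hSSc hSSm using hLS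
    have hUW : ∀ l, l.Prime → ¬ l ∣ W → ¬ l ∣ g := fun l _ h h' => h (h'.trans (hgD.trans hDW))
    -- one fixed index
    have hone : ∀ m : ℕ, ∑ x' ∈ X, μ x' * F m (idx x') ≤ Real.exp δ ^ 2 * (1 + 2 * δ) := by
      intro m
      have hexpand : ∑ x' ∈ X, μ x' * F m (idx x') =
          (1 / (U.card : ℝ)) * ∑ c ∈ U, ∑ x' ∈ X, u c x' * F m (idx x') := by
        simp only [hμ]
        rw [sum_comm, mul_sum]
        refine sum_congr rfl fun x' _ => ?_
        rw [mul_assoc, sum_mul]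
      rw [hexpand]
      have hpair : ∀ c ∈ U, ∑ x' ∈ X, u c x' * F m (idx x') ≤
          (∏ l ∈ S.filter (fun l => ∃ s ∈ SS m l, c ≡ s [MOD l]), ((l:ℝ) / ((l:ℝ) - 1))) *
            (Real.exp δ * (1 + 2 * δ)) := by
        intro c hc
        set F2 := ∏ l ∈ S.filter (fun l => ∃ s ∈ SS m l, c ≡ s [MOD l]), ((l:ℝ) / ((l:ℝ) - 1))
          with hF2
        have hF2pos : 1 ≤ F2 := one_le_prod_ratio fun l hl => hSp l (mem_filter.1 hl).1
        have hb := single_bound (X := X) (u := u c) (hu c hc).1 (hu c hc).2.2.1 (idx := idx)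
          (W := W) (K1 := K1) (k := k) (D := D) (d := d1) hW2 hd1p
          (fun x hx h0 => (hXidx c hc x hx h0).2)
          (Y := (N:ℝ) ^ (1/4 : ℝ)) (δ := δ) (Real.one_le_rpow hN1r (by norm_num))
          (hu c hc).2.2.2.2 hWK1 hK1c hδK (Lf m) (fun n l hl => (hLp m n l hl).1) (SS m)
          (fun l hl hlW => (hSSc m l hl (hUW l hl hlW)).trans (Nat.le_succ d))
          (fun n l hl hlW => hSSm m l (hLp m n l hl).1 (hLp m n l hl).2 n hl)
          (fun n => by
            have h1 := htail (∏ l ∈ Lf m n, l)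
              (prod_pos fun l hl => (hLp m n l hl).1.pos) (hLprod m n)
            rwa [Nat.primeFactors_prod fun l hl => (hLp m n l hl).1] at h1)
        have hpt : ∀ x' ∈ X, u c x' * F m (idx x') ≤ (F2 * Real.exp δ) * (u c x' *
            ∏ l ∈ (Lf m (idx x')).filter (fun l => ¬ l ∣ W), ((l:ℝ) / ((l:ℝ) - 1))) := by
          intro x' hx'
          by_cases h0' : u c x' = 0
          · rw [h0']; simp
          obtain ⟨-, i', hi', h3'⟩ := hXidx c hc x' hx' h0'
          have hxv' := ((hu c hc).2.1 x' h0').2.2.1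
          have hsub : Lf m (idx x') ⊆
              (S.filter (fun l => ∃ s ∈ SS m l, c ≡ s [MOD l]) ∪ T.image ℓ) ∪
                (Lf m (idx x')).filter (fun l => ¬ l ∣ W) := by
            intro l hl
            obtain ⟨hlp, hlg⟩ := hLp m (idx x') l hl
            rw [mem_union, mem_union]
            by_cases hlW : l ∣ W
            · left
              rcases hWprimes l hlp hlW with h4 | ⟨t, ht, rfl⟩
              · left
                have hlS : l ∈ S := by
                  rw [hD, hlp.dvd_mul] at h4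
                  rcases h4 with h4 | h4
                  · exact absurd h4 hlg
                  · exact (hD'd l hlp).1 h4
                rw [mem_filter]
                refine ⟨hlS, ?_⟩
                have hlD' : l ∣ D' := (hD'd l hlp).2 hlS
                have hlD : l ∣ D := hlD'.trans hD'D
                obtain ⟨s, hs, h5⟩ := hSSm m l hlp hlg (idx x') hl
                refine ⟨s, hs, ?_⟩
                have h6 : x' + i' * D ≡ x' [MOD l] := by
                  have : i' * D ≡ 0 [MOD l] := Nat.modEq_zero_iff_dvd.2 (hlD.mul_left i')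
                  simpa using this.add_left x'
                rw [h3'] at h5
                have h9 : x' ≡ c [MOD l] := (hxv'.of_dvd hlW).trans ((hvc c).of_dvd hlD')
                exact h9.symm.trans (h6.symm.trans h5)
              · right
                exact mem_image_of_mem _ ht
            · right
              rw [mem_filter]
              exact ⟨hl, hlW⟩
          have hr1 : ∀ l ∈ S.filter (fun l => ∃ s ∈ SS m l, c ≡ s [MOD l]),
              (1:ℝ) ≤ (l:ℝ) / ((l:ℝ) - 1) :=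
            fun l hl => ratio_ge_one (hSp l (mem_filter.1 hl).1)
          have hr2 : ∀ l ∈ T.image ℓ, (1:ℝ) ≤ (l:ℝ) / ((l:ℝ) - 1) := by
            intro l hl
            rw [mem_image] at hl
            obtain ⟨t, -, rfl⟩ := hl
            exact ratio_ge_one (hℓp t)
          have hr3 : ∀ l ∈ (Lf m (idx x')).filter (fun l => ¬ l ∣ W),
              (1:ℝ) ≤ (l:ℝ) / ((l:ℝ) - 1) :=
            fun l hl => ratio_ge_one (hLp m (idx x') l (mem_filter.1 hl).1).1
          have hr12 : ∀ l ∈ S.filter (fun l => ∃ s ∈ SS m l, c ≡ s [MOD l]) ∪ T.image ℓ,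
              (1:ℝ) ≤ (l:ℝ) / ((l:ℝ) - 1) := by
            intro l hl
            rcases mem_union.1 hl with h | h
            · exact hr1 l h
            · exact hr2 l h
          have h10 := prod_mono_set hsub (f := fun l => (l:ℝ) / ((l:ℝ) - 1)) (by
            intro l hl
            rcases mem_union.1 hl with h | h
            · exact hr12 l h
            · exact hr3 l h)
          have h11 := prod_union_le hr12 hr3
          have h12 := prod_union_le hr1 hr2
          have hP3 : 0 ≤ ∏ l ∈ (Lf m (idx x')).filter (fun l => ¬ l ∣ W),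
              ((l:ℝ) / ((l:ℝ) - 1)) :=
            prod_nonneg fun l hl => by linarith [hr3 l hl]
          have h13 : ∏ l ∈ S.filter (fun l => ∃ s ∈ SS m l, c ≡ s [MOD l]) ∪ T.image ℓ,
              ((l:ℝ) / ((l:ℝ) - 1)) ≤
              F2 * Real.exp δ := h12.trans (mul_le_mul_of_nonneg_left hTprod (by linarith))
          have h14 : F m (idx x') ≤ (F2 * Real.exp δ) *
              ∏ l ∈ (Lf m (idx x')).filter (fun l => ¬ l ∣ W), ((l:ℝ) / ((l:ℝ) - 1)) := by
            refine le_trans ?_ (h10.trans (h11.trans (mul_le_mul_of_nonneg_right h13 hP3)))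
            simp only [hF]
            split_ifs
            · exact zero_le_one.trans (one_le_prod_ratio fun l hl => (hLp m _ l hl).1)
            · exact le_rfl
          calc _ ≤ u c x' * ((F2 * Real.exp δ) *
              ∏ l ∈ (Lf m (idx x')).filter (fun l => ¬ l ∣ W), ((l:ℝ) / ((l:ℝ) - 1))) :=
                mul_le_mul_of_nonneg_left h14 ((hu c hc).1 x')
            _ = _ := by ring
        calc _ ≤ ∑ x' ∈ X, (F2 * Real.exp δ) * (u c x' *
            ∏ l ∈ (Lf m (idx x')).filter (fun l => ¬ l ∣ W), ((l:ℝ) / ((l:ℝ) - 1))) :=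
              sum_le_sum fun x' hx' => hpt x' hx'
          _ = (F2 * Real.exp δ) * ∑ x' ∈ X, u c x' *
            ∏ l ∈ (Lf m (idx x')).filter (fun l => ¬ l ∣ W), ((l:ℝ) / ((l:ℝ) - 1)) := by
              rw [mul_sum]
          _ ≤ (F2 * Real.exp δ) * (1 + 2 * δ) :=
              mul_le_mul_of_nonneg_left hb (by have := Real.exp_pos δ; positivity)
          _ = _ := by ring
      have hcorr := unit_sum hSp (d := d1) (SS m)
        (fun l hl => (hSSc m l (hSp l hl) (by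
          rw [hgd l (hSp l hl)]
          rw [hS, mem_filter, mem_Ioc] at hl
          omega)).trans (Nat.le_succ d))
      rw [← hD', ← hU, ← hUcard] at hcorr
      have hE : 0 ≤ Real.exp δ * (1 + 2 * δ) := by positivity
      calc (1 / (U.card : ℝ)) * ∑ c ∈ U, ∑ x' ∈ X, u c x' * F m (idx x') ≤
          (1 / (U.card : ℝ)) * ∑ c ∈ U,
          (∏ l ∈ S.filter (fun l => ∃ s ∈ SS m l, c ≡ s [MOD l]), ((l:ℝ) / ((l:ℝ) - 1))) *
            (Real.exp δ * (1 + 2 * δ)) :=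
            mul_le_mul_of_nonneg_left (sum_le_sum hpair) hUi
        _ = (1 / (U.card : ℝ)) * ((∑ c ∈ U,
          (∏ l ∈ S.filter (fun l => ∃ s ∈ SS m l, c ≡ s [MOD l]), ((l:ℝ) / ((l:ℝ) - 1)))) *
            (Real.exp δ * (1 + 2 * δ))) := by rw [sum_mul]
        _ ≤ (1 / (U.card : ℝ)) * (((U.card : ℝ) * Real.exp δ) *
            (Real.exp δ * (1 + 2 * δ))) := by
            refine mul_le_mul_of_nonneg_left ?_ hUi
            refine mul_le_mul_of_nonneg_right ?_ hE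
            exact hcorr.trans (mul_le_mul_of_nonneg_left hSprod hUpos.le)
        _ = ((1 / (U.card : ℝ)) * U.card) * (Real.exp δ ^ 2 * (1 + 2 * δ)) := by ring
        _ = Real.exp δ ^ 2 * (1 + 2 * δ) := by
            rw [one_div, inv_mul_cancel₀ hUpos.ne', one_mul]
    calc ∑ x ∈ X, ∑ x' ∈ X, μ x * μ x' * F (idx x) (idx x') =
        ∑ x ∈ X, μ x * ∑ x' ∈ X, μ x' * F (idx x) (idx x') := by
          refine sum_congr rfl fun x _ => ?_
          rw [mul_sum]
          exact sum_congr rfl fun x' _ => by ring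
      _ ≤ ∑ x ∈ X, μ x * (Real.exp δ ^ 2 * (1 + 2 * δ)) :=
          sum_le_sum fun x _ => mul_le_mul_of_nonneg_left (hone (idx x)) (hμ0 x)
      _ = Real.exp δ ^ 2 * (1 + 2 * δ) := by rw [← sum_mul, hμ1, one_mul]
      _ ≤ 1 + ε := by
          have h1 : Real.exp δ ≤ 1 + 2 * δ := by
            have h2 := Real.abs_exp_sub_one_le (x := δ) (by rw [abs_of_pos hδ0]; linarith)
            rw [abs_of_pos hδ0] at h2
            have := (le_abs_self _).trans h2
            linarith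
          have h3 : 0 < Real.exp δ := Real.exp_pos δ
          have h4 : Real.exp δ ^ 2 ≤ (1 + 2 * δ) ^ 2 := pow_le_pow_left₀ h3.le h1 2
          have h5 : Real.exp δ ^ 2 * (1 + 2 * δ) ≤ (1 + 2 * δ) ^ 2 * (1 + 2 * δ) :=
            mul_le_mul_of_nonneg_right h4 (by linarith)
          have h6 : (1 + 2 * δ) ^ 2 * (1 + 2 * δ) = 1 + δ * (6 + 12 * δ + 8 * δ ^ 2) := by ring
          have h7 : δ * (6 + 12 * δ + 8 * δ ^ 2) ≤ δ * 8 := by
            refine mul_le_mul_of_nonneg_left ?_ hδ0.le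
            have h8 : δ ^ 2 ≤ (1 / 8) ^ 2 := pow_le_pow_left₀ hδ0.le hδ1 2
            norm_num at h8
            linarith only [h8, hδ1]
          linarith

end Pool.Agent.PnMaynard2
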